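import Pool.Agent.Helper774.KStab.Toric

open scoped ENNReal

noncomputable section

namespace Pool.Agent.Helper774.KStab

section targets

open MeasureTheory

variable {n : ℕ}

/-- layer cake -/
theorem layer_cake (P : Set (Fin n → ℝ)) (hb : Bornology.IsBounded P) (hcl : IsClosed P)
    (b : Fin n → ℝ) (A : ℝ) (hpos : ∀ p ∈ P, 0 ≤ ∑ i, b i * p i + A) :
    ∫⁻ t in Set.Ioi (0 : ℝ), volume (P ∩ {p | t ≤ ∑ i, b i * p i + A}) =
      ENNReal.ofReal (∑ i, b i * (∫ p in P, p i) + A * volume.real P) := by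
  have hK : IsCompact P := Metric.isCompact_of_isClosed_isBounded hcl hb
  have hc : Continuous fun p : Fin n → ℝ => ∑ i, b i * p i + A := by fun_prop
  have hnn : 0 ≤ᵐ[volume.restrict P] fun p : Fin n → ℝ => ∑ i, b i * p i + A := by
    rw [Filter.EventuallyLE, ae_restrict_iff' hcl.measurableSet]
    exact Filter.Eventually.of_forall fun p hp => hpos p hp
  have hint : ∀ g : (Fin n → ℝ) → ℝ, Continuous g → Integrable g (volume.restrict P) :=
    fun g hg => hg.continuousOn.integrableOn_compact hK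
  have h1 := lintegral_eq_lintegral_meas_le (volume.restrict P) hnn hc.measurable.aemeasurable
  have h2 := ofReal_integral_eq_lintegral_ofReal (hint _ hc) hnn
  have h3 : ∀ t : ℝ, volume (P ∩ {p | t ≤ ∑ i, b i * p i + A}) =
      (volume.restrict P) {p | t ≤ ∑ i, b i * p i + A} := by
    intro t
    rw [Measure.restrict_apply (isClosed_le continuous_const hc).measurableSet, Set.inter_comm]
  simp only [h3]
  rw [← h1, ← h2]
  congr 1
  rw [integral_add (hint _ (by fun_prop)) (hint _ continuous_const),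
    integral_finsetSum _ (fun i _ => hint _ (by fun_prop))]
  congr 1
  · exact Finset.sum_congr rfl fun i _ => integral_const_mul _ _
  · rw [integral_const, smul_eq_mul, measureReal_restrict_apply_univ, mul_comm]

theorem ToricData.P_closed (D : ToricData n) : IsClosed D.P := by
  have h : D.P = ⋂ σ, ⋂ j, {p : Fin n → ℝ | -1 ≤ ∑ i, p i * ((D.R σ i j : ℤ) : ℝ)} := by
    ext p
    simp [ToricData.P]
  rw [h]
  exact isClosed_iInter fun σ => isClosed_iInter fun j =>
    isClosed_le continuous_const (by fun_prop)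

theorem ToricData.P_convex (D : ToricData n) : Convex ℝ D.P := by
  intro p hp q hq a b ha hb hab σ j
  have h1 := hp σ j
  have h2 := hq σ j
  have h3 : ∑ i, (a • p + b • q) i * ((D.R σ i j : ℤ) : ℝ) =
      a * ∑ i, p i * ((D.R σ i j : ℤ) : ℝ) + b * ∑ i, q i * ((D.R σ i j : ℤ) : ℝ) := by
    rw [Finset.mul_sum, Finset.mul_sum, ← Finset.sum_add_distrib]
    refine Finset.sum_congr rfl fun i _ => ?_
    simp only [Pi.add_apply, Pi.smul_apply, smul_eq_mul]
    ring
  rw [h3]
  nlinarith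

theorem ToricData.P_volume_pos (D : ToricData n) : 0 < volume D.P := by
  set U : Set (Fin n → ℝ) :=
    ⋂ σ, ⋂ j, {p : Fin n → ℝ | -1 < ∑ i, p i * ((D.R σ i j : ℤ) : ℝ)} with hU
  have hUo : IsOpen U :=
    isOpen_iInter_of_finite fun σ => isOpen_iInter_of_finite fun j =>
      isOpen_lt continuous_const (by fun_prop)
  have h0 : (0 : Fin n → ℝ) ∈ U := by
    simp [hU]
  have hUP : U ⊆ D.P := by
    intro p hp σ j
    have h1 : p ∈ {p : Fin n → ℝ | -1 < ∑ i, p i * ((D.R σ i j : ℤ) : ℝ)} :=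
      Set.mem_iInter.1 (Set.mem_iInter.1 hp σ) j
    exact le_of_lt h1
  exact lt_of_lt_of_le (hUo.measure_pos volume ⟨0, h0⟩) (measure_mono hUP)

/-- rescaling of the lattice points -/
theorem ToricData.pts_iff (D : ToricData n) (m : ℕ) (hm : 1 ≤ m) (u : Fin n → ℤ) :
    u ∈ D.pts m ↔ (fun i => (u i : ℝ) / (m : ℝ)) ∈ D.P := by
  have hm0 : (0 : ℝ) < m := by exact_mod_cast hm
  unfold ToricData.pts ToricData.P
  refine forall_congr' fun σ => forall_congr' fun j => ?_
  have h1 : ∑ i, (u i : ℝ) / (m : ℝ) * ((D.R σ i j : ℤ) : ℝ) =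
      ((Matrix.vecMul u (D.R σ) j : ℤ) : ℝ) / m := by
    simp only [Matrix.vecMul, dotProduct]
    push_cast
    rw [Finset.sum_div]
    refine Finset.sum_congr rfl fun i _ => ?_
    ring
  rw [h1, le_div_iff₀ hm0, neg_one_mul]
  constructor
  · intro h
    exact_mod_cast h
  · intro h
    exact_mod_cast h

theorem ToricData.pts_finite (D : ToricData n) (hb : Bornology.IsBounded D.P) (m : ℕ) (hm : 1 ≤ m) :
    (D.pts m).Finite := by
  obtain ⟨B, hB⟩ := hb.exists_norm_le
  have hm0 : (0 : ℝ) < m := by exact_mod_cast hm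
  set N : ℤ := ⌈B * m⌉ with hN
  refine (Set.finite_Icc (fun _ : Fin n => -N) (fun _ => N)).subset fun u hu => ?_
  have h1 := hB _ ((D.pts_iff m hm u).1 hu)
  have h2 : ∀ i, |u i| ≤ N := by
    intro i
    have h3 : ‖(u i : ℝ) / (m : ℝ)‖ ≤ B :=
      (norm_le_pi_norm (fun i => (u i : ℝ) / (m : ℝ)) i).trans h1
    rw [Real.norm_eq_abs, abs_div, abs_of_pos hm0, div_le_iff₀ hm0] at h3
    have h4 : (|u i| : ℝ) ≤ (N : ℝ) := h3.trans (Int.le_ceil _)
    exact_mod_cast h4
  exact ⟨fun i => (abs_le.1 (h2 i)).1, fun i => (abs_le.1 (h2 i)).2⟩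

end targets

end Pool.Agent.Helper774.KStab
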