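import Pool.Agent.Helper774.KStab.Toric

open scoped ENNReal

noncomputable section

namespace Pool.Agent.Helper774.KStab

section targets

variable {n : ℕ} {K : Type} [Field K] [Algebra ℂ K]

theorem KS11_vec {n : ℕ} (M : Matrix (Fin n) (Fin n) ℤ) :
    Matrix.vecMul (fun _ => 1) M = ∑ k, M k := by
  funext j
  calc Matrix.vecMul (fun _ => 1) M j = ∑ k, 1 * M k j := rfl
    _ = ∑ k, M k j := by simp
    _ = (∑ k, M k) j := (Finset.sum_apply j Finset.univ (fun k => (M k : Fin n → ℤ))).symm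

theorem KS11_top_eq (T : TorusField n K) (D : ToricData n) (σ : D.ι) :
    (T.at D σ).χ (fun _ => 1) = T.top D σ := by
  show T.χ (Matrix.vecMul (fun _ => 1) (D.E σ)) = T.χ (∑ k, D.E σ k)
  congr 1
  exact KS11_vec (D.E σ)

theorem KS11_jac (T : TorusField n K) (D : ToricData n) (σ : D.ι) (g : Fin n → K) :
    ∃ ε : K, (ε = 1 ∨ ε = -1) ∧
      (toricVariety T D).jac g = ε * Matrix.det (Matrix.of fun i j => (T.at D σ).θ i (g j)) ∧
      Matrix.det (Matrix.of fun i j => (T.at D σ).θ i (g j)) = ε * (toricVariety T D).jac g := by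
  have h := T.det_reindex (D.E σ) (D.R σ) (D.inv σ) g
  have hj := toric_jac T D g
  have h' : Matrix.det (Matrix.of fun i j => (T.at D σ).θ i (g j)) =
      (((D.R σ).det : ℤ) : K) * (toricVariety T D).jac g := by
    rw [hj]; exact h
  rcases TorusField.det_unit (D.E σ) (D.R σ) (D.inv σ) with hu | hu
  · refine ⟨1, Or.inl rfl, ?_, ?_⟩
    · rw [h', hu]; simp
    · rw [h', hu]; simp
  · refine ⟨-1, Or.inr rfl, ?_, ?_⟩
    · rw [h', hu]; simp
    · rw [h', hu]; simp

theorem toric_forms_sub (T : TorusField n K) (D : ToricData n) (σ : D.ι) (a : K)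
    (ha : a ∈ (toricVariety T D).forms ((T.at D σ).std : Set K)) :
    ∃ h ∈ (T.at D σ).std, a = T.top D σ * h := by
  obtain ⟨g, hg, rfl⟩ := ha
  obtain ⟨ε, hε, h1, _⟩ := KS11_jac T D σ g
  obtain ⟨h, hh, hdet⟩ := (T.at D σ).det_std g hg
  refine ⟨ε * h, ?_, ?_⟩
  · rcases hε with rfl | rfl
    · rw [one_mul]; exact hh
    · rw [neg_one_mul]; exact neg_mem hh
  · rw [h1, hdet, KS11_top_eq]
    ring

theorem toric_forms_loc (T : TorusField n K) (D : ToricData n) (σ : D.ι) (p : Ideal (T.at D σ).std)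
    (hp : p.IsPrime) (a : K) (ha : a ∈ (toricVariety T D).forms (locRing (T.at D σ).std p)) :
    ∃ h ∈ locRing (T.at D σ).std p, a = T.top D σ * h := by
  obtain ⟨g, hg, rfl⟩ := ha
  obtain ⟨ε, hε, h1, _⟩ := KS11_jac T D σ g
  obtain ⟨h, hh, hdet⟩ := (T.at D σ).det_locRing p hp g hg
  refine ⟨ε * h, ?_, ?_⟩
  · rcases hε with rfl | rfl
    · rw [one_mul]; exact hh
    · obtain ⟨b, s, hs, hbs⟩ := hh
      refine ⟨-b, s, hs, ?_⟩
      rw [neg_one_mul, neg_mul, hbs]
      rfl
  · rw [h1, hdet, KS11_top_eq]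
    ring

theorem toric_forms_mem (T : TorusField n K) (D : ToricData n) (σ : D.ι) :
    ∃ ε : K, (ε = 1 ∨ ε = -1) ∧ ε * T.top D σ ∈ (toricVariety T D).forms ((T.at D σ).std : Set K) := by
  obtain ⟨ε, hε, h1, _⟩ := KS11_jac T D σ (fun j => (T.at D σ).χ (Pi.single j 1))
  refine ⟨ε, hε, (fun j => (T.at D σ).χ (Pi.single j 1)), ?_, ?_⟩
  · intro j
    exact Algebra.subset_adjoin ⟨j, rfl⟩
  · rw [h1, TorusField.det_coord, KS11_top_eq]

theorem KS11_mul_span (T : TorusField n K) {S S' : Set (Fin n → ℤ)} (v : Fin n → ℤ)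
    (hS : ∀ u ∈ S, u + v ∈ S') {f : K} (hf : f ∈ Submodule.span ℂ (T.χ '' S)) :
    f * T.χ v ∈ Submodule.span ℂ (T.χ '' S') := by
  induction hf using Submodule.span_induction with
  | mem x hx =>
    obtain ⟨u, hu, rfl⟩ := hx
    rw [← T.χ_add]
    exact Submodule.subset_span ⟨u + v, hS u hu, rfl⟩
  | zero => rw [zero_mul]; exact Submodule.zero_mem _
  | add x y _ _ hx hy => rw [add_mul]; exact Submodule.add_mem _ hx hy
  | smul c x _ hx => rw [smul_mul_assoc]; exact Submodule.smul_mem _ _ hx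

theorem KS11_at_image (T : TorusField n K) (D : ToricData n) (σ : D.ι) :
    (T.at D σ).χ '' {u | ∀ j, 0 ≤ u j} = T.χ '' {u | ∀ j, 0 ≤ Matrix.vecMul u (D.R σ) j} := by
  have h1 : D.E σ * D.R σ = 1 := D.inv σ
  have h2 : D.R σ * D.E σ = 1 := mul_eq_one_comm.1 h1
  ext z
  constructor
  · rintro ⟨u, hu, rfl⟩
    refine ⟨Matrix.vecMul u (D.E σ), ?_, rfl⟩
    intro j
    rw [Matrix.vecMul_vecMul, h1, Matrix.vecMul_one]
    exact hu j
  · rintro ⟨u, hu, rfl⟩
    refine ⟨Matrix.vecMul u (D.R σ), hu, ?_⟩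
    show T.χ (Matrix.vecMul (Matrix.vecMul u (D.R σ)) (D.E σ)) = T.χ u
    rw [Matrix.vecMul_vecMul, h2, Matrix.vecMul_one]

theorem KS11_pow (T : TorusField n K) (v : Fin n → ℤ) (m : ℕ) :
    T.χ v ^ m = T.χ ((m : ℤ) • v) := by
  induction m with
  | zero => simp [T.χ_zero]
  | succ m ih =>
    rw [pow_succ, ih, ← T.χ_add]
    congr 1
    push_cast
    rw [add_smul, one_smul]

theorem KS11_chart (T : TorusField n K) (D : ToricData n) (σ : D.ι) (m : ℕ) (f : K) :
    f * T.top D σ ^ m ∈ (T.at D σ).std ↔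
      f ∈ Submodule.span ℂ (T.χ '' {u | ∀ j, -(m : ℤ) ≤ Matrix.vecMul u (D.R σ) j}) := by
  have h1 : D.E σ * D.R σ = 1 := D.inv σ
  set e : Fin n → ℤ := ∑ k, D.E σ k with he
  have hev : e = Matrix.vecMul (fun _ => 1) (D.E σ) := (KS11_vec (D.E σ)).symm
  have heR : Matrix.vecMul e (D.R σ) = fun _ => 1 := by
    rw [hev, Matrix.vecMul_vecMul, h1, Matrix.vecMul_one]
  have htop : T.top D σ ^ m = T.χ ((m : ℤ) • e) := KS11_pow T e m
  rw [TorusField.mem_std, KS11_at_image, htop]
  constructor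
  · intro h
    have h2 := KS11_mul_span T (-((m : ℤ) • e))
      (S' := {u | ∀ j, -(m : ℤ) ≤ Matrix.vecMul u (D.R σ) j}) (by
        intro u hu j
        rw [Matrix.add_vecMul, Matrix.neg_vecMul, Matrix.smul_vecMul, heR]
        have := hu j
        simp only [Pi.add_apply, Pi.neg_apply, Pi.smul_apply, smul_eq_mul, mul_one]
        linarith) h
    rw [mul_assoc, ← T.χ_add, add_neg_cancel, T.χ_zero, mul_one] at h2
    exact h2
  · intro h
    refine KS11_mul_span T ((m : ℤ) • e) ?_ h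
    intro u hu j
    rw [Matrix.add_vecMul, Matrix.smul_vecMul, heR]
    have := hu j
    simp only [Pi.add_apply, Pi.smul_apply, smul_eq_mul, mul_one]
    linarith

theorem toric_antican (T : TorusField n K) (D : ToricData n) (m : ℕ) :
    ∀ f : K, f ∈ (toricVariety T D).antican m ↔ f ∈ Submodule.span ℂ (T.χ '' D.pts m) := by
  intro f
  have hA : f ∈ (toricVariety T D).antican m ↔
      ∀ σ : D.ι, f * T.top D σ ^ m ∈ (T.at D σ).std := by
    constructor
    · intro hf σ
      obtain ⟨ε, hε, hmem⟩ := toric_forms_mem T D σ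
      have h1 : f * ∏ _k : Fin m, (ε * T.top D σ) ∈ (T.at D σ).std :=
        hf σ (fun _ => ε * T.top D σ) (fun _ => hmem)
      rw [Finset.prod_const, Finset.card_univ, Fintype.card_fin] at h1
      have hεm : ε ^ m * ε ^ m = 1 := by
        rcases hε with rfl | rfl
        · simp
        · rw [← mul_pow]; simp
      have hεs : ε ^ m ∈ (T.at D σ).std := by
        rcases hε with rfl | rfl
        · rw [one_pow]; exact one_mem _
        · exact pow_mem (neg_mem (one_mem _)) _
      have h2 := mul_mem hεs h1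
      have e : ε ^ m * (f * (ε * T.top D σ) ^ m) = f * T.top D σ ^ m := by
        rw [mul_pow]
        calc ε ^ m * (f * (ε ^ m * T.top D σ ^ m)) = (ε ^ m * ε ^ m) * (f * T.top D σ ^ m) := by
              ring
          _ = _ := by rw [hεm, one_mul]
      rw [e] at h2
      exact h2
    · intro h σ a ha
      have h1 : ∀ k, ∃ g ∈ (T.at D σ).std, a k = T.top D σ * g := fun k =>
        toric_forms_sub T D σ (a k) (ha k)
      choose g hg1 hg2 using h1
      show f * ∏ k, a k ∈ (T.at D σ).std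
      have h2 : ∏ k, a k = T.top D σ ^ m * ∏ k, g k := by
        rw [Finset.prod_congr rfl (fun k _ => hg2 k), Finset.prod_mul_distrib, Finset.prod_const,
          Finset.card_univ, Fintype.card_fin]
      rw [h2, ← mul_assoc]
      exact mul_mem (h σ) (prod_mem fun k _ => hg1 k)
  rw [hA]
  have hne : Nonempty D.ι := by
    obtain ⟨σ, _⟩ := D.complete Set.univ (fun _ _ _ _ => trivial) (fun _ => Or.inl trivial)
    exact ⟨σ⟩
  constructor
  · intro h
    have h1 : ∀ σ : D.ι, ∃ l ∈ Finsupp.supported ℂ ℂ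
        {u | ∀ j, -(m : ℤ) ≤ Matrix.vecMul u (D.R σ) j},
        Finsupp.linearCombination ℂ T.χ l = f := by
      intro σ
      exact (Finsupp.mem_span_image_iff_linearCombination ℂ).1 ((KS11_chart T D σ m f).1 (h σ))
    obtain ⟨σ₀⟩ := hne
    obtain ⟨l, _, hlf⟩ := h1 σ₀
    rw [Finsupp.mem_span_image_iff_linearCombination]
    refine ⟨l, ?_, hlf⟩
    rw [Finsupp.mem_supported]
    intro u hu σ
    obtain ⟨l', hl', hlf'⟩ := h1 σ
    have hll : l' = l := T.li (by rw [hlf', hlf])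
    rw [hll, Finsupp.mem_supported] at hl'
    exact hl' hu
  · intro h σ
    rw [KS11_chart]
    refine Submodule.span_mono (Set.image_mono ?_) h
    intro u hu
    exact hu σ

end targets

end Pool.Agent.Helper774.KStab
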