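import Pool.Agent.Helper774.KStab.Data

open scoped ENNReal

noncomputable section

namespace Pool.Agent.Helper774.KStab

section targets

open MeasureTheory

theorem aux_invol {n : ℕ} (M : Matrix (Fin n) (Fin n) ℝ) (hM : M * M = 1) (hdet : |M.det| = 1)
    (P : Set (Fin n → ℝ)) (hP : ∀ p ∈ P, M.mulVec p ∈ P) (f : (Fin n → ℝ) → ℝ) :
    ∫ p in P, f (M.mulVec p) = ∫ p in P, f p := by
  have hinv : ∀ p, M.mulVec (M.mulVec p) = p := by
    intro p
    rw [Matrix.mulVec_mulVec, hM, Matrix.one_mulVec]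
  have hmeas : Measurable fun p : Fin n → ℝ => M.mulVec p := by
    have : Continuous fun p : Fin n → ℝ => M.mulVec p := by fun_prop
    exact this.measurable
  let e : (Fin n → ℝ) ≃ᵐ (Fin n → ℝ) :=
    { toFun := fun p => M.mulVec p
      invFun := fun p => M.mulVec p
      left_inv := hinv
      right_inv := hinv
      measurable_toFun := hmeas
      measurable_invFun := hmeas }
  have hmp : MeasurePreserving e volume volume := by
    refine ⟨e.measurable, ?_⟩
    have h := Real.map_matrix_volume_pi_eq_smul_volume_pi (M := M) (by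
      intro h0
      rw [h0] at hdet
      simp at hdet)
    have h2 : (Matrix.toLin' M : (Fin n → ℝ) → (Fin n → ℝ)) = e := by
      funext p
      rw [Matrix.toLin'_apply]
      rfl
    rw [h2] at h
    rw [h, abs_inv, hdet]
    simp
  have hpre : e ⁻¹' P = P := by
    ext p
    constructor
    · intro h
      have h1 := hP _ h
      have h2 : M.mulVec (e p) = p := hinv p
      rwa [h2] at h1
    · intro h
      exact hP p h
  have h := hmp.setIntegral_preimage_emb e.measurableEmbedding f P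
  rw [hpre] at h
  exact h

theorem mem_dataX (p : Fin 3 → ℝ) : p ∈ dataX.P ↔
    (-1 ≤ p 0 ∧ p 0 ≤ 1 + p 2) ∧ (-1 ≤ p 1 ∧ p 1 ≤ 1 - p 2) ∧ (-1 ≤ p 2 ∧ p 2 ≤ 1) := by
  constructor
  · intro h
    have h1 := h (false, false, false) 0
    have h2 := h (true, false, false) 0
    have h3 := h (false, false, false) 1
    have h4 := h (false, true, false) 1
    have h5 := h (false, false, false) 2
    have h6 := h (false, false, true) 2
    simp [dataX, sg, ind, Fin.sum_univ_three] at h1 h2 h3 h4 h5 h6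
    refine ⟨⟨?_, ?_⟩, ⟨?_, ?_⟩, ⟨?_, ?_⟩⟩ <;> linarith
  · rintro ⟨⟨h1, h2⟩, ⟨h3, h4⟩, ⟨h5, h6⟩⟩ ⟨a, b, c⟩ j
    fin_cases j
    · cases a <;> simp [dataX, sg, ind, Fin.sum_univ_three] <;> linarith
    · cases b <;> simp [dataX, sg, ind, Fin.sum_univ_three] <;> linarith
    · cases c <;> simp [dataX, sg, ind, Fin.sum_univ_three] <;> linarith

theorem mem_dataF1 (p : Fin 2 → ℝ) : p ∈ dataF1.P ↔
    (-1 ≤ p 0 ∧ p 0 ≤ 1 - p 1) ∧ (-1 ≤ p 1 ∧ p 1 ≤ 1) := by
  constructor
  · intro h
    have h1 := h (false, false) 0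
    have h2 := h (true, false) 0
    have h3 := h (false, false) 1
    have h4 := h (false, true) 1
    simp [dataF1, sg, ind, Fin.sum_univ_two] at h1 h2 h3 h4
    refine ⟨⟨?_, ?_⟩, ⟨?_, ?_⟩⟩ <;> linarith
  · rintro ⟨⟨h1, h2⟩, ⟨h3, h4⟩⟩ ⟨a, b⟩ j
    fin_cases j
    · cases a <;> simp [dataF1, sg, ind, Fin.sum_univ_two] <;> linarith
    · cases b <;> simp [dataF1, sg, ind, Fin.sum_univ_two] <;> linarith

theorem dataX_bounded : Bornology.IsBounded dataX.P := by
  refine (Metric.isBounded_Icc (fun _ => (-3 : ℝ)) (fun _ => 3)).subset ?_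
  intro p hp
  obtain ⟨⟨h1, h2⟩, ⟨h3, h4⟩, ⟨h5, h6⟩⟩ := (mem_dataX p).1 hp
  rw [Set.mem_Icc, Pi.le_def, Pi.le_def]
  constructor
  · intro i
    fin_cases i <;> simp <;> linarith
  · intro i
    fin_cases i <;> simp <;> linarith

theorem isClosed_P {n : ℕ} (D : ToricData n) : IsClosed D.P := by
  have h : D.P = ⋂ σ, ⋂ j, {p : Fin n → ℝ | -1 ≤ ∑ i, p i * ((D.R σ i j : ℤ) : ℝ)} := by
    ext p
    simp [ToricData.P]
  rw [h]
  refine isClosed_iInter fun σ => isClosed_iInter fun j => isClosed_le continuous_const ?_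
  fun_prop

theorem int_coord {n : ℕ} (D : ToricData n) (hb : Bornology.IsBounded D.P) (i : Fin n) :
    IntegrableOn (fun p : Fin n → ℝ => p i) D.P := by
  have hc : IsCompact D.P := Metric.isCompact_of_isClosed_isBounded (isClosed_P D) hb
  exact (continuous_apply i).continuousOn.integrableOn_compact hc

theorem dataX_bary : ∀ i, ∫ p in dataX.P, p i = 0 := by
  have I := int_coord dataX dataX_bounded
  have h2 : ∫ p in dataX.P, p 2 = 0 := by
    have h := aux_invol !![0, 1, 0; 1, 0, 0; 0, 0, (-1 : ℝ)] (by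
      ext i j
      fin_cases i <;> fin_cases j <;> simp [Matrix.mul_apply, Fin.sum_univ_three]) (by
      rw [Matrix.det_fin_three]; simp) dataX.P (by
      intro p hp
      rw [mem_dataX] at hp ⊢
      simp [Matrix.mulVec, dotProduct, Fin.sum_univ_three]
      obtain ⟨⟨h1, h2⟩, ⟨h3, h4⟩, ⟨h5, h6⟩⟩ := hp
      refine ⟨⟨?_, ?_⟩, ⟨?_, ?_⟩, ⟨?_, ?_⟩⟩ <;> linarith) (fun p => p 2)
    have e : ∀ p : Fin 3 → ℝ, (Matrix.mulVec !![0, 1, 0; 1, 0, 0; 0, 0, (-1 : ℝ)] p) 2 = - p 2 := by
      intro p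
      simp [Matrix.mulVec, dotProduct, Fin.sum_univ_three]
    simp only [e] at h
    rw [integral_neg] at h
    linarith
  have h0 : ∫ p in dataX.P, p 0 = 0 := by
    have h := aux_invol !![-1, 0, 1; 0, 1, 0; 0, 0, (1 : ℝ)] (by
      ext i j
      fin_cases i <;> fin_cases j <;> simp [Matrix.mul_apply, Fin.sum_univ_three]) (by
      rw [Matrix.det_fin_three]; simp) dataX.P (by
      intro p hp
      rw [mem_dataX] at hp ⊢
      simp [Matrix.mulVec, dotProduct, Fin.sum_univ_three]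
      obtain ⟨⟨h1, h2⟩, ⟨h3, h4⟩, ⟨h5, h6⟩⟩ := hp
      refine ⟨⟨?_, ?_⟩, ⟨?_, ?_⟩, ⟨?_, ?_⟩⟩ <;> linarith) (fun p => p 0)
    have e : ∀ p : Fin 3 → ℝ, (Matrix.mulVec !![-1, 0, 1; 0, 1, 0; 0, 0, (1 : ℝ)] p) 0 = p 2 - p 0 := by
      intro p
      simp [Matrix.mulVec, dotProduct, Fin.sum_univ_three]
      ring
    simp only [e] at h
    rw [integral_sub (I 2) (I 0), h2] at h
    linarith
  have h1 : ∫ p in dataX.P, p 1 = 0 := by
    have h := aux_invol !![1, 0, 0; 0, -1, -1; 0, 0, (1 : ℝ)] (by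
      ext i j
      fin_cases i <;> fin_cases j <;> simp [Matrix.mul_apply, Fin.sum_univ_three]) (by
      rw [Matrix.det_fin_three]; simp) dataX.P (by
      intro p hp
      rw [mem_dataX] at hp ⊢
      simp [Matrix.mulVec, dotProduct, Fin.sum_univ_three]
      obtain ⟨⟨h1, h2⟩, ⟨h3, h4⟩, ⟨h5, h6⟩⟩ := hp
      refine ⟨⟨?_, ?_⟩, ⟨?_, ?_⟩, ⟨?_, ?_⟩⟩ <;> linarith) (fun p => p 1)
    have e : ∀ p : Fin 3 → ℝ, (Matrix.mulVec !![1, 0, 0; 0, -1, -1; 0, 0, (1 : ℝ)] p) 1 = - p 2 - p 1 := by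
      intro p
      simp [Matrix.mulVec, dotProduct, Fin.sum_univ_three]
      ring
    simp only [e] at h
    have h3 : ∫ p in dataX.P, (-p 2 - p 1) = (∫ p in dataX.P, -p 2) - ∫ p in dataX.P, p 1 :=
      integral_sub (f := fun p : Fin 3 → ℝ => -p 2) (g := fun p : Fin 3 → ℝ => p 1) (I 2).neg (I 1)
    rw [h3, integral_neg, h2] at h
    linarith
  intro i
  fin_cases i
  · exact h0
  · exact h1
  · exact h2

theorem dataF1_bounded : Bornology.IsBounded dataF1.P := by
  refine (Metric.isBounded_Icc (fun _ => (-3 : ℝ)) (fun _ => 3)).subset ?_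
  intro p hp
  obtain ⟨⟨h1, h2⟩, ⟨h3, h4⟩⟩ := (mem_dataF1 p).1 hp
  rw [Set.mem_Icc, Pi.le_def, Pi.le_def]
  constructor
  · intro i
    fin_cases i <;> simp <;> linarith
  · intro i
    fin_cases i <;> simp <;> linarith

theorem dataF1_bary : ∫ p in dataF1.P, p 1 < 0 := by
  have hm : MeasurableSet dataF1.P := (isClosed_P dataF1).measurableSet
  have I := int_coord dataF1 dataF1_bounded 1
  -- pass to the product
  have h1 : ∫ p in dataF1.P, p 1 = ∫ p : Fin 2 → ℝ, dataF1.P.indicator (fun p => p 1) p := by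
    rw [integral_indicator hm]
  let F : ℝ × ℝ → ℝ := fun q => dataF1.P.indicator (fun p => p 1) ![q.1, q.2]
  have hF : ∀ p : Fin 2 → ℝ, F (MeasurableEquiv.finTwoArrow p) =
      dataF1.P.indicator (fun p => p 1) p := by
    intro p
    show dataF1.P.indicator (fun p => p 1) ![p 0, p 1] = _
    congr 1
    ext i
    fin_cases i <;> rfl
  have h2 : ∫ p : Fin 2 → ℝ, dataF1.P.indicator (fun p => p 1) p = ∫ q : ℝ × ℝ, F q := by
    rw [← (volume_preserving_finTwoArrow ℝ).integral_comp MeasurableEquiv.finTwoArrow.measurableEmbedding F]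
    exact integral_congr_ae (Filter.Eventually.of_forall fun p => (hF p).symm)
  have hFi : Integrable F := by
    have h3 : Integrable (F ∘ MeasurableEquiv.finTwoArrow) (volume : Measure (Fin 2 → ℝ)) := by
      have : F ∘ MeasurableEquiv.finTwoArrow = dataF1.P.indicator (fun p => p 1) := funext hF
      rw [this, integrable_indicator_iff hm]
      exact I
    exact ((volume_preserving_finTwoArrow ℝ).integrable_comp_emb
      MeasurableEquiv.finTwoArrow.measurableEmbedding).1 h3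
  have hFv : ∀ x y : ℝ, F (x, y) = (Set.Icc (-1 : ℝ) 1).indicator (fun _ => (Set.Icc (-1 : ℝ) (1 - y)).indicator (fun _ => y) x) y := by
    intro x y
    have hiff : ![x, y] ∈ dataF1.P ↔ (-1 ≤ x ∧ x ≤ 1 - y) ∧ (-1 ≤ y ∧ y ≤ 1) := by
      rw [mem_dataF1]
      simp
    show dataF1.P.indicator (fun p => p 1) ![x, y] = _
    by_cases h : y ∈ Set.Icc (-1 : ℝ) 1
    · rw [Set.indicator_of_mem h]
      by_cases h' : x ∈ Set.Icc (-1 : ℝ) (1 - y)
      · rw [Set.indicator_of_mem h', Set.indicator_of_mem (hiff.2 ⟨h', h⟩)]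
        simp
      · rw [Set.indicator_of_notMem h', Set.indicator_of_notMem (fun hm => h' (hiff.1 hm).1)]
    · rw [Set.indicator_of_notMem h, Set.indicator_of_notMem (fun hm => h (hiff.1 hm).2)]
  have h4 : ∫ q : ℝ × ℝ, F q = ∫ y : ℝ, ∫ x : ℝ, F (x, y) := by
    rw [Measure.volume_eq_prod] at hFi ⊢
    exact integral_prod_symm F hFi
  have h5 : ∀ y : ℝ, ∫ x : ℝ, F (x, y) = (Set.Icc (-1 : ℝ) 1).indicator (fun y => y * (2 - y)) y := by
    intro y
    simp only [hFv]
    by_cases h : y ∈ Set.Icc (-1 : ℝ) 1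
    · simp only [Set.indicator_of_mem h]
      rw [integral_indicator measurableSet_Icc, setIntegral_const, Real.volume_real_Icc_of_le (by linarith [h.2]), smul_eq_mul]
      ring
    · simp only [Set.indicator_of_notMem h]
      simp
  have h6 : ∫ y : ℝ, (Set.Icc (-1 : ℝ) 1).indicator (fun y => y * (2 - y)) y = -2 / 3 := by
    rw [integral_indicator measurableSet_Icc, integral_Icc_eq_integral_Ioc,
      ← intervalIntegral.integral_of_le (by norm_num)]
    have : ∀ y : ℝ, y * (2 - y) = 2 * y - y ^ 2 := fun y => by ring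
    simp only [this]
    rw [intervalIntegral.integral_sub ((by fun_prop : Continuous fun y : ℝ => 2 * y).intervalIntegrable _ _)
      ((by fun_prop : Continuous fun y : ℝ => y ^ 2).intervalIntegrable _ _),
      intervalIntegral.integral_const_mul, integral_id, integral_pow]
    norm_num
  rw [h1, h2, h4]
  simp only [h5]
  rw [h6]
  norm_num

end targets

end Pool.Agent.Helper774.KStab
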