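import Pool.Agent.Helper774.KStab.Data

open scoped ENNReal

noncomputable section

namespace Pool.Agent.Helper774.KStab

/-- the regular function `s` has the value `c` at `y` -/
def ValAt {Y : Variety} (y : ClosedPoint Y) (s : Y.K) (c : ℂ) : Prop :=
  ∃ a b : Y.chart y.k, y.ev b ≠ 0 ∧ s * (b : Y.K) = (a : Y.K) ∧ y.ev a = c * y.ev b

theorem valAt_unique {Y : Variety} {y : ClosedPoint Y} {s : Y.K} {c c' : ℂ} (h : ValAt y s c)
    (h' : ValAt y s c') : c = c' := by
  obtain ⟨a, b, hb, hs, ha⟩ := h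
  obtain ⟨a', b', hb', hs', ha'⟩ := h'
  have h1 : a * b' = a' * b := by
    apply Subtype.ext
    rw [Subalgebra.coe_mul, Subalgebra.coe_mul, ← hs, ← hs']
    ring
  have h2 := congrArg y.ev h1
  rw [map_mul, map_mul, ha, ha'] at h2
  have h3 : (c - c') * (y.ev b * y.ev b') = 0 := by linear_combination h2
  rcases mul_eq_zero.1 h3 with h4 | h4
  · exact sub_eq_zero.1 h4
  · exact absurd h4 (mul_ne_zero hb hb')

theorem valAt_add {Y : Variety} {y : ClosedPoint Y} {s t : Y.K} {c d : ℂ} (h : ValAt y s c)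
    (h' : ValAt y t d) : ValAt y (s + t) (c + d) := by
  obtain ⟨a, b, hb, hs, ha⟩ := h
  obtain ⟨a', b', hb', hs', ha'⟩ := h'
  refine ⟨a * b' + a' * b, b * b', ?_, ?_, ?_⟩
  · rw [map_mul]
    exact mul_ne_zero hb hb'
  · rw [Subalgebra.coe_mul, Subalgebra.coe_add, Subalgebra.coe_mul, Subalgebra.coe_mul, ← hs, ← hs']
    ring
  · rw [map_add, map_mul, map_mul, map_mul, ha, ha']
    ring

theorem valAt_mul {Y : Variety} {y : ClosedPoint Y} {s t : Y.K} {c d : ℂ} (h : ValAt y s c)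
    (h' : ValAt y t d) : ValAt y (s * t) (c * d) := by
  obtain ⟨a, b, hb, hs, ha⟩ := h
  obtain ⟨a', b', hb', hs', ha'⟩ := h'
  refine ⟨a * a', b * b', ?_, ?_, ?_⟩
  · rw [map_mul]
    exact mul_ne_zero hb hb'
  · rw [Subalgebra.coe_mul, Subalgebra.coe_mul, ← hs, ← hs']
    ring
  · rw [map_mul, map_mul, ha, ha']
    ring

theorem valAt_const {Y : Variety} (y : ClosedPoint Y) (z : ℂ) :
    ValAt y (algebraMap ℂ Y.K z) z := by
  refine ⟨algebraMap ℂ _ z, 1, ?_, ?_, ?_⟩
  · rw [map_one]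
    exact one_ne_zero
  · rw [Subalgebra.coe_one, mul_one]
    rfl
  · rw [map_one, AlgHom.commutes]
    simp

theorem valAt_aeval {Y : Variety} {y : ClosedPoint Y} {t : Y.K} {c : ℂ} (h : ValAt y t c)
    (P : Polynomial ℂ) : ValAt y (Polynomial.aeval t P) (P.eval c) := by
  induction P using Polynomial.induction_on with
  | C a =>
    rw [Polynomial.aeval_C, Polynomial.eval_C]
    exact valAt_const y a
  | add p q hp hq =>
    rw [map_add, Polynomial.eval_add]
    exact valAt_add hp hq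
  | monomial n a hn =>
    have e : Polynomial.C a * Polynomial.X ^ (n + 1) =
        (Polynomial.C a * Polynomial.X ^ n) * Polynomial.X := by ring
    rw [e, map_mul, Polynomial.eval_mul, Polynomial.aeval_X, Polynomial.eval_X]
    exact valAt_mul hn h

theorem regular_iff_valAt {Y : Variety} {y : ClosedPoint Y} {s : Y.K} :
    y.Regular s ↔ ∃ c, ValAt y s c := by
  constructor
  · rintro ⟨a, b, hb, hs⟩
    exact ⟨y.ev a / y.ev b, a, b, hb, hs, by field_simp⟩
  · rintro ⟨c, a, b, hb, hs, ha⟩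
    exact ⟨a, b, hb, hs⟩

theorem vanishes_iff_valAt {Y : Variety} {y : ClosedPoint Y} {s : Y.K} :
    y.Vanishes s ↔ ValAt y s 0 := by
  constructor
  · rintro ⟨a, b, hb, ha, hs⟩
    exact ⟨a, b, hb, hs, by rw [ha, zero_mul]⟩
  · rintro ⟨a, b, hb, hs, ha⟩
    exact ⟨a, b, hb, by rw [ha, zero_mul], hs⟩

theorem std_dataP1 {K : Type} [Field K] [Algebra ℂ K] (T : TorusField 1 K) (a : Bool) :
    (T.at dataP1 a).std = Algebra.adjoin ℂ {T.χ ![sg a]} := by
  unfold TorusField.std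
  rw [Set.range_unique]
  congr 2
  show T.χ (Matrix.vecMul (Pi.single default 1) (dataP1.E a)) = _
  congr 1
  rw [Matrix.single_one_vecMul]
  ext i
  fin_cases i
  rfl

/-- Closed points of the projective line other than `0` and `∞`. -/
theorem closedPoint_P1 {K : Type} [Field K] [Algebra ℂ K] (T : TorusField 1 K)
    (y : ClosedPoint (toricVariety T dataP1)) (h1 : y.Regular (T.χ ![1]))
    (h2 : y.Regular (T.χ ![1])⁻¹) :
    ∃ c : ℂ, c ≠ 0 ∧ ∀ a : Bool,
      (∀ s ∈ (T.at dataP1 a).std, y.Regular s) ∧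
      (∀ s ∈ (T.at dataP1 a).std, y.Vanishes s ↔
        ∃ r ∈ (T.at dataP1 a).std, s = r * (T.χ ![sg a] - algebraMap ℂ K (c ^ (sg a)))) := by
  obtain ⟨c, hc⟩ := regular_iff_valAt.1 h1
  obtain ⟨d, hd⟩ := regular_iff_valAt.1 h2
  have hx0 : T.χ ![1] ≠ 0 := T.li.ne_zero _
  have hcd : c * d = 1 := by
    have e1 := valAt_mul hc hd
    rw [mul_inv_cancel₀ hx0] at e1
    have e2 := valAt_const y 1
    rw [map_one] at e2
    exact valAt_unique e1 e2
  have hc0 : c ≠ 0 := left_ne_zero_of_mul_eq_one hcd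
  have hdc : d = c⁻¹ := eq_inv_of_mul_eq_one_right hcd
  have hneg : T.χ ![-1] = (T.χ ![1])⁻¹ := by
    have e1 := T.χ_add ![1] ![-1]
    have e2 : (![1] + ![-1] : Fin 1 → ℤ) = 0 := by decide
    rw [e2, T.χ_zero] at e1
    exact eq_inv_of_mul_eq_one_right e1.symm
  have hval : ∀ a : Bool, ValAt y (T.χ ![sg a]) (c ^ (sg a)) := by
    intro a
    cases a with
    | false =>
      have e : sg false = 1 := rfl
      rw [e, zpow_one]
      exact hc
    | true =>
      have e : sg true = -1 := rfl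
      rw [e, zpow_neg_one, hneg, ← hdc]
      exact hd
  refine ⟨c, hc0, fun a => ?_⟩
  have hpoly : ∀ s ∈ (T.at dataP1 a).std, ∃ P : Polynomial ℂ,
      s = Polynomial.aeval (T.χ ![sg a]) P := by
    intro s hs
    rw [std_dataP1, Algebra.adjoin_singleton_eq_range_aeval] at hs
    obtain ⟨P, hP⟩ := hs
    exact ⟨P, hP.symm⟩
  have hmem : ∀ P : Polynomial ℂ, Polynomial.aeval (T.χ ![sg a]) P ∈ (T.at dataP1 a).std := by
    intro P
    rw [std_dataP1, Algebra.adjoin_singleton_eq_range_aeval]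
    exact ⟨P, rfl⟩
  refine ⟨fun s hs => ?_, fun s hs => ?_⟩
  · obtain ⟨P, rfl⟩ := hpoly s hs
    exact regular_iff_valAt.2 ⟨_, valAt_aeval (hval a) P⟩
  · obtain ⟨P, rfl⟩ := hpoly s hs
    constructor
    · intro hv
      have e1 := vanishes_iff_valAt.1 hv
      have e2 := valAt_unique (valAt_aeval (hval a) P) e1
      have e3 : P.IsRoot (c ^ (sg a)) := e2
      obtain ⟨Q, hQ⟩ := Polynomial.dvd_iff_isRoot.2 e3
      refine ⟨Polynomial.aeval (T.χ ![sg a]) Q, hmem Q, ?_⟩
      conv_lhs => rw [hQ]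
      rw [map_mul, map_sub, Polynomial.aeval_X, Polynomial.aeval_C, mul_comm]
    · rintro ⟨r, hr, hs⟩
      obtain ⟨Q, rfl⟩ := hpoly r hr
      rw [hs]
      apply vanishes_iff_valAt.2
      have e1 := valAt_add (hval a) (valAt_const y (-(c ^ (sg a))))
      have e2 := valAt_mul (valAt_aeval (hval a) Q) e1
      rw [add_neg_cancel, mul_zero, map_neg, ← sub_eq_add_neg] at e2
      exact e2

end Pool.Agent.Helper774.KStab
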