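import Pool.Agent.Helper774.KStab.ClosedPt

open scoped ENNReal

noncomputable section

namespace Pool.Agent.Helper774.KStab

theorem core_zero {K : Type} [Field K] [Algebra ℂ K] (A : Subalgebra ℂ K) (z : K)
    (hA : A = Algebra.adjoin ℂ {z}) (hzA : z ∈ A) (ev : A →ₐ[ℂ] ℂ) (he : ev ⟨z, hzA⟩ = 0)
    (s : A) (hs : ev s = 0) : ∃ r : A, (s : K) = (r : K) * z := by
  obtain ⟨s, hsA⟩ := s
  have h1 : s ∈ Algebra.adjoin ℂ {z} := hA ▸ hsA
  rw [Algebra.adjoin_singleton_eq_range_aeval] at h1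
  obtain ⟨P, hP⟩ := h1
  have hP' : Polynomial.aeval z P = s := hP
  have hP2 : Polynomial.aeval (⟨z, hzA⟩ : A) P = ⟨s, hsA⟩ := by
    apply Subtype.ext
    have := Polynomial.aeval_subalgebra_coe P A (⟨z, hzA⟩ : A)
    exact this.trans hP'
  have h2 : ev ⟨s, hsA⟩ = P.coeff 0 := by
    rw [← hP2, ← Polynomial.aeval_algHom_apply, he, Polynomial.coeff_zero_eq_aeval_zero]
  have h3 : P.coeff 0 = 0 := by rw [← h2]; exact hs
  refine ⟨Polynomial.aeval (⟨z, hzA⟩ : A) P.divX, ?_⟩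
  rw [Polynomial.aeval_subalgebra_coe]
  show s = Polynomial.aeval z P.divX * z
  rw [← hP']
  conv_lhs => rw [← Polynomial.divX_mul_X_add P, h3]
  simp

theorem std_eq {K : Type} [Field K] [Algebra ℂ K] (T : TorusField 1 K) (b : Bool) :
    (T.at dataP1 b).std = Algebra.adjoin ℂ {T.χ ![sg b]} := by
  unfold TorusField.std
  congr 1
  ext w
  simp only [Set.mem_range, Set.mem_singleton_iff]
  have key : ∀ i : Fin 1, (T.at dataP1 b).χ (Pi.single i 1) = T.χ ![sg b] := by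
    intro i
    show T.χ (Matrix.vecMul (Pi.single i 1) (dataP1.E b)) = _
    congr 1
    funext j
    fin_cases i
    fin_cases j
    show Matrix.vecMul (Pi.single 0 1) (!![sg b]) 0 = _
    simp
  constructor
  · rintro ⟨i, hi⟩
    rw [← hi]; exact key i
  · intro hw
    exact ⟨0, by rw [hw]; exact key 0⟩

theorem chi_neg_mul {K : Type} [Field K] [Algebra ℂ K] (T : TorusField 1 K) (a : ℤ) :
    T.χ ![-a] * T.χ ![a] = 1 := by
  rw [← T.χ_add, ← T.χ_zero]
  congr 1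
  funext j
  fin_cases j
  simp

/-- The closed points `0` and `∞` of the projective line: if `x` and `x⁻¹` are not both regular at
`y`, then `y` lies in exactly one chart `a`, as the zero of the coordinate `x^(sg a)`. -/
theorem closedPoint_P1_zero {K : Type} [Field K] [Algebra ℂ K] (T : TorusField 1 K)
    (y : ClosedPoint (toricVariety T dataP1))
    (h : ¬ (y.Regular (T.χ ![1]) ∧ y.Regular (T.χ ![1])⁻¹)) :
    ∃ a : Bool, (∀ b : Bool, (∀ s ∈ (T.at dataP1 b).std, y.Regular s) ↔ b = a) ∧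
      (∀ s ∈ (T.at dataP1 a).std, y.Vanishes s ↔
        ∃ r ∈ (T.at dataP1 a).std, s = r * T.χ ![sg a]) := by
  obtain ⟨k, ev⟩ := y
  have hk : ∃ k' : Bool, k' = k := ⟨k, rfl⟩
  obtain ⟨k', hk'⟩ := hk
  subst hk'
  set A : Subalgebra ℂ K := (T.at dataP1 k').std with hAdef
  set z : K := T.χ ![sg k'] with hz
  have hA : A = Algebra.adjoin ℂ {z} := std_eq T k'
  have hzA : z ∈ A := by rw [hA]; exact Algebra.subset_adjoin rfl
  have hinv : T.χ ![-sg k'] * z = 1 := chi_neg_mul T (sg k')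
  have hz0 : z ≠ 0 := fun h0 => by rw [h0, mul_zero] at hinv; exact zero_ne_one hinv
  have hzinv : T.χ ![-sg k'] = z⁻¹ := eq_inv_of_mul_eq_one_left hinv
  let ev' : A →ₐ[ℂ] ℂ := ev
  have hreg : ∀ s : K, (∃ a b : A, ev' b ≠ 0 ∧ s * (b : K) = (a : K)) ↔
      (ClosedPoint.mk k' ev : ClosedPoint (toricVariety T dataP1)).Regular s := fun s => Iff.rfl
  have hvan : ∀ s : K, (∃ a b : A, ev' b ≠ 0 ∧ ev' a = 0 ∧ s * (b : K) = (a : K)) ↔
      (ClosedPoint.mk k' ev : ClosedPoint (toricVariety T dataP1)).Vanishes s := fun s => Iff.rfl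
  have he : ev' ⟨z, hzA⟩ = 0 := by
    by_contra hne
    have r1 : (ClosedPoint.mk k' ev : ClosedPoint (toricVariety T dataP1)).Regular z :=
      (hreg z).1 ⟨⟨z, hzA⟩, 1, by rw [map_one]; exact one_ne_zero, by simp⟩
    have r2 : (ClosedPoint.mk k' ev : ClosedPoint (toricVariety T dataP1)).Regular z⁻¹ :=
      (hreg z⁻¹).1 ⟨1, ⟨z, hzA⟩, hne, by simp [inv_mul_cancel₀ hz0]⟩
    apply h
    cases k' with
    | false =>
      have e1 : z = T.χ ![1] := rfl
      rw [← e1]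
      exact ⟨r1, r2⟩
    | true =>
      have e1 : T.χ ![-(-1 : ℤ)] = z⁻¹ := hzinv
      rw [neg_neg] at e1
      rw [e1, inv_inv]
      exact ⟨r2, r1⟩
  refine ⟨k', fun b => ⟨fun hb => ?_, fun hb => ?_⟩, fun s hs => ⟨fun hv => ?_, fun hr => ?_⟩⟩
  · by_contra hne
    have hsg : sg b = -sg k' := by
      revert hne
      cases b <;> cases k' <;> simp [sg]
    have hw : T.χ ![sg b] ∈ (T.at dataP1 b).std := by
      rw [std_eq]; exact Algebra.subset_adjoin rfl
    obtain ⟨a', b', hb', hab⟩ := (hreg _).2 (hb _ hw)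
    rw [hsg, hzinv] at hab
    have h1 : b' = ⟨z, hzA⟩ * a' := by
      apply Subtype.ext
      show (b' : K) = z * (a' : K)
      rw [← hab, mul_inv_cancel_left₀ hz0]
    apply hb'
    rw [h1, map_mul, he, zero_mul]
  · subst hb
    intro s hs
    exact (hreg s).1 ⟨⟨s, hs⟩, 1, by rw [map_one]; exact one_ne_zero, by simp⟩
  · obtain ⟨a', b', hb', ha', hab⟩ := (hvan s).2 hv
    have h1 : (⟨s, hs⟩ : A) * b' = a' := Subtype.ext hab
    have h2 : ev' ⟨s, hs⟩ = 0 := by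
      have h3 := congrArg ev' h1
      rw [map_mul, ha'] at h3
      exact (mul_eq_zero.1 h3).resolve_right hb'
    obtain ⟨r, hr⟩ := core_zero A z hA hzA ev' he ⟨s, hs⟩ h2
    exact ⟨r, r.2, hr⟩
  · obtain ⟨r, hr, hsr⟩ := hr
    refine (hvan s).1 ⟨⟨s, hs⟩, 1, by rw [map_one]; exact one_ne_zero, ?_, by simp⟩
    have h1 : (⟨s, hs⟩ : A) = ⟨r, hr⟩ * ⟨z, hzA⟩ := Subtype.ext hsr
    rw [h1, map_mul, he, mul_zero]

end Pool.Agent.Helper774.KStab
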