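import Pool.Agent.Helper774.KStab.Toric

noncomputable section

namespace Pool.Agent.Helper774.KStab

/-- sign of a chart: `-1` for the chart at infinity -/
def sg (b : Bool) : ℤ := if b then -1 else 1

/-- indicator -/
def ind (b : Bool) : ℤ := if b then 1 else 0

/-- The projective line. -/
def dataP1 : ToricData 1 where
  ι := Bool
  E b := !![sg b]
  R b := !![sg b]
  inv := by decide
  vert := by decide
  nbr := by decide
  complete := by
    intro S hadd htot
    rcases htot ![1] with h | h
    · refine ⟨false, fun i => ?_⟩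
      fin_cases i
      exact h
    · refine ⟨true, fun i => ?_⟩
      fin_cases i
      have : (!![sg true] : Matrix (Fin 1) (Fin 1) ℤ) 0 = -![1] := by decide
      simpa [this] using h

/-- The del Pezzo surface `F_1`, the blow-up of the projective plane in a point. -/
def dataF1 : ToricData 2 where
  ι := Bool × Bool
  E s := !![sg s.1, 0; -(sg s.2 * ind s.1), sg s.2]
  R s := !![sg s.1, 0; ind s.1 * sg s.1, sg s.2]
  inv := by decide
  vert := by decide
  nbr := by decide
  complete := by
    intro S hadd htot
    have h1 : ∃ b : Bool, ![sg b, 0] ∈ S := by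
      rcases htot ![1, 0] with h | h
      · exact ⟨false, h⟩
      · exact ⟨true, by simpa [sg] using h⟩
    obtain ⟨b, hb⟩ := h1
    have h2 : ∃ c : Bool, ![-(sg c * ind b), sg c] ∈ S := by
      rcases htot ![-ind b, 1] with h | h
      · exact ⟨false, by simpa [sg] using h⟩
      · exact ⟨true, by simpa [sg] using h⟩
    obtain ⟨c, hc⟩ := h2
    refine ⟨(b, c), fun i => ?_⟩
    fin_cases i
    · exact hb
    · exact hc

/-- The Fano threefold `P(O(1,0) + O(0,1))` over `P^1 × P^1` (family 3.25: the blow-up of `P^3` in two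
disjoint lines). -/
def dataX : ToricData 3 where
  ι := Bool × Bool × Bool
  E s := !![sg s.1, 0, 0; 0, sg s.2.1, 0;
    sg s.2.2 * ind s.1, -(sg s.2.2 * ind s.2.1), sg s.2.2]
  R s := !![sg s.1, 0, 0; 0, sg s.2.1, 0;
    -(ind s.1 * sg s.1), ind s.2.1 * sg s.2.1, sg s.2.2]
  inv := by decide
  vert := by decide
  nbr := by decide
  complete := by
    intro S hadd htot
    have h1 : ∃ b : Bool, ![sg b, 0, 0] ∈ S := by
      rcases htot ![1, 0, 0] with h | h
      · exact ⟨false, h⟩
      · exact ⟨true, by simpa [sg] using h⟩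
    obtain ⟨a, ha⟩ := h1
    have h1 : ∃ b : Bool, ![0, sg b, 0] ∈ S := by
      rcases htot ![0, 1, 0] with h | h
      · exact ⟨false, h⟩
      · exact ⟨true, by simpa [sg] using h⟩
    obtain ⟨b, hb⟩ := h1
    have h2 : ∃ c : Bool, ![sg c * ind a, -(sg c * ind b), sg c] ∈ S := by
      rcases htot ![ind a, -ind b, 1] with h | h
      · exact ⟨false, by simpa [sg] using h⟩
      · exact ⟨true, by simpa [sg] using h⟩
    obtain ⟨c, hc⟩ := h2
    refine ⟨(a, b, c), fun i => ?_⟩
    fin_cases i
    · exact ha
    · exact hb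
    · exact hc

end Pool.Agent.Helper774.KStab
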