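import Mathlib

/-!
Complex varieties in the language of function fields (Zariski, Chevalley, Weil), the Fano condition,
divisorial valuations, log discrepancy, the expected vanishing order `S`, K-semistability through the
valuative criterion of Fujita and Li, smooth morphisms and their fibres.
-/

open scoped ENNReal

noncomputable section

namespace Pool.Agent.Helper774.KStab

/-- The local ring of the affine variety `Spec R` (with `R` a subalgebra of the function field `K`)
at the prime ideal `p`, as a subset of `K`: all fractions `a / s` with `a, s ∈ R`, `s ∉ p`. -/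
def locRing {K : Type} [Field K] [Algebra ℂ K] (R : Subalgebra ℂ K) (p : Ideal R) : Set K :=
  {z | ∃ a s : R, s ∉ p ∧ z * (s : K) = (a : K)}

/-- The local ring of `Spec R` at the centre of the valuation ring `V` (meant for `R ≤ V`):
all fractions `a / s` with `a, s ∈ R` and `s` a unit of `V`. -/
def locAtCentre {K : Type} [Field K] [Algebra ℂ K] (R : Subalgebra ℂ K)
    (V : ValuationSubring K) : Set K :=
  {z | ∃ a ∈ R, ∃ s ∈ R, s ≠ 0 ∧ s⁻¹ ∈ V ∧ z * s = a}

/-- A smooth complete (= proper) complex variety `X` of dimension `dim`, given by its function field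
`K` and by finitely many affine charts `Spec (chart i)`, where `chart i` is a finitely generated
(part of `Algebra.Smooth`) subalgebra of `K` with fraction field `K`.
`separated`: if a valuation ring of `K` has a centre on two charts, the two local rings at the centres
are the same subring of `K` (so the charts glue to a separated variety, whose points are the
local rings of the charts).
`complete`: the valuative criterion of properness: every valuation ring of `K / ℂ` has a centre
on some chart.
`der` is a basis of the `K`-vector space of `ℂ`-derivations of `K` (its cardinality is the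
transcendence degree of `K` over `ℂ`, i.e. the dimension); it trivialises the
one-dimensional space of rational top differential forms by
`dg_1 ∧ ... ∧ dg_dim ↦ det (der i (g_j))`. -/
structure Variety where
  /-- dimension -/
  dim : ℕ
  /-- function field -/
  K : Type
  [fld : Field K]
  [alg : Algebra ℂ K]
  /-- index set of the charts -/
  ι : Type
  [fin : Finite ι]
  /-- coordinate rings of the affine charts -/
  chart : ι → Subalgebra ℂ K
  frac : ∀ i, IsFractionRing (chart i) K
  smooth : ∀ i, Algebra.Smooth ℂ (chart i)
  separated : ∀ (i j : ι) (V : ValuationSubring K), (∀ f ∈ chart i, f ∈ V) →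
    (∀ f ∈ chart j, f ∈ V) → locAtCentre (chart i) V = locAtCentre (chart j) V
  complete : ∀ V : ValuationSubring K, (∀ c : ℂ, algebraMap ℂ K c ∈ V) →
    ∃ i, ∀ f ∈ chart i, f ∈ V
  /-- a basis of the derivations of the function field -/
  der : Module.Basis (Fin dim) K (Derivation ℂ K K)

attribute [instance] Variety.fld Variety.alg Variety.fin

namespace Variety

variable (X : Variety)

/-- The points of the variety `X`, each represented by its local ring in the function field. -/
def points : Set (Set X.K) :=
  {A | ∃ (i : X.ι) (p : Ideal (X.chart i)), p.IsPrime ∧ A = locRing (X.chart i) p}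

/-- The rational function `det (der i (g j))` which represents the rational top form
`dg_1 ∧ ... ∧ dg_dim`. -/
def jac (g : Fin X.dim → X.K) : X.K :=
  Matrix.det (Matrix.of fun i j => X.der i (g j))

/-- The top forms `dg_1 ∧ ... ∧ dg_dim` with all `g_j` in `A`. If `A` is the coordinate ring of a
chart (or a local ring of `X`), they generate the canonical module `ω_A`. -/
def forms (A : Set X.K) : Set X.K :=
  {a | ∃ g : Fin X.dim → X.K, (∀ j, g j ∈ A) ∧ a = X.jac g}

/-- `H⁰(X, -m K_X)`: the rational functions `s` such that the rational `m`-fold polyvector field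
`s · ω₀^(-m)` (where `ω₀` is the rational form dual to `der`) is regular on every chart, i.e. maps
`ω^m` into the coordinate ring of the chart. -/
def antican (m : ℕ) : Submodule ℂ X.K where
  carrier := {s | ∀ (i : X.ι) (a : Fin m → X.K), (∀ k, a k ∈ X.forms (X.chart i : Set X.K)) →
    s * ∏ k, a k ∈ X.chart i}
  add_mem' := by
    intro s t hs ht i a ha
    rw [add_mul]
    exact (X.chart i).add_mem (hs i a ha) (ht i a ha)
  zero_mem' := by
    intro i a _
    rw [zero_mul]
    exact (X.chart i).zero_mem
  smul_mem' := by
    intro c s hs i a ha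
    rw [smul_mul_assoc]
    exact (X.chart i).smul_mem (hs i a ha) c

/-- The section `s` of `-m K_X` does not vanish at the point with local ring `A`. -/
def NonvanishingAt (m : ℕ) (s : X.K) (A : Set X.K) : Prop :=
  ∃ a : Fin m → X.K, (∀ k, a k ∈ X.forms A) ∧ ∃ b ∈ A, s * (∏ k, a k) * b = 1

/-- `-K_X` is ample: every point `A` of `X` lies in the non-vanishing locus `X_s` of a section `s` of
`-m K_X` for some `m ≥ 1`, such that `X_s` is an affine variety `Spec R`
(Stacks project, Definition 01PS). A smooth complete variety with this property is a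
Fano variety (it is projective because it carries an ample line bundle). -/
def IsFano : Prop :=
  ∀ A ∈ X.points, ∃ m : ℕ, 1 ≤ m ∧ ∃ s ∈ X.antican m, X.NonvanishingAt m s A ∧
    ∃ R : Subalgebra ℂ X.K, R.FG ∧
      {A' | A' ∈ X.points ∧ X.NonvanishingAt m s A'} =
        {A' | ∃ p : Ideal R, p.IsPrime ∧ A' = locRing R p}

/-- Divisorial valuations of the function field, i.e. the valuations `ord_E` of the prime
divisors `E` over `X`: discrete, normalised, trivial on `ℂ`, with residue field of transcendence
degree `dim - 1` over `ℂ`. -/
structure DivVal where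
  /-- the valuation -/
  v : AddValuation X.K (WithTop ℤ)
  triv : ∀ c : ℂ, c ≠ 0 → v (algebraMap ℂ X.K c) = 0
  normalised : ∃ z, v z = 1
  residue : ∃ t : Fin (X.dim - 1) → X.K, ∀ P : MvPolynomial (Fin (X.dim - 1)) ℂ, P ≠ 0 →
    v (MvPolynomial.aeval t P) = 0

variable {X}

/-- The valuation ring of a divisorial valuation, as a subset of the function field. -/
def DivVal.ring (E : X.DivVal) : Set X.K := {f | 0 ≤ E.v f}

/-- The order along `E` of the generator of the canonical sheaf of `X` at the centre of `E`
(computed with the rational form `ω₀` dual to `der`): the least value of `E` on the top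
forms of a chart which contains the centre of `E`. -/
def DivVal.canOrd (E : X.DivVal) : ℤ :=
  sInf {k : ℤ | ∃ i, (∀ f ∈ X.chart i, f ∈ E.ring) ∧
    ∃ a ∈ X.forms (X.chart i : Set X.K), E.v a = k}

/-- The log discrepancy `A_X(E) = 1 + ord_E (K_{Y/X})`: here `ord_E` of the relative canonical divisor
is the order `canOrd` of the generator of `ω_X` minus the least value `k` of `E` on the top forms
`dg_1 ∧ ... ∧ dg_dim` with all `g_j` in the valuation ring of `E`. -/
def DivVal.logDisc (E : X.DivVal) : ℝ≥0∞ :=
  ⨆ k ∈ {k : ℤ | ∃ a ∈ X.forms E.ring, E.v a = k}, ENNReal.ofReal (1 + E.canOrd - k)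

/-- `H⁰(X, m (-K_X - t E))`: the sections `s` of `-m K_X` with `ord_E(s) ≥ m t`. The order of
vanishing of the section `s · ω₀^(-m)` along `E` is `v(s) + m * canOrd`. -/
def DivVal.filt (E : X.DivVal) (m : ℕ) (t : ℝ) : Submodule ℂ X.K where
  carrier := {s | s ∈ X.antican m ∧ ∀ k : ℤ, E.v s = k → (m : ℝ) * t ≤ k + m * E.canOrd}
  add_mem' := by
    rintro s s' ⟨hs, hs2⟩ ⟨ht, ht2⟩
    refine ⟨(X.antican m).add_mem hs ht, fun k hk => ?_⟩
    have h := E.v.map_add s s'
    rw [hk] at h
    rcases min_le_iff.1 h with h1 | h1
    · obtain ⟨l, hl⟩ := WithTop.ne_top_iff_exists.1 (ne_top_of_le_ne_top (WithTop.coe_ne_top) h1)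
      rw [← hl] at h1
      have h2 := hs2 l hl.symm
      have h3 : (l : ℝ) ≤ k := by exact_mod_cast h1
      linarith
    · obtain ⟨l, hl⟩ := WithTop.ne_top_iff_exists.1 (ne_top_of_le_ne_top (WithTop.coe_ne_top) h1)
      rw [← hl] at h1
      have h2 := ht2 l hl.symm
      have h3 : (l : ℝ) ≤ k := by exact_mod_cast h1
      linarith
  zero_mem' := by
    refine ⟨(X.antican m).zero_mem, fun k hk => ?_⟩
    rw [AddValuation.map_zero] at hk
    exact absurd hk.symm (WithTop.coe_ne_top)
  smul_mem' := by
    rintro c s ⟨hs, hs2⟩
    refine ⟨(X.antican m).smul_mem c hs, fun k hk => ?_⟩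
    by_cases hc : c = 0
    · subst hc
      rw [zero_smul, AddValuation.map_zero] at hk
      exact absurd hk.symm (WithTop.coe_ne_top)
    · rw [Algebra.smul_def, AddValuation.map_mul, E.triv c hc, zero_add] at hk
      exact hs2 k hk

/-- The volume of `-K_X - t E`: the limit of `dim! * h⁰(X, m (-K_X - t E)) / m^dim`. -/
def DivVal.vol (E : X.DivVal) (t : ℝ) : ℝ≥0∞ :=
  Filter.limsup (fun m : ℕ =>
    ((Nat.factorial X.dim * Module.finrank ℂ (E.filt m t) : ℕ) : ℝ≥0∞) / (m : ℝ≥0∞) ^ X.dim)
    Filter.atTop

variable (X) in
/-- The volume of `-K_X`: the limit of `dim! * h⁰(X, -m K_X) / m^dim`. -/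
def vol : ℝ≥0∞ :=
  Filter.limsup (fun m : ℕ =>
    ((Nat.factorial X.dim * Module.finrank ℂ (X.antican m) : ℕ) : ℝ≥0∞) / (m : ℝ≥0∞) ^ X.dim)
    Filter.atTop

/-- `S_X(E) = (1 / vol(-K_X)) ∫_0^∞ vol(-K_X - t E) dt`. -/
def DivVal.S (E : X.DivVal) : ℝ≥0∞ :=
  (∫⁻ t in Set.Ioi (0 : ℝ), E.vol t) / X.vol

variable (X) in
/-- K-semistability, by the valuative criterion of Fujita and Li: `A_X(E) - S_X(E) ≥ 0` for every
prime divisor `E` over `X`. -/
def KSemistable : Prop := ∀ E : X.DivVal, E.S ≤ E.logDisc

end Variety

/-- A dominant morphism `X → Y`, given by the inclusion `φ` of function fields, which maps the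
chart `i` of `X` into the chart `j i` of `Y`. -/
structure Morph (X Y : Variety) where
  /-- pull-back of rational functions -/
  φ : Y.K →ₐ[ℂ] X.K
  /-- chart `i` of `X` is mapped into chart `j i` of `Y` -/
  j : X.ι → Y.ι
  maps : ∀ i, ∀ s ∈ Y.chart (j i), φ s ∈ X.chart i

namespace Morph

variable {X Y : Variety} (f : Morph X Y)

/-- The homomorphism of coordinate rings given by the morphism on a chart. -/
def chartMap (i : X.ι) : Y.chart (f.j i) →ₐ[ℂ] X.chart i :=
  (f.φ.comp (Y.chart (f.j i)).val).codRestrict (X.chart i) fun s => f.maps i s s.2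

/-- The morphism is smooth: the coordinate ring of every chart of `X` is a smooth algebra over the
coordinate ring of the corresponding chart of `Y`. -/
def IsSmooth : Prop := ∀ i, (f.chartMap i).toRingHom.Smooth

end Morph

/-- A closed point of `Y`: a closed point of one of its charts, i.e. (Nullstellensatz) a
`ℂ`-algebra homomorphism `ev` from the coordinate ring of the chart to `ℂ` (evaluation at `y`). -/
structure ClosedPoint (Y : Variety) where
  /-- a chart which contains the point -/
  k : Y.ι
  /-- evaluation of functions at the point -/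
  ev : Y.chart k →ₐ[ℂ] ℂ

namespace ClosedPoint

variable {Y : Variety} (y : ClosedPoint Y)

/-- The rational function `s` is regular at `y`, i.e. lies in the local ring of `Y` at `y`. -/
def Regular (s : Y.K) : Prop := ∃ a b : Y.chart y.k, y.ev b ≠ 0 ∧ s * (b : Y.K) = (a : Y.K)

/-- The rational function `s` is regular at `y` and vanishes there, i.e. lies in the maximal ideal
of the local ring of `Y` at `y`. -/
def Vanishes (s : Y.K) : Prop :=
  ∃ a b : Y.chart y.k, y.ev b ≠ 0 ∧ y.ev a = 0 ∧ s * (b : Y.K) = (a : Y.K)

end ClosedPoint

/-- The kernel of the homomorphism `res` (defined on a subalgebra `B` of the field `K`) on the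
subring `R` of `B` is the ideal `I` of `R`. -/
def KernelOn {K K' : Type} [Field K] [Algebra ℂ K] [Field K'] [Algebra ℂ K']
    {B : Subalgebra ℂ K} (res : B →ₐ[ℂ] K') (R : Subalgebra ℂ K) (I : Ideal R) : Prop :=
  ∀ (a : B) (h : (a : K) ∈ R), res a = 0 ↔ ⟨a, h⟩ ∈ I

/-- The homomorphism `res` (defined on a subalgebra `B` of the field `K`) is defined on `R`, its kernel
on `R` is the ideal `I`, and its image on `R` is `R'`. So `res` identifies `R / I` with `R'`. -/
def RestrictsOnto {K K' : Type} [Field K] [Algebra ℂ K] [Field K'] [Algebra ℂ K']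
    {B : Subalgebra ℂ K} (res : B →ₐ[ℂ] K') (R : Subalgebra ℂ K) (I : Ideal R)
    (R' : Subalgebra ℂ K') : Prop :=
  R ≤ B ∧ KernelOn res R I ∧ ∀ b : K', b ∈ R' ↔ ∃ a : B, (a : K) ∈ R ∧ res a = b

/-- The chart `i` of `X` is mapped into a chart of `Y` which contains the closed point `y`
(i.e. all functions of that chart of `Y` are regular at `y`). -/
def Morph.Over {X Y : Variety} (f : Morph X Y) (y : ClosedPoint Y) (i : X.ι) : Prop :=
  ∀ s ∈ Y.chart (f.j i), y.Regular s

/-- The ideal `m_y R_i` of the chart `R_i = X.chart i`, generated by the pull-backs of the functions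
(of the chart `j i` of `Y`) which vanish at `y`. -/
def Morph.fibreIdeal {X Y : Variety} (f : Morph X Y) (y : ClosedPoint Y) (i : X.ι) :
    Ideal (X.chart i) :=
  Ideal.span {b | ∃ s : Y.chart (f.j i), y.Vanishes s ∧ b = f.chartMap i s}

/-- `F` is the (scheme-theoretic) fibre of `f : X → Y` over the closed point `y`. The fibre is covered
by the affine schemes `Spec (R_i / m_y R_i)`, where `R_i` runs over the charts of `X` mapped
into a chart of `Y` that contains `y`. The condition is that there is a homomorphism `res`
(restriction of functions to the fibre) from a subalgebra of the function field of `X`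
containing all these `R_i` to the function field of `F`, whose kernel on `R_i` is the
ideal `m_y R_i`, and such that the images of the `R_i` are exactly the charts of `F`. So `res`
identifies the affine pieces of the fibre with the charts of `F`, compatibly with the glueing
(on both sides the intersection of two charts is the spectrum of the ring generated by the
two coordinate rings, and `res` is one homomorphism defined on all of them). -/
def Morph.IsFibre {X Y : Variety} (f : Morph X Y) (y : ClosedPoint Y) (F : Variety) : Prop :=
  ∃ (B : Subalgebra ℂ X.K) (res : B →ₐ[ℂ] F.K),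
    (∀ i, f.Over y i → ∃ k, RestrictsOnto res (X.chart i) (f.fibreIdeal y i) (F.chart k)) ∧
    (∀ k, ∃ i, f.Over y i ∧ RestrictsOnto res (X.chart i) (f.fibreIdeal y i) (F.chart k))

end Pool.Agent.Helper774.KStab
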