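import Pool.Agent.Helper774.KStab.Antican

open scoped ENNReal

noncomputable section

namespace Pool.Agent.Helper774.KStab

section targets

variable {n : ℕ} {K : Type} [Field K] [Algebra ℂ K]

theorem j8910_isUnit (V : ValuationSubring K) (x : V) :
    IsUnit x ↔ (x : K) ≠ 0 ∧ (x : K)⁻¹ ∈ V := by
  constructor
  · intro h
    obtain ⟨y, hy⟩ := h.exists_right_inv
    have h1 : (x : K) * (y : K) = 1 := congrArg Subtype.val hy
    have h2 : (x : K) ≠ 0 := left_ne_zero_of_mul_eq_one h1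
    refine ⟨h2, ?_⟩
    rw [inv_eq_of_mul_eq_one_right h1]
    exact y.2
  · rintro ⟨h0, h1⟩
    exact IsUnit.of_mul_eq_one ⟨(x : K)⁻¹, h1⟩ (Subtype.ext (mul_inv_cancel₀ h0))

theorem j8910_dom (A : Subring K) (P : Ideal A) (hP : P.IsPrime) :
    ∃ V : ValuationSubring K, (∀ f ∈ A, f ∈ V) ∧
      ∀ s : A, s ∉ P ↔ (s : K) ≠ 0 ∧ (s : K)⁻¹ ∈ V := by
  obtain ⟨V, hV⟩ := (LocalSubring.ofPrime A P).exists_le_valuationSubring
  obtain ⟨h, hloc⟩ := hV
  refine ⟨V, fun f hf => h (LocalSubring.le_ofPrime A P hf), fun s => ?_⟩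
  have h1 : IsUnit (algebraMap A (LocalSubring.ofPrime A P).toSubring s) ↔ s ∈ P.primeCompl :=
    IsLocalization.AtPrime.isUnit_to_map_iff _ P s
  have h2 : IsUnit (Subring.inclusion h (algebraMap A (LocalSubring.ofPrime A P).toSubring s)) ↔
      IsUnit (algebraMap A (LocalSubring.ofPrime A P).toSubring s) :=
    ⟨fun h => hloc.map_nonunit _ h, fun h' => h'.map _⟩
  have h3 := j8910_isUnit V (Subring.inclusion h (algebraMap A (LocalSubring.ofPrime A P).toSubring s))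
  exact (h1.symm.trans h2.symm).trans h3

theorem j8910_loc (R : Subalgebra ℂ K) (p : Ideal R) (V : ValuationSubring K)
    (h : ∀ s : R, s ∉ p ↔ (s : K) ≠ 0 ∧ (s : K)⁻¹ ∈ V) : locRing R p = locAtCentre R V := by
  ext z
  constructor
  · rintro ⟨a, s, hs, he⟩
    obtain ⟨h1, h2⟩ := (h s).1 hs
    exact ⟨a, a.2, s, s.2, h1, h2, he⟩
  · rintro ⟨a, ha, s, hs, h1, h2, he⟩
    exact ⟨⟨a, ha⟩, ⟨s, hs⟩, (h ⟨s, hs⟩).2 ⟨h1, h2⟩, he⟩

theorem j8910_centre (R : Subalgebra ℂ K) (V : ValuationSubring K) (hR : ∀ f ∈ R, f ∈ V) :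
    ∃ p : Ideal R, p.IsPrime ∧ ∀ s : R, s ∉ p ↔ (s : K) ≠ 0 ∧ (s : K)⁻¹ ∈ V := by
  let φ : R →+* V :=
    { toFun := fun f => ⟨(f : K), hR f f.2⟩
      map_one' := rfl
      map_mul' := fun _ _ => rfl
      map_zero' := rfl
      map_add' := fun _ _ => rfl }
  refine ⟨(IsLocalRing.maximalIdeal V).comap φ, inferInstance, fun s => ?_⟩
  rw [Ideal.mem_comap, IsLocalRing.mem_maximalIdeal, mem_nonunits_iff, not_not]
  exact j8910_isUnit V (φ s)

theorem j8910_locAtCentre_sub (R : Subalgebra ℂ K) (V : ValuationSubring K)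
    (hR : ∀ f ∈ R, f ∈ V) (z : K) (hz : z ∈ locAtCentre R V) : z ∈ V := by
  obtain ⟨a, ha, s, hs, h1, h2, he⟩ := hz
  have : z = a * s⁻¹ := by
    rw [← he, mul_assoc, mul_inv_cancel₀ h1, mul_one]
  rw [this]
  exact V.mul_mem _ _ (hR a ha) h2

theorem j8910_mem_std (T : TorusField n K) (D : ToricData n) (σ : D.ι) (u : Fin n → ℤ)
    (h : ∀ j, 0 ≤ Matrix.vecMul u (D.R σ) j) : T.χ u ∈ (T.at D σ).std := by
  rw [TorusField.mem_std]
  refine Submodule.subset_span ⟨Matrix.vecMul u (D.R σ), h, ?_⟩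
  show T.χ (Matrix.vecMul (Matrix.vecMul u (D.R σ)) (D.E σ)) = T.χ u
  rw [Matrix.vecMul_vecMul, mul_eq_one_comm.1 (D.inv σ), Matrix.vecMul_one]

theorem j8910_vv (D : ToricData n) (σ : D.ι) (j : Fin n) :
    Matrix.vecMul (-∑ k, D.E σ k) (D.R σ) j = -1 := by
  have h1 : ∀ i, (-∑ k, D.E σ k : Fin n → ℤ) i = -∑ k, D.E σ k i := by
    intro i
    rw [Pi.neg_apply]
    congr 1
    exact Finset.sum_apply i _ _
  show (∑ i, (-∑ k, D.E σ k : Fin n → ℤ) i * D.R σ i j) = -1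
  simp only [h1, neg_mul, Finset.sum_neg_distrib, Finset.sum_mul]
  rw [Finset.sum_comm]
  have h2 : ∀ k, ∑ i, D.E σ k i * D.R σ i j = (1 : Matrix (Fin n) (Fin n) ℤ) k j := by
    intro k
    rw [← D.inv σ]
    rfl
  simp only [h2, Matrix.one_apply]
  simp

theorem j8910_L1 (T : TorusField n K) (D : ToricData n) (σ τ : D.ι) :
    T.χ ((-∑ k, D.E σ k) - (-∑ k, D.E τ k)) ∈ (T.at D τ).std := by
  refine j8910_mem_std T D τ _ fun j => ?_
  rw [Matrix.sub_vecMul, Pi.sub_apply, j8910_vv]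
  have := D.vert σ τ j
  linarith

theorem j8910_L2 (T : TorusField n K) (D : ToricData n) (σ τ : D.ι) (i : Fin n) :
    T.χ (D.E σ i + (-∑ k, D.E σ k) - (-∑ k, D.E τ k)) ∈ (T.at D τ).std := by
  refine j8910_mem_std T D τ _ fun j => ?_
  rw [Matrix.sub_vecMul, Pi.sub_apply, j8910_vv]
  have := D.nbr σ τ i j
  rw [sub_eq_add_neg] at this
  linarith

theorem j8910_ne (T : TorusField n K) (u : Fin n → ℤ) : T.χ u ≠ 0 := by
  intro h
  have h1 := T.χ_add u (-u)
  rw [add_neg_cancel, T.χ_zero, h, zero_mul] at h1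
  exact one_ne_zero h1

theorem j8910_std_sub (T : TorusField n K) (D : ToricData n) (σ : D.ι) (V : ValuationSubring K)
    (hC : ∀ c : ℂ, algebraMap ℂ K c ∈ V) (h : ∀ i, T.χ (D.E σ i) ∈ V) :
    ∀ f ∈ (T.at D σ).std, f ∈ V := by
  let S : Subalgebra ℂ K :=
    { V.toSubring with
      algebraMap_mem' := hC }
  have h1 : (T.at D σ).std ≤ S := by
    refine Algebra.adjoin_le ?_
    rintro _ ⟨i, rfl⟩
    show T.χ (Matrix.vecMul (Pi.single i 1) (D.E σ)) ∈ V
    rw [Matrix.single_one_vecMul]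
    exact h i
  exact fun f hf => h1 hf

theorem j8910_sub_loc (R : Subalgebra ℂ K) (p : Ideal R) (hp : p.IsPrime) :
    (R : Set K) ⊆ locRing R p := by
  intro z hz
  refine ⟨⟨z, hz⟩, 1, (Ideal.ne_top_iff_one p).1 hp.ne_top, ?_⟩
  simp

theorem j8910_forms_mono (X : Variety) {A B : Set X.K} (h : A ⊆ B) : X.forms A ⊆ X.forms B := by
  rintro a ⟨g, hg, rfl⟩
  exact ⟨g, fun j => h (hg j), rfl⟩

theorem j8910_sub (T : TorusField n K) (D : ToricData n) (σ : D.ι) (A' : Set K)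
    (h1 : A' ∈ (toricVariety T D).points)
    (h2 : (toricVariety T D).NonvanishingAt 1 (T.χ (-∑ k, D.E σ k)) A') :
    ∃ p : Ideal (T.at D σ).std, p.IsPrime ∧ A' = locRing (T.at D σ).std p := by
  obtain ⟨τ, q, hq, rfl⟩ := h1
  obtain ⟨a, ha, b, hb, hab⟩ := h2
  obtain ⟨h, hh, hah⟩ := toric_forms_loc T D τ q hq (a 0) (ha 0)
  obtain ⟨V, hV1, hV2⟩ := j8910_dom (K := K) (T.at D τ).std.toSubring q hq
  have hV1' : ∀ f ∈ (T.at D τ).std, f ∈ V := hV1
  have hE1 : locRing (T.at D τ).std q = locAtCentre (T.at D τ).std V := j8910_loc _ q V hV2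
  have hhV : h ∈ V := j8910_locAtCentre_sub _ V hV1' h (by rw [← hE1]; exact hh)
  have hbV : b ∈ V := j8910_locAtCentre_sub _ V hV1' b (by
    have : b ∈ locRing (T.at D τ).std q := hb
    rw [← hE1]; exact this)
  have hprod : T.χ (-∑ k, D.E σ k) * a 0 * b = 1 := by
    have := hab
    rw [Fin.prod_univ_one] at this
    exact this
  have hkey : T.χ ((-∑ k, D.E τ k) - (-∑ k, D.E σ k)) = h * b := by
    have h3 : T.χ ((-∑ k, D.E τ k) - (-∑ k, D.E σ k)) *
        T.χ ((-∑ k, D.E σ k) - (-∑ k, D.E τ k)) = 1 := by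
      rw [← T.χ_add, ← T.χ_zero]
      congr 1
      abel
    have h4 : T.χ ((-∑ k, D.E σ k) - (-∑ k, D.E τ k)) * (h * b) = 1 := by
      rw [sub_neg_eq_add, T.χ_add]
      rw [hah] at hprod
      unfold TorusField.top at hprod
      linear_combination hprod
    calc T.χ ((-∑ k, D.E τ k) - (-∑ k, D.E σ k)) =
        T.χ ((-∑ k, D.E τ k) - (-∑ k, D.E σ k)) *
          (T.χ ((-∑ k, D.E σ k) - (-∑ k, D.E τ k)) * (h * b)) := by rw [h4, mul_one]
      _ = h * b := by rw [← mul_assoc, h3, one_mul]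
  have hC : ∀ c : ℂ, algebraMap ℂ K c ∈ V := fun c => hV1' _ ((T.at D τ).std.algebraMap_mem c)
  have hσV : ∀ f ∈ (T.at D σ).std, f ∈ V := by
    refine j8910_std_sub T D σ V hC fun i => ?_
    have h5 : T.χ (D.E σ i) = T.χ (D.E σ i + (-∑ k, D.E σ k) - (-∑ k, D.E τ k)) *
        T.χ ((-∑ k, D.E τ k) - (-∑ k, D.E σ k)) := by
      rw [← T.χ_add]
      congr 1
      abel
    rw [h5, hkey]
    exact V.mul_mem _ _ (hV1' _ (j8910_L2 T D σ τ i)) (V.mul_mem _ _ hhV hbV)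
  have hE2 := toric_separated T D τ σ V hV1' hσV
  obtain ⟨p, hp, hp2⟩ := j8910_centre (T.at D σ).std V hσV
  refine ⟨p, hp, ?_⟩
  show locRing (T.at D τ).std q = _
  rw [hE1, hE2, j8910_loc _ p V hp2]

theorem j8910_nonvan (T : TorusField n K) (D : ToricData n) (σ : D.ι)
    (p : Ideal (T.at D σ).std) (hp : p.IsPrime) :
    (toricVariety T D).NonvanishingAt 1 (T.χ (-∑ k, D.E σ k)) (locRing (T.at D σ).std p) := by
  obtain ⟨ε, hε, hf⟩ := toric_forms_mem T D σ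
  have hsq : ε * ε = 1 := by
    rcases hε with rfl | rfl <;> norm_num
  have hεm : ε ∈ (T.at D σ).std := by
    rcases hε with rfl | rfl
    · exact (T.at D σ).std.one_mem
    · exact (T.at D σ).std.neg_mem (T.at D σ).std.one_mem
  refine ⟨fun _ => ε * T.top D σ, fun _ => ?_, ε, j8910_sub_loc _ p hp hεm, ?_⟩
  · exact j8910_forms_mono (toricVariety T D) (j8910_sub_loc _ p hp) hf
  · rw [Fin.prod_univ_one]
    show T.χ (-∑ k, D.E σ k) * (ε * T.χ (∑ k, D.E σ k)) * ε = 1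
    have h1 : T.χ (-∑ k, D.E σ k) * T.χ (∑ k, D.E σ k) = 1 := by
      rw [← T.χ_add, neg_add_cancel, T.χ_zero]
    linear_combination ε * ε * h1 + hsq

theorem toric_isFano (T : TorusField n K) (D : ToricData n) : (toricVariety T D).IsFano := by
  rintro A ⟨σ, p, hp, rfl⟩
  refine ⟨1, le_rfl, T.χ (-∑ k, D.E σ k), ?_, j8910_nonvan T D σ p hp, (T.at D σ).std,
    (T.at D σ).std_fg, ?_⟩
  · refine (toric_antican T D 1 _).2 (Submodule.subset_span ⟨_, ?_, rfl⟩)
    intro τ j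
    have := D.vert σ τ j
    simpa using this
  · ext A'
    constructor
    · rintro ⟨h1, h2⟩
      exact j8910_sub T D σ A' h1 h2
    · rintro ⟨p', hp', rfl⟩
      exact ⟨⟨σ, p', hp', rfl⟩, j8910_nonvan T D σ p' hp'⟩

theorem toric_canOrd (T : TorusField n K) (D : ToricData n) (E : (toricVariety T D).DivVal) (σ : D.ι)
    (h : ∀ f ∈ (T.at D σ).std, f ∈ E.ring) : E.v (T.top D σ) = (E.canOrd : WithTop ℤ) := by
  have hnn : ∀ (ρ : D.ι), (∀ f ∈ (T.at D ρ).std, f ∈ E.ring) → ∀ τ : D.ι,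
      E.v (T.top D τ) ≤ E.v (T.top D ρ) := by
    intro ρ hρ τ
    have h1 : T.top D ρ = T.top D τ * T.χ ((-∑ k, D.E τ k) - (-∑ k, D.E ρ k)) := by
      unfold TorusField.top
      rw [← T.χ_add]
      congr 1
      abel
    rw [h1, E.v.map_mul]
    have h2 : (0 : WithTop ℤ) ≤ E.v (T.χ ((-∑ k, D.E τ k) - (-∑ k, D.E ρ k))) :=
      hρ _ (j8910_L1 T D τ ρ)
    exact le_add_of_nonneg_right h2
  have hne : E.v (T.top D σ) ≠ ⊤ := by
    intro h1
    exact j8910_ne T _ ((AddValuation.top_iff _).1 h1)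
  obtain ⟨k0, hk0⟩ := WithTop.ne_top_iff_exists.1 hne
  have hleast : IsLeast {k : ℤ | ∃ i, (∀ f ∈ (toricVariety T D).chart i, f ∈ E.ring) ∧
      ∃ a ∈ (toricVariety T D).forms ((toricVariety T D).chart i : Set (toricVariety T D).K),
        E.v a = k} k0 := by
    constructor
    · obtain ⟨ε, hε, hf⟩ := toric_forms_mem T D σ
      refine ⟨σ, h, ε * T.top D σ, hf, ?_⟩
      have hvε : E.v ε = 0 := by
        rcases hε with rfl | rfl
        · exact E.v.map_one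
        · have := E.triv (-1) (by norm_num)
          rw [map_neg, map_one] at this
          exact this
      rw [E.v.map_mul, hvε, zero_add, hk0]
    · rintro k ⟨τ, hτ, a, ha, hk⟩
      obtain ⟨b, hb, rfl⟩ := toric_forms_sub T D τ a ha
      have h1 : (0 : WithTop ℤ) ≤ E.v b := hτ b hb
      have h2 : (k0 : WithTop ℤ) ≤ k := by
        rw [← hk, hk0, E.v.map_mul]
        exact (hnn τ hτ σ).trans (le_add_of_nonneg_right h1)
      exact_mod_cast h2
  have h3 : E.canOrd = k0 := hleast.csInf_eq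
  rw [h3, hk0]

end targets

end Pool.Agent.Helper774.KStab
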