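import Pool.Agent.Helper774.KStab.Defs

noncomputable section

namespace Pool.Agent.Helper774.KStab

/-- Unfolded form of `Morph.IsFibre`. -/
def Morph.IsFibreAux {X Y : Variety} (f : Morph X Y) (y : ClosedPoint Y) (F : Variety) : Prop :=
  ∃ (B : Subalgebra ℂ X.K) (res : B →ₐ[ℂ] F.K),
    (∀ i, (∀ s ∈ Y.chart (f.j i), y.Regular s) →
      ∃ h : X.chart i ≤ B,
        (∀ a : X.chart i, res (Subalgebra.inclusion h a) = 0 ↔
          a ∈ Ideal.span {b : X.chart i | ∃ s : Y.chart (f.j i), y.Vanishes s ∧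
            b = f.chartMap i s}) ∧
        ∃ k, (res.comp (Subalgebra.inclusion h)).range = F.chart k) ∧
    (∀ k, ∃ i, (∀ s ∈ Y.chart (f.j i), y.Regular s) ∧
      ∃ h : X.chart i ≤ B, (res.comp (Subalgebra.inclusion h)).range = F.chart k)

theorem restrictsOnto_of {K K' : Type} [Field K] [Algebra ℂ K] [Field K'] [Algebra ℂ K']
    {B : Subalgebra ℂ K} (res : B →ₐ[ℂ] K') (R : Subalgebra ℂ K) (I : Ideal R)
    (R' : Subalgebra ℂ K') (h : R ≤ B)
    (h1 : ∀ a : R, res (Subalgebra.inclusion h a) = 0 ↔ a ∈ I)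
    (h2 : (res.comp (Subalgebra.inclusion h)).range = R') : RestrictsOnto res R I R' := by
  refine ⟨h, fun a ha => ?_, fun b => ?_⟩
  · have := h1 ⟨a, ha⟩
    exact this
  · rw [← h2, AlgHom.mem_range]
    constructor
    · rintro ⟨a, rfl⟩
      exact ⟨Subalgebra.inclusion h a, a.2, rfl⟩
    · rintro ⟨a, ha, rfl⟩
      exact ⟨⟨a, ha⟩, rfl⟩

theorem Morph.IsFibreAux.isFibre {X Y : Variety} {f : Morph X Y} {y : ClosedPoint Y} {F : Variety}
    (h : f.IsFibreAux y F) : f.IsFibre y F := by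
  obtain ⟨B, res, h1, h2⟩ := h
  refine ⟨B, res, fun i hi => ?_, fun k => ?_⟩
  · obtain ⟨hB, hk, k, hr⟩ := h1 i hi
    exact ⟨k, restrictsOnto_of res _ _ _ hB hk hr⟩
  · obtain ⟨i, hi, hB, hr⟩ := h2 k
    obtain ⟨hB', hk, _⟩ := h1 i hi
    exact ⟨i, hi, restrictsOnto_of res _ _ _ hB hk hr⟩

end Pool.Agent.Helper774.KStab
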