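import Pool.Agent.Helper774.KStab.Torus

open scoped ENNReal

noncomputable section

namespace Pool.Agent.Helper774.KStab

variable {n n' : ℕ} {K K' : Type} [Field K] [Algebra ℂ K] [Field K'] [Algebra ℂ K']

/-- algebra hom from the group algebra given by a system of characters -/
def lft {F : Type} [Field F] [Algebra ℂ F] (c : (Fin n → ℤ) → F) (h0 : c 0 = 1)
    (ha : ∀ u v, c (u + v) = c u * c v) : AddMonoidAlgebra ℂ (Fin n → ℤ) →ₐ[ℂ] F :=
  AddMonoidAlgebra.lift ℂ F (Fin n → ℤ)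
    { toFun := fun u => c (Multiplicative.toAdd u)
      map_one' := h0
      map_mul' := fun u v => ha _ _ }

theorem lft_apply {F : Type} [Field F] [Algebra ℂ F] (c : (Fin n → ℤ) → F) (h0 : c 0 = 1)
    (ha : ∀ u v, c (u + v) = c u * c v) (a : AddMonoidAlgebra ℂ (Fin n → ℤ)) :
    lft c h0 ha a = a.coeff.sum fun u r => r • c u := by
  unfold lft
  rw [AddMonoidAlgebra.lift_apply]
  rfl

theorem lft_single {F : Type} [Field F] [Algebra ℂ F] (c : (Fin n → ℤ) → F) (h0 : c 0 = 1)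
    (ha : ∀ u v, c (u + v) = c u * c v) (u : Fin n → ℤ) :
    lft c h0 ha (AddMonoidAlgebra.single u 1) = c u := by
  unfold lft
  rw [AddMonoidAlgebra.lift_single, one_smul]
  rfl

theorem lft_inj {F : Type} [Field F] [Algebra ℂ F] (c : (Fin n → ℤ) → F) (h0 : c 0 = 1)
    (ha : ∀ u v, c (u + v) = c u * c v) (hl : LinearIndependent ℂ c) :
    Function.Injective (lft c h0 ha) := by
  intro a b hab
  rw [lft_apply, lft_apply] at hab
  apply AddMonoidAlgebra.coeff_injective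
  exact hl hab

theorem lft_span {F : Type} [Field F] [Algebra ℂ F] (c : (Fin n → ℤ) → F) (h0 : c 0 = 1)
    (ha : ∀ u v, c (u + v) = c u * c v) (x : F) (hx : x ∈ Submodule.span ℂ (Set.range c)) :
    ∃ a, lft c h0 ha a = x := by
  rw [Finsupp.mem_span_range_iff_exists_finsupp] at hx
  obtain ⟨l, hl⟩ := hx
  exact ⟨⟨l⟩, by rw [lft_apply]; exact hl⟩

/-- Inclusion of function fields given by an injective map of character lattices. -/
theorem exists_fieldHom (T : TorusField n K) (T' : TorusField n' K')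
    (L : (Fin n → ℤ) →+ (Fin n' → ℤ)) (hL : Function.Injective L) :
    ∃ φ : K →ₐ[ℂ] K', ∀ u, φ (T.χ u) = T'.χ (L u) := by
  have hinj := lft_inj T.χ T.χ_zero T.χ_add T.li
  letI : Algebra (AddMonoidAlgebra ℂ (Fin n → ℤ)) K :=
    (lft T.χ T.χ_zero T.χ_add).toRingHom.toAlgebra
  have hmap : ∀ a, algebraMap (AddMonoidAlgebra ℂ (Fin n → ℤ)) K a =
      lft T.χ T.χ_zero T.χ_add a := fun a => rfl
  haveI : IsScalarTower ℂ (AddMonoidAlgebra ℂ (Fin n → ℤ)) K :=
    IsScalarTower.of_algebraMap_eq (fun r => ((lft T.χ T.χ_zero T.χ_add).commutes r).symm)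
  haveI : FaithfulSMul (AddMonoidAlgebra ℂ (Fin n → ℤ)) K :=
    (faithfulSMul_iff_algebraMap_injective _ _).2 hinj
  haveI : IsFractionRing (AddMonoidAlgebra ℂ (Fin n → ℤ)) K := by
    refine IsFractionRing.of_field _ _ fun z => ?_
    obtain ⟨a, ha, b, hb, hb0, hab⟩ := T.frac z
    obtain ⟨x, hx⟩ := lft_span T.χ T.χ_zero T.χ_add a ha
    obtain ⟨y, hy⟩ := lft_span T.χ T.χ_zero T.χ_add b hb
    refine ⟨x, y, ?_⟩
    rw [hmap, hmap, hx, hy, ← hab, mul_div_cancel_right₀ z hb0]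
  have hg := lft_inj (fun u => T'.χ (L u)) (by rw [map_zero]; exact T'.χ_zero)
    (fun u v => by rw [map_add]; exact T'.χ_add _ _) (T'.li.comp L hL)
  refine ⟨IsFractionRing.liftAlgHom hg, fun u => ?_⟩
  have h1 : T.χ u = algebraMap (AddMonoidAlgebra ℂ (Fin n → ℤ)) K
      (AddMonoidAlgebra.single u 1) := by rw [hmap, lft_single]
  rw [h1, IsFractionRing.liftAlgHom_apply]
  have h2 := IsFractionRing.lift_algebraMap (K := K) (g := (lft (fun u => T'.χ (L u))
    (by rw [map_zero]; exact T'.χ_zero)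
    (fun u v => by rw [map_add]; exact T'.χ_add _ _)).toRingHom) hg (AddMonoidAlgebra.single u 1)
  refine Eq.trans h2 ?_
  exact lft_single (fun u => T'.χ (L u)) _ _ u

/-- Restriction of Laurent polynomials. -/
theorem exists_res (T : TorusField n K) (T' : TorusField n' K')
    (L : (Fin n → ℤ) →+ (Fin n' → ℤ)) (γ : (Fin n → ℤ) → ℂ) (h0 : γ 0 = 1)
    (hγ : ∀ u v, γ (u + v) = γ u * γ v) :
    ∃ (B : Subalgebra ℂ K) (res : B →ₐ[ℂ] K') (hB : ∀ u, T.χ u ∈ B),
      ∀ u, res ⟨T.χ u, hB u⟩ = γ u • T'.χ (L u) := by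
  have hinj := lft_inj T.χ T.χ_zero T.χ_add T.li
  set α := lft T.χ T.χ_zero T.χ_add with hα
  set g := lft (fun u => γ u • T'.χ (L u)) (by rw [map_zero, h0, one_smul]; exact T'.χ_zero)
    (fun u v => by rw [map_add, T'.χ_add, hγ, smul_mul_smul_comm]) with hg
  have hmem : ∀ u, T.χ u ∈ α.range := fun u =>
    ⟨AddMonoidAlgebra.single u 1, lft_single T.χ T.χ_zero T.χ_add u⟩
  refine ⟨α.range, g.comp (AlgEquiv.ofInjective α hinj).symm.toAlgHom, hmem, fun u => ?_⟩
  have h1 : (AlgEquiv.ofInjective α hinj).symm ⟨T.χ u, hmem u⟩ = AddMonoidAlgebra.single u 1 := by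
    rw [AlgEquiv.symm_apply_eq]
    apply Subtype.ext
    rw [AlgEquiv.ofInjective_apply]
    exact (lft_single T.χ T.χ_zero T.χ_add u).symm
  show g ((AlgEquiv.ofInjective α hinj).symm ⟨T.χ u, hmem u⟩) = _
  rw [h1]
  exact lft_single (fun u => γ u • T'.χ (L u)) _ _ u



/-- Restriction to the divisor `x_0 = γ(e_0)`. -/
theorem ker_res (T : TorusField 3 K) (T' : TorusField 2 K') (B : Subalgebra ℂ K)
    (res : B →ₐ[ℂ] K') (hB : ∀ u, T.χ u ∈ B) (γ : (Fin 3 → ℤ) → ℂ) (h0 : ∀ u, γ u ≠ 0)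
    (hγ : ∀ u v, γ (u + v) = γ u * γ v)
    (hres : ∀ u, res ⟨T.χ u, hB u⟩ = γ u • T'.χ ![u 1, u 2]) (h : T.std ≤ B)
    (hx : T.χ (Pi.single 0 1) ∈ T.std) :
    (∀ a : T.std, res (Subalgebra.inclusion h a) = 0 ↔
      a ∈ Ideal.span {(⟨T.χ (Pi.single 0 1), hx⟩ - algebraMap ℂ T.std (γ (Pi.single 0 1)) : T.std)}) ∧
    (res.comp (Subalgebra.inclusion h)).range = T'.std := by
  set e : Fin 3 → (Fin 3 → ℤ) := fun i => Pi.single i 1 with he
  set r : T.std →ₐ[ℂ] K' := res.comp (Subalgebra.inclusion h) with hr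
  have hγ0 : γ 0 = 1 := by
    have h1 := hγ 0 0
    rw [add_zero] at h1
    have h2 : γ 0 * 1 = γ 0 * γ 0 := by rw [mul_one]; exact h1
    exact (mul_left_cancel₀ (h0 0) h2).symm
  have hmem : ∀ i, T.χ (e i) ∈ T.std := fun i => Algebra.subset_adjoin ⟨i, rfl⟩
  have hr' : ∀ u (hu : T.χ u ∈ T.std), r ⟨T.χ u, hu⟩ = γ u • T'.χ ![u 1, u 2] := fun u hu => hres u
  have v0 : (![(e 0) 1, (e 0) 2] : Fin 2 → ℤ) = 0 := by
    funext i; fin_cases i <;> simp [he]
  have v1 : (![(e 1) 1, (e 1) 2] : Fin 2 → ℤ) = Pi.single 0 1 := by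
    funext i; fin_cases i <;> simp [he]
  have v2 : (![(e 2) 1, (e 2) 2] : Fin 2 → ℤ) = Pi.single 1 1 := by
    funext i; fin_cases i <;> simp [he]
  have r0 : r ⟨T.χ (e 0), hx⟩ = algebraMap ℂ K' (γ (e 0)) := by
    rw [hr' (e 0) hx, v0, T'.χ_zero, Algebra.smul_def, mul_one]
  have r1 : r ⟨T.χ (e 1), hmem 1⟩ = γ (e 1) • T'.χ (Pi.single 0 1) := by
    rw [hr' (e 1) (hmem 1), v1]
  have r2 : r ⟨T.χ (e 2), hmem 2⟩ = γ (e 2) • T'.χ (Pi.single 1 1) := by
    rw [hr' (e 2) (hmem 2), v2]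
  have hmem' : ∀ i, T'.χ (Pi.single i 1) ∈ T'.std := fun i => Algebra.subset_adjoin ⟨i, rfl⟩
  constructor
  · -- kernel
    -- the left inverse
    let L' : (Fin 2 → ℤ) →+ (Fin 3 → ℤ) :=
      { toFun := fun v => ![0, v 0, v 1]
        map_zero' := by funext i; fin_cases i <;> simp
        map_add' := fun u v => by funext i; fin_cases i <;> simp }
    have hL' : ∀ v, L' v = ![0, v 0, v 1] := fun v => rfl
    obtain ⟨B', res', hB', hres'⟩ := exists_res T' T L' (fun v => (γ (L' v))⁻¹)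
      (by simp only [map_zero, hγ0, inv_one])
      (fun u v => by simp only [map_add, hγ, mul_inv])
    set S : Subalgebra ℂ K := Algebra.adjoin ℂ {T.χ (e 1), T.χ (e 2)} with hS
    have hSR : S ≤ T.std := by
      rw [hS]
      refine Algebra.adjoin_le ?_
      rintro x (rfl | rfl)
      · exact hmem 1
      · exact hmem 2
    have key : ∀ x (hxS : x ∈ S), ∃ hb : r ⟨x, hSR hxS⟩ ∈ B', res' ⟨r ⟨x, hSR hxS⟩, hb⟩ = x := by
      intro x hxS
      induction hxS using Algebra.adjoin_induction with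
      | mem x hx1 =>
        have gen : ∀ i (v : Fin 2 → ℤ) (hi : T.χ (e i) ∈ T.std), L' v = e i →
            r ⟨T.χ (e i), hi⟩ = γ (e i) • T'.χ v →
            ∃ hb : r ⟨T.χ (e i), hi⟩ ∈ B', res' ⟨r ⟨T.χ (e i), hi⟩, hb⟩ = T.χ (e i) := by
          intro i v hi hv hrr
          have hb : r ⟨T.χ (e i), hi⟩ ∈ B' := by rw [hrr]; exact B'.smul_mem (hB' v) _
          refine ⟨hb, ?_⟩
          have h1 : (⟨r ⟨T.χ (e i), hi⟩, hb⟩ : B') = γ (e i) • (⟨T'.χ v, hB' v⟩ : B') :=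
            Subtype.ext hrr
          rw [h1, map_smul, hres' v, hv, smul_smul, mul_inv_cancel₀ (h0 _), one_smul]
        rcases hx1 with rfl | rfl
        · exact gen 1 (Pi.single 0 1) _ (by rw [hL']; funext i; fin_cases i <;> simp [he]) r1
        · exact gen 2 (Pi.single 1 1) _ (by rw [hL']; funext i; fin_cases i <;> simp [he]) r2
      | algebraMap c =>
        have h1 : r ⟨algebraMap ℂ K c, hSR (algebraMap_mem _ c)⟩ = algebraMap ℂ K' c :=
          r.commutes c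
        have hb : r ⟨algebraMap ℂ K c, hSR (algebraMap_mem _ c)⟩ ∈ B' := by
          rw [h1]; exact B'.algebraMap_mem c
        refine ⟨hb, ?_⟩
        have h2 : (⟨r ⟨algebraMap ℂ K c, hSR (algebraMap_mem _ c)⟩, hb⟩ : B') =
            algebraMap ℂ B' c := Subtype.ext h1
        rw [h2]
        exact res'.commutes c
      | add x y hx1 hy1 ihx ihy =>
        obtain ⟨bx, ex⟩ := ihx
        obtain ⟨by', ey⟩ := ihy
        have h1 : r ⟨x + y, hSR (add_mem hx1 hy1)⟩ = r ⟨x, hSR hx1⟩ + r ⟨y, hSR hy1⟩ := by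
          rw [← map_add]; rfl
        have hb : r ⟨x + y, hSR (add_mem hx1 hy1)⟩ ∈ B' := by rw [h1]; exact add_mem bx by'
        refine ⟨hb, ?_⟩
        have h2 : (⟨r ⟨x + y, hSR (add_mem hx1 hy1)⟩, hb⟩ : B') =
            ⟨r ⟨x, hSR hx1⟩, bx⟩ + ⟨r ⟨y, hSR hy1⟩, by'⟩ := Subtype.ext h1
        rw [h2, map_add, ex, ey]
      | mul x y hx1 hy1 ihx ihy =>
        obtain ⟨bx, ex⟩ := ihx
        obtain ⟨by', ey⟩ := ihy
        have h1 : r ⟨x * y, hSR (mul_mem hx1 hy1)⟩ = r ⟨x, hSR hx1⟩ * r ⟨y, hSR hy1⟩ := by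
          rw [← map_mul]; rfl
        have hb : r ⟨x * y, hSR (mul_mem hx1 hy1)⟩ ∈ B' := by rw [h1]; exact mul_mem bx by'
        refine ⟨hb, ?_⟩
        have h2 : (⟨r ⟨x * y, hSR (mul_mem hx1 hy1)⟩, hb⟩ : B') =
            ⟨r ⟨x, hSR hx1⟩, bx⟩ * ⟨r ⟨y, hSR hy1⟩, by'⟩ := Subtype.ext h1
        rw [h2, map_mul, ex, ey]
    have hinjS : ∀ x (hxS : x ∈ S), r ⟨x, hSR hxS⟩ = 0 → x = 0 := by
      intro x hxS hx0
      obtain ⟨hb, hb2⟩ := key x hxS
      rw [← hb2]
      have h1 : (⟨r ⟨x, hSR hxS⟩, hb⟩ : B') = 0 := Subtype.ext hx0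
      rw [h1, map_zero]
    set y0 : T.std := ⟨T.χ (e 0), hx⟩ - algebraMap ℂ T.std (γ (e 0)) with hy0
    have ry0 : r y0 = 0 := by
      rw [hy0, map_sub, r0, r.commutes, sub_self]
    have dec : ∀ x (hxR : x ∈ T.std), ∃ b, ∃ hb : b ∈ S,
        (⟨x, hxR⟩ - ⟨b, hSR hb⟩ : T.std) ∈ Ideal.span {y0} := by
      intro x hxR
      induction hxR using Algebra.adjoin_induction with
      | mem x hx1 =>
        obtain ⟨i, rfl⟩ := hx1
        fin_cases i
        · refine ⟨algebraMap ℂ K (γ (e 0)), S.algebraMap_mem _, ?_⟩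
          exact Ideal.subset_span rfl
        · refine ⟨T.χ (e 1), Algebra.subset_adjoin (Or.inl rfl), ?_⟩
          have : (⟨T.χ (e 1), hmem 1⟩ - ⟨T.χ (e 1), hmem 1⟩ : T.std) ∈ Ideal.span {y0} := by
            rw [sub_self]; exact Ideal.zero_mem _
          exact this
        · refine ⟨T.χ (e 2), Algebra.subset_adjoin (Or.inr rfl), ?_⟩
          have : (⟨T.χ (e 2), hmem 2⟩ - ⟨T.χ (e 2), hmem 2⟩ : T.std) ∈ Ideal.span {y0} := by
            rw [sub_self]; exact Ideal.zero_mem _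
          exact this
      | algebraMap c =>
        refine ⟨algebraMap ℂ K c, S.algebraMap_mem c, ?_⟩
        have : (⟨algebraMap ℂ K c, T.std.algebraMap_mem c⟩ -
            ⟨algebraMap ℂ K c, T.std.algebraMap_mem c⟩ : T.std) ∈ Ideal.span {y0} := by
          rw [sub_self]; exact Ideal.zero_mem _
        exact this
      | add x y hx1 hy1 ihx ihy =>
        obtain ⟨bx, hbx, ex⟩ := ihx
        obtain ⟨by', hby, ey⟩ := ihy
        refine ⟨bx + by', add_mem hbx hby, ?_⟩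
        have h1 : (⟨x + y, add_mem hx1 hy1⟩ - ⟨bx + by', hSR (add_mem hbx hby)⟩ : T.std) =
            (⟨x, hx1⟩ - ⟨bx, hSR hbx⟩) + (⟨y, hy1⟩ - ⟨by', hSR hby⟩) := by
          apply Subtype.ext
          show x + y - (bx + by') = (x - bx) + (y - by')
          ring
        rw [h1]
        exact Ideal.add_mem _ ex ey
      | mul x y hx1 hy1 ihx ihy =>
        obtain ⟨bx, hbx, ex⟩ := ihx
        obtain ⟨by', hby, ey⟩ := ihy
        refine ⟨bx * by', mul_mem hbx hby, ?_⟩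
        have h1 : (⟨x * y, mul_mem hx1 hy1⟩ - ⟨bx * by', hSR (mul_mem hbx hby)⟩ : T.std) =
            ⟨y, hy1⟩ * (⟨x, hx1⟩ - ⟨bx, hSR hbx⟩) + ⟨bx, hSR hbx⟩ * (⟨y, hy1⟩ - ⟨by', hSR hby⟩) := by
          apply Subtype.ext
          show x * y - bx * by' = y * (x - bx) + bx * (y - by')
          ring
        rw [h1]
        exact Ideal.add_mem _ (Ideal.mul_mem_left _ _ ex) (Ideal.mul_mem_left _ _ ey)
    have rI : ∀ a ∈ Ideal.span {y0}, r a = 0 := by
      intro a ha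
      obtain ⟨c, rfl⟩ := Ideal.mem_span_singleton'.1 ha
      rw [map_mul, ry0, mul_zero]
    intro a
    constructor
    · intro ha
      have ha' : r a = 0 := ha
      obtain ⟨b, hb, hab⟩ := dec a.1 a.2
      have h1 := rI _ hab
      rw [map_sub] at h1
      have h2 : r ⟨b, hSR hb⟩ = 0 := by
        have h3 : r ⟨a.1, a.2⟩ = 0 := ha'
        rw [h3, zero_sub, neg_eq_zero] at h1
        exact h1
      have h4 := hinjS b hb h2
      subst h4
      have h5 : (⟨a.1, a.2⟩ - ⟨0, hSR hb⟩ : T.std) = a := by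
        apply Subtype.ext
        show a.1 - 0 = a.1
        rw [sub_zero]
      rw [h5] at hab
      exact hab
    · intro ha
      exact rI a ha
  · -- range
    apply le_antisymm
    · rintro _ ⟨⟨x, hxR⟩, rfl⟩
      show r ⟨x, hxR⟩ ∈ T'.std
      induction hxR using Algebra.adjoin_induction with
      | mem x hx1 =>
        obtain ⟨i, rfl⟩ := hx1
        fin_cases i
        · have : r ⟨T.χ (e 0), hx⟩ ∈ T'.std := by rw [r0]; exact T'.std.algebraMap_mem _
          exact this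
        · have : r ⟨T.χ (e 1), hmem 1⟩ ∈ T'.std := by
            rw [r1]; exact T'.std.smul_mem (hmem' 0) _
          exact this
        · have : r ⟨T.χ (e 2), hmem 2⟩ ∈ T'.std := by
            rw [r2]; exact T'.std.smul_mem (hmem' 1) _
          exact this
      | algebraMap c =>
        have : r (algebraMap ℂ T.std c) ∈ T'.std := by
          rw [r.commutes]; exact T'.std.algebraMap_mem c
        exact this
      | add x y hx1 hy1 ihx ihy =>
        have h1 : r ⟨x + y, add_mem hx1 hy1⟩ = r ⟨x, hx1⟩ + r ⟨y, hy1⟩ := by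
          rw [← map_add]; rfl
        rw [h1]; exact add_mem ihx ihy
      | mul x y hx1 hy1 ihx ihy =>
        have h1 : r ⟨x * y, mul_mem hx1 hy1⟩ = r ⟨x, hx1⟩ * r ⟨y, hy1⟩ := by
          rw [← map_mul]; rfl
        rw [h1]; exact mul_mem ihx ihy
    · refine Algebra.adjoin_le ?_
      rintro _ ⟨i, rfl⟩
      fin_cases i
      · have h1 : T'.χ (Pi.single 0 1) = (γ (e 1))⁻¹ • r ⟨T.χ (e 1), hmem 1⟩ := by
          rw [r1, smul_smul, inv_mul_cancel₀ (h0 _), one_smul]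
        have : T'.χ (Pi.single 0 1) ∈ r.range := by
          rw [h1]; exact r.range.smul_mem ⟨_, rfl⟩ _
        exact this
      · have h1 : T'.χ (Pi.single 1 1) = (γ (e 2))⁻¹ • r ⟨T.χ (e 2), hmem 2⟩ := by
          rw [r2, smul_smul, inv_mul_cancel₀ (h0 _), one_smul]
        have : T'.χ (Pi.single 1 1) ∈ r.range := by
          rw [h1]; exact r.range.smul_mem ⟨_, rfl⟩ _
        exact this

end Pool.Agent.Helper774.KStab
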