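import Pool.Agent.Helper774.KStab.Data
import Pool.Agent.Helper774.KStab.Res

open scoped ENNReal

noncomputable section

namespace Pool.Agent.Helper774.KStab

theorem h441_chi_nsmul {n : ℕ} {K : Type} [Field K] [Algebra ℂ K] (T : TorusField n K)
    (u : Fin n → ℤ) (k : ℕ) : T.χ (k • u) = T.χ u ^ k := by
  induction k with
  | zero => rw [zero_smul, T.χ_zero, pow_zero]
  | succ k ih => rw [succ_nsmul, T.χ_add, ih, pow_succ]

theorem h441_chi_sum {n : ℕ} {K : Type} [Field K] [Algebra ℂ K] (T : TorusField n K) {ι : Type}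
    (s : Finset ι) (u : ι → Fin n → ℤ) : T.χ (∑ i ∈ s, u i) = ∏ i ∈ s, T.χ (u i) := by
  classical
  induction s using Finset.induction_on with
  | empty => rw [Finset.sum_empty, Finset.prod_empty, T.χ_zero]
  | insert a s ha ih => rw [Finset.sum_insert ha, Finset.prod_insert ha, T.χ_add, ih]

theorem h441_chi_mon {n : ℕ} {K : Type} [Field K] [Algebra ℂ K] (T : TorusField n K)
    (m : Fin n →₀ ℕ) :
    m.prod (fun i k => T.χ (Pi.single i 1) ^ k) = T.χ (fun i => (m i : ℤ)) := by
  rw [Finsupp.prod_fintype _ _ (fun i => pow_zero _)]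
  have h : (fun i => (m i : ℤ)) = ∑ i, (m i) • (Pi.single i 1 : Fin n → ℤ) := by
    ext j
    rw [Finset.sum_apply, Finset.sum_eq_single j]
    · simp
    · intro b _ hb
      simp [Pi.single_apply, hb.symm]
    · simp
  rw [h, h441_chi_sum]
  exact Finset.prod_congr rfl fun i _ => (h441_chi_nsmul T _ _).symm

theorem h441_aeval_inj {n : ℕ} {K : Type} [Field K] [Algebra ℂ K] (T : TorusField n K) :
    Function.Injective (MvPolynomial.aeval (R := ℂ) (fun i : Fin n => T.χ (Pi.single i 1))) := by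
  rw [injective_iff_map_eq_zero]
  intro p hp
  have h1 : ∑ m ∈ p.support, MvPolynomial.coeff m p • T.χ (fun i => (m i : ℤ)) = 0 := by
    rw [← hp]
    conv_rhs => rw [← MvPolynomial.support_sum_monomial_coeff p]
    rw [map_sum]
    refine Finset.sum_congr rfl fun m _ => ?_
    rw [MvPolynomial.aeval_monomial, h441_chi_mon, Algebra.smul_def]
  have hli : LinearIndependent ℂ (fun m : Fin n →₀ ℕ => T.χ (fun i => (m i : ℤ))) :=
    T.li.comp _ (by
      intro a b h
      ext i
      have h0 : ((a i : ℕ) : ℤ) = ((b i : ℕ) : ℤ) := congrFun h i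
      exact_mod_cast h0)
  have h2 := linearIndependent_iff'.mp hli p.support (fun m => MvPolynomial.coeff m p) h1
  by_contra hne
  obtain ⟨m, hm⟩ := MvPolynomial.ne_zero_iff.mp hne
  exact hm (h2 m (MvPolynomial.mem_support_iff.mpr hm))

theorem h441_iso {n : ℕ} {K : Type} [Field K] [Algebra ℂ K] (T : TorusField n K) :
    ∃ P : MvPolynomial (Fin n) ℂ ≃ₐ[ℂ] T.std,
      ∀ i, ((P (MvPolynomial.X i) : T.std) : K) = T.χ (Pi.single i 1) := by
  let f := MvPolynomial.aeval (R := ℂ) (fun i : Fin n => T.χ (Pi.single i 1))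
  have hr : f.range = T.std := (Algebra.adjoin_range_eq_range_aeval ℂ _).symm
  refine ⟨(AlgEquiv.ofInjective f (h441_aeval_inj T)).trans (Subalgebra.equivOfEq _ _ hr),
    fun i => ?_⟩
  show f (MvPolynomial.X i) = _
  exact MvPolynomial.aeval_X _ _

theorem h441_rename :
    (MvPolynomial.rename (R := ℂ) (fun _ : Fin 1 => (0 : Fin 3))).toRingHom.Smooth := by
  let e : Fin 2 ⊕ Fin 1 ≃ Fin 3 := (Equiv.sumComm _ _).trans finSumFinEquiv
  have he : e (Sum.inr 0) = 0 := rfl
  have hC : (algebraMap (MvPolynomial (Fin 1) ℂ)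
      (MvPolynomial (Fin 2) (MvPolynomial (Fin 1) ℂ))).Smooth :=
    RingHom.smooth_algebraMap.mpr ⟨inferInstance, inferInstance⟩
  have h1 : ((MvPolynomial.sumAlgEquiv ℂ (Fin 2) (Fin 1)).symm.toAlgHom.toRingHom).Smooth :=
    RingHom.Smooth.of_bijective (MvPolynomial.sumAlgEquiv ℂ (Fin 2) (Fin 1)).symm.bijective
  have h2 : ((MvPolynomial.renameEquiv ℂ e).toAlgHom.toRingHom).Smooth :=
    RingHom.Smooth.of_bijective (MvPolynomial.renameEquiv ℂ e).bijective
  have h3 := (hC.comp h1).comp h2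
  convert h3 using 1
  apply MvPolynomial.ringHom_ext
  · intro c
    simp
  · intro i
    have hi : i = 0 := Subsingleton.elim _ _
    rw [hi]
    simp [he]


/-- The projection of the threefold to the projective line is a smooth morphism. -/
theorem exists_morph {K₁ K₃ : Type} [Field K₁] [Algebra ℂ K₁] [Field K₃] [Algebra ℂ K₃]
    (T₁ : TorusField 1 K₁) (T₃ : TorusField 3 K₃) :
    ∃ f : Morph (toricVariety T₃ dataX) (toricVariety T₁ dataP1),
      (∀ u : Fin 1 → ℤ, f.φ (T₁.χ u) = T₃.χ ![u 0, 0, 0]) ∧ (∀ s, f.j s = s.1) ∧ f.IsSmooth := by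
  let L : (Fin 1 → ℤ) →+ (Fin 3 → ℤ) :=
    { toFun := fun u => ![u 0, 0, 0]
      map_zero' := by
        ext i
        fin_cases i <;> rfl
      map_add' := fun u v => by
        ext i
        fin_cases i <;> simp }
  have hL : Function.Injective L := by
    intro u v h
    ext i
    have hi : i = 0 := Subsingleton.elim _ _
    rw [hi]
    exact congrFun h 0
  obtain ⟨φ, hφ⟩ := exists_fieldHom T₁ T₃ L hL
  have hφ' : ∀ u : Fin 1 → ℤ, φ (T₁.χ u) = T₃.χ ![u 0, 0, 0] := hφ
  have hgen : ∀ s : dataX.ι, φ ((T₁.at dataP1 s.1).χ (Pi.single 0 1)) =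
      (T₃.at dataX s).χ (Pi.single 0 1) := by
    intro s
    show φ (T₁.χ (Matrix.vecMul (Pi.single 0 1) (dataP1.E s.1))) =
      T₃.χ (Matrix.vecMul (Pi.single 0 1) (dataX.E s))
    rw [hφ']
    congr 1
    rw [Matrix.single_one_vecMul, Matrix.single_one_vecMul]
    rfl
  have hmaps : ∀ s : dataX.ι, ∀ x ∈ (T₁.at dataP1 s.1).std, φ x ∈ (T₃.at dataX s).std := by
    intro s x hx
    have h1 : (T₁.at dataP1 s.1).std.map φ ≤ (T₃.at dataX s).std := by
      unfold TorusField.std
      rw [AlgHom.map_adjoin]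
      apply Algebra.adjoin_mono
      rintro _ ⟨_, ⟨i, rfl⟩, rfl⟩
      have hi : i = 0 := Subsingleton.elim _ _
      rw [hi]
      exact ⟨0, (hgen s).symm⟩
    exact h1 ⟨x, hx, rfl⟩
  let f : Morph (toricVariety T₃ dataX) (toricVariety T₁ dataP1) :=
    { φ := φ
      j := fun s => s.1
      maps := hmaps }
  refine ⟨f, hφ', fun s => rfl, fun s => ?_⟩
  obtain ⟨P1, hP1⟩ := h441_iso (T₁.at dataP1 s.1)
  obtain ⟨P3, hP3⟩ := h441_iso (T₃.at dataX s)
  let g : (T₁.at dataP1 s.1).std →ₐ[ℂ] (T₃.at dataX s).std := f.chartMap s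
  have hg : ∀ x, ((g x : (T₃.at dataX s).std) : K₃) = φ x := fun x => rfl
  have hcomm : g.comp P1.toAlgHom =
      P3.toAlgHom.comp (MvPolynomial.rename (R := ℂ) (fun _ : Fin 1 => (0 : Fin 3))) := by
    apply MvPolynomial.algHom_ext
    intro i
    have hi : i = 0 := Subsingleton.elim _ _
    rw [hi]
    apply Subtype.ext
    show ((g (P1 (MvPolynomial.X 0)) : (T₃.at dataX s).std) : K₃) =
      ((P3 (MvPolynomial.rename (R := ℂ) (fun _ : Fin 1 => (0 : Fin 3)) (MvPolynomial.X 0)) :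
        (T₃.at dataX s).std) : K₃)
    rw [hg, hP1, MvPolynomial.rename_X, hP3, hgen]
  have hs1 : (P1.symm.toAlgHom.toRingHom).Smooth := RingHom.Smooth.of_bijective P1.symm.bijective
  have hs3 : (P3.toAlgHom.toRingHom).Smooth := RingHom.Smooth.of_bijective P3.bijective
  have h4 := (hs1.comp h441_rename).comp hs3
  show (g.toRingHom).Smooth
  convert h4 using 1
  apply RingHom.ext
  intro x
  have h5 := AlgHom.congr_fun hcomm (P1.symm x)
  have h6 : (g.comp P1.toAlgHom) (P1.symm x) = g x := by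
    show g (P1 (P1.symm x)) = g x
    rw [P1.apply_symm_apply]
  rw [h6] at h5
  exact h5

end Pool.Agent.Helper774.KStab
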