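import Pool.Agent.Helper774.KStab.FibreAux
import Pool.Agent.Helper774.KStab.Proj
import Pool.Agent.Helper774.KStab.ClosedPt

open scoped ENNReal

noncomputable section

namespace Pool.Agent.Helper774.KStab

lemma vecMul_X (u : Fin 3 → ℤ) (s : Bool × Bool × Bool) :
    Matrix.vecMul u (dataX.E s) = ![u 0 * sg s.1 + u 2 * (sg s.2.2 * ind s.1),
      u 1 * sg s.2.1 + u 2 * (-(sg s.2.2 * ind s.2.1)), u 2 * sg s.2.2] := by
  have e : dataX.E s = !![sg s.1, 0, 0; 0, sg s.2.1, 0;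
    sg s.2.2 * ind s.1, -(sg s.2.2 * ind s.2.1), sg s.2.2] := rfl
  rw [e]
  ext j
  fin_cases j <;> simp [Matrix.vecMul, dotProduct, Fin.sum_univ_three]

lemma vecMul_F1 (u : Fin 2 → ℤ) (s : Bool × Bool) :
    Matrix.vecMul u (dataF1.E s) = ![u 0 * sg s.1 + u 1 * (-(sg s.2 * ind s.1)), u 1 * sg s.2] := by
  have e : dataF1.E s = !![sg s.1, 0; -(sg s.2 * ind s.1), sg s.2] := rfl
  rw [e]
  ext j
  fin_cases j <;> simp [Matrix.vecMul, dotProduct, Fin.sum_univ_two]

lemma at_χ {n : ℕ} {K : Type} [Field K] [Algebra ℂ K] (T : TorusField n K) (D : ToricData n)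
    (σ : D.ι) (u : Fin n → ℤ) : (T.at D σ).χ u = T.χ (Matrix.vecMul u (D.E σ)) := rfl

lemma χ_P1_mem {K : Type} [Field K] [Algebra ℂ K] (T : TorusField 1 K) (a : Bool) :
    T.χ ![sg a] ∈ (T.at dataP1 a).std := by
  have e : T.χ ![sg a] = (T.at dataP1 a).χ (Pi.single 0 1) := by
    show T.χ ![sg a] = T.χ (Matrix.vecMul (Pi.single 0 1) !![sg a])
    congr 1
    ext j
    fin_cases j
    simp [Matrix.vecMul, dotProduct]
  rw [e]
  exact Algebra.subset_adjoin ⟨0, rfl⟩

/-- Every fibre of the projection over a closed point other than `0, ∞` is `F_1`. -/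
theorem fibre_F1 {K₁ K₂ K₃ : Type} [Field K₁] [Algebra ℂ K₁] [Field K₂] [Algebra ℂ K₂] [Field K₃]
    [Algebra ℂ K₃] (T₁ : TorusField 1 K₁) (T₂ : TorusField 2 K₂) (T₃ : TorusField 3 K₃)
    (f : Morph (toricVariety T₃ dataX) (toricVariety T₁ dataP1))
    (hφ : ∀ u : Fin 1 → ℤ, f.φ (T₁.χ u) = T₃.χ ![u 0, 0, 0]) (hj : ∀ s, f.j s = s.1)
    (y : ClosedPoint (toricVariety T₁ dataP1)) (h1 : y.Regular (T₁.χ ![1]))
    (h2 : y.Regular (T₁.χ ![1])⁻¹) :
    f.IsFibreAux y (toricVariety T₂ dataF1) := by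
  obtain ⟨c, hc0, hc⟩ := closedPoint_P1 T₁ y h1 h2
  let L : (Fin 3 → ℤ) →+ (Fin 2 → ℤ) :=
    { toFun := fun u => ![u 1, u 2]
      map_zero' := by ext i; fin_cases i <;> rfl
      map_add' := by intro u v; ext i; fin_cases i <;> rfl }
  obtain ⟨B, res, hB, hres⟩ := exists_res T₃ T₂ L (fun u => c ^ (u 0)) (by simp)
    (by intro u v; simp [zpow_add₀ hc0])
  have key : ∀ i : Bool × Bool × Bool, ∃ h : (T₃.at dataX i).std ≤ B,
     (∀ a : (T₃.at dataX i).std, res (Subalgebra.inclusion h a) = 0 ↔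
       a ∈ Ideal.span {b : (T₃.at dataX i).std |
         ∃ s : (toricVariety T₁ dataP1).chart (f.j i), y.Vanishes s ∧ b = f.chartMap i s}) ∧
      (res.comp (Subalgebra.inclusion h)).range = (T₂.at dataF1 i.2).std := by
    intro i
    have hle : (T₃.at dataX i).std ≤ B := by
      unfold TorusField.std
      rw [Algebra.adjoin_le_iff]
      rintro _ ⟨k, rfl⟩
      exact hB _
    refine ⟨hle, ?_⟩
    have hx : (T₃.at dataX i).χ (Pi.single 0 1) ∈ (T₃.at dataX i).std :=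
      Algebra.subset_adjoin ⟨0, rfl⟩
    have hres' : ∀ u, res ⟨(T₃.at dataX i).χ u, hB (Matrix.vecMul u (dataX.E i))⟩ =
        (c ^ ((Matrix.vecMul u (dataX.E i)) 0)) • (T₂.at dataF1 i.2).χ ![u 1, u 2] := by
      intro u
      have h3 := hres (Matrix.vecMul u (dataX.E i))
      have h4 : L (Matrix.vecMul u (dataX.E i)) = Matrix.vecMul ![u 1, u 2] (dataF1.E i.2) := by
        rw [vecMul_X, vecMul_F1]
        rfl
      rw [h4] at h3
      exact h3
    have hk := ker_res (T₃.at dataX i) (T₂.at dataF1 i.2) B res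
      (fun u => hB (Matrix.vecMul u (dataX.E i)))
      (fun u => c ^ ((Matrix.vecMul u (dataX.E i)) 0)) (fun u => zpow_ne_zero _ hc0)
      (by
        intro u v
        show c ^ ((Matrix.vecMul (u + v) (dataX.E i)) 0) = c ^ ((Matrix.vecMul u (dataX.E i)) 0) *
          c ^ ((Matrix.vecMul v (dataX.E i)) 0)
        rw [Matrix.add_vecMul, Pi.add_apply, zpow_add₀ hc0]) hres' hle hx
    refine ⟨?_, hk.2⟩
    intro a
    rw [hk.1 a]
    have hgen : (T₃.at dataX i).χ (Pi.single 0 1) = f.φ (T₁.χ ![sg i.1]) := by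
      rw [hφ]
      show T₃.χ (Matrix.vecMul (Pi.single 0 1 : Fin 3 → ℤ) (dataX.E i)) = _
      rw [vecMul_X]
      congr 1
      ext j
      fin_cases j <;> simp [Pi.single_apply]
    have hγ : c ^ ((Matrix.vecMul (Pi.single 0 1 : Fin 3 → ℤ) (dataX.E i)) 0) = c ^ (sg i.1) := by
      rw [vecMul_X]
      simp [Pi.single_apply]
    have hjj : f.j i = i.1 := hj i
    have hspan : Ideal.span {(⟨(T₃.at dataX i).χ (Pi.single 0 1), hx⟩ -
        algebraMap ℂ (T₃.at dataX i).std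
          (c ^ ((Matrix.vecMul (Pi.single 0 1 : Fin 3 → ℤ) (dataX.E i)) 0)) :
            (T₃.at dataX i).std)} =
        Ideal.span {b : (T₃.at dataX i).std |
         ∃ s : (toricVariety T₁ dataP1).chart (f.j i), y.Vanishes s ∧ b = f.chartMap i s} := by
      apply le_antisymm
      · rw [Ideal.span_singleton_le_iff_mem]
        apply Ideal.subset_span
        have hm : (1 : K₁) * (T₁.χ ![sg (f.j i)] - algebraMap ℂ K₁ (c ^ sg (f.j i))) ∈
            (T₁.at dataP1 (f.j i)).std := by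
          rw [one_mul]
          exact sub_mem (χ_P1_mem T₁ (f.j i)) (Subalgebra.algebraMap_mem _ _)
        refine ⟨⟨_, hm⟩, ?_, ?_⟩
        · exact ((hc (f.j i)).2 _ hm).2 ⟨1, one_mem _, rfl⟩
        · apply Subtype.ext
          show (T₃.at dataX i).χ (Pi.single 0 1) - algebraMap ℂ K₃
            (c ^ ((Matrix.vecMul (Pi.single 0 1 : Fin 3 → ℤ) (dataX.E i)) 0)) =
            f.φ ((1 : K₁) * (T₁.χ ![sg (f.j i)] - algebraMap ℂ K₁ (c ^ sg (f.j i))))
          rw [one_mul, map_sub, hgen, hγ, hjj]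
          congr 1
          exact (f.φ.commutes _).symm
      · rw [Ideal.span_le]
        rintro b ⟨s, hs, rfl⟩
        obtain ⟨r, hr, hsr⟩ := ((hc (f.j i)).2 (s : K₁) s.2).1 hs
        rw [SetLike.mem_coe, Ideal.mem_span_singleton]
        refine ⟨f.chartMap i ⟨r, hr⟩, ?_⟩
        apply Subtype.ext
        show f.φ (s : K₁) = ((T₃.at dataX i).χ (Pi.single 0 1) - algebraMap ℂ K₃
            (c ^ ((Matrix.vecMul (Pi.single 0 1 : Fin 3 → ℤ) (dataX.E i)) 0))) * f.φ r
        rw [hsr, map_mul, map_sub, hgen, hγ, hjj, mul_comm]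
        congr 2
        exact f.φ.commutes _
    rw [hspan]
  refine ⟨B, res, ?_, ?_⟩
  · intro i _
    obtain ⟨h, h3, h4⟩ := key i
    exact ⟨h, h3, i.2, h4⟩
  · intro k
    obtain ⟨h, h3, h4⟩ := key (false, k)
    exact ⟨(false, k), (hc (f.j (false, k))).1, h, h4⟩

end Pool.Agent.Helper774.KStab
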