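import Pool.Agent.Helper774.KStab.Torus

open scoped ENNReal

noncomputable section

namespace Pool.Agent.Helper774.KStab

variable {n n' : ℕ} {K K' : Type} [Field K] [Algebra ℂ K] [Field K'] [Algebra ℂ K']

/-- Restriction to the divisor `ρ = 0` at infinity: of the Laurent polynomials with exponents in the
half space `0 ≤ ρ`. -/
theorem exists_res_zero (T : TorusField n K) (T' : TorusField n' K')
    (L : (Fin n → ℤ) →+ (Fin n' → ℤ)) (ρ : (Fin n → ℤ) →+ ℤ) :
    ∃ (B : Subalgebra ℂ K) (res : B →ₐ[ℂ] K') (hB : ∀ u, 0 ≤ ρ u → T.χ u ∈ B),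
      (∀ u (h : 0 ≤ ρ u), 0 < ρ u → res ⟨T.χ u, hB u h⟩ = 0) ∧
      (∀ u (h : 0 ≤ ρ u), ρ u = 0 → res ⟨T.χ u, hB u h⟩ = T'.χ (L u)) := by
  classical
  let M : AddSubmonoid (Fin n → ℤ) :=
    { carrier := {u | 0 ≤ ρ u}
      add_mem' := fun {a b} ha hb => by
        have ha' : 0 ≤ ρ a := ha
        have hb' : 0 ≤ ρ b := hb
        change 0 ≤ ρ (a + b)
        rw [map_add]; exact add_nonneg ha' hb'
      zero_mem' := by
        change 0 ≤ ρ 0
        rw [map_zero] }
  have hM : ∀ u : M, 0 ≤ ρ u.1 := fun u => u.2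
  let F1 : Multiplicative M →* K :=
    { toFun := fun u => T.χ (Multiplicative.toAdd u).1
      map_one' := T.χ_zero
      map_mul' := fun u v => T.χ_add _ _ }
  let F2 : Multiplicative M →* K' :=
    { toFun := fun u => if ρ (Multiplicative.toAdd u).1 = 0 then T'.χ (L (Multiplicative.toAdd u).1) else 0
      map_one' := by
        change (if ρ (0 : Fin n → ℤ) = 0 then T'.χ (L 0) else 0) = 1
        rw [map_zero, map_zero, if_pos rfl, T'.χ_zero]
      map_mul' := fun u v => by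
        have h1 := hM (Multiplicative.toAdd u)
        have h2 := hM (Multiplicative.toAdd v)
        change (if ρ ((Multiplicative.toAdd u).1 + (Multiplicative.toAdd v).1) = 0 then
          T'.χ (L ((Multiplicative.toAdd u).1 + (Multiplicative.toAdd v).1)) else 0) = _ * _
        rw [map_add, map_add]
        by_cases h3 : ρ (Multiplicative.toAdd u).1 = 0
        · by_cases h4 : ρ (Multiplicative.toAdd v).1 = 0
          · rw [if_pos h3, if_pos h4, if_pos (by omega), T'.χ_add]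
          · rw [if_neg h4, if_neg (by omega), mul_zero]
        · rw [if_neg h3, if_neg (by omega), zero_mul] }
  let ι : AddMonoidAlgebra ℂ M →ₐ[ℂ] K := AddMonoidAlgebra.lift ℂ K M F1
  let g : AddMonoidAlgebra ℂ M →ₐ[ℂ] K' := AddMonoidAlgebra.lift ℂ K' M F2
  have hinj : Function.Injective ι := by
    rw [injective_iff_map_eq_zero]
    intro f hf
    have h1 : f.coeff.sum (fun a b => b • T.χ a.1) = 0 := by
      have := AddMonoidAlgebra.lift_apply (R := ℂ) F1 f
      exact this.symm.trans hf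
    have hli : LinearIndependent ℂ (fun u : M => T.χ u.1) := T.li.comp _ Subtype.val_injective
    rw [linearIndependent_iff] at hli
    have h2 := hli f.coeff (by rw [Finsupp.linearCombination_apply]; exact h1)
    ext u
    rw [h2]; rfl
  let e := AlgEquiv.ofInjective ι hinj
  have hι : ∀ u : M, ι (AddMonoidAlgebra.single u 1) = T.χ u.1 := by
    intro u
    have := AddMonoidAlgebra.lift_single (R := ℂ) F1 u 1
    rw [one_smul] at this
    exact this
  have hg : ∀ u : M, g (AddMonoidAlgebra.single u 1) = if ρ u.1 = 0 then T'.χ (L u.1) else 0 := by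
    intro u
    have := AddMonoidAlgebra.lift_single (R := ℂ) F2 u 1
    rw [one_smul] at this
    exact this
  have hB : ∀ u, 0 ≤ ρ u → T.χ u ∈ ι.range := fun u hu =>
    ⟨AddMonoidAlgebra.single ⟨u, hu⟩ 1, hι ⟨u, hu⟩⟩
  have hval : ∀ u (h : 0 ≤ ρ u), (g.comp e.symm.toAlgHom) ⟨T.χ u, hB u h⟩ =
      if ρ u = 0 then T'.χ (L u) else 0 := by
    intro u h
    have he : e (AddMonoidAlgebra.single ⟨u, h⟩ 1) = ⟨T.χ u, hB u h⟩ := Subtype.ext (hι ⟨u, h⟩)
    have h2 : e.symm ⟨T.χ u, hB u h⟩ = AddMonoidAlgebra.single ⟨u, h⟩ 1 := by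
      rw [← he, AlgEquiv.symm_apply_apply]
    change g (e.symm ⟨T.χ u, hB u h⟩) = _
    rw [h2]
    exact hg ⟨u, h⟩
  refine ⟨ι.range, g.comp e.symm.toAlgHom, hB, ?_, ?_⟩
  · intro u h hpos
    rw [hval u h, if_neg (by omega)]
  · intro u h hz
    rw [hval u h, if_pos hz]



/-- the standard chart is spanned by the monomials -/
theorem std_le_span (T : TorusField n K) : Subalgebra.toSubmodule T.std ≤
    Submodule.span ℂ {x | ∃ u : Fin n → ℤ, (∀ i, 0 ≤ u i) ∧ T.χ u = x} := by
  unfold TorusField.std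
  rw [Algebra.adjoin_eq_span]
  refine Submodule.span_mono ?_
  intro x hx
  induction hx using Submonoid.closure_induction with
  | mem x hx =>
    obtain ⟨i, rfl⟩ := hx
    refine ⟨Pi.single i 1, fun j => ?_, rfl⟩
    by_cases h : j = i
    · subst h; simp
    · simp [Pi.single_eq_of_ne h]
  | one => exact ⟨0, fun _ => le_rfl, T.χ_zero⟩
  | mul x y _ _ hx hy =>
    obtain ⟨u, hu, rfl⟩ := hx
    obtain ⟨v, hv, rfl⟩ := hy
    exact ⟨u + v, fun i => add_nonneg (hu i) (hv i), T.χ_add u v⟩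

theorem chi_mem_std (T : TorusField n K) (u : Fin n → ℤ) (hu : ∀ i, 0 ≤ u i) : T.χ u ∈ T.std := by
  classical
  have h1 : ∀ (i : Fin n) (k : ℕ), T.χ (Pi.single i (k : ℤ)) ∈ T.std := by
    intro i k
    induction k with
    | zero =>
      have : (Pi.single i ((0:ℕ) : ℤ) : Fin n → ℤ) = 0 := by simp
      rw [this, T.χ_zero]; exact one_mem _
    | succ k ih =>
      have : (Pi.single i ((k+1 : ℕ) : ℤ) : Fin n → ℤ) = Pi.single i (k : ℤ) + Pi.single i 1 := by
        rw [← Pi.single_add]; push_cast; rfl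
      rw [this, T.χ_add]
      exact mul_mem ih (Algebra.subset_adjoin ⟨i, rfl⟩)
  have h2 : ∀ s : Finset (Fin n), T.χ (∑ i ∈ s, Pi.single i (u i)) ∈ T.std := by
    intro s
    induction s using Finset.induction_on with
    | empty => rw [Finset.sum_empty, T.χ_zero]; exact one_mem _
    | insert i s his ih =>
      rw [Finset.sum_insert his, T.χ_add]
      refine mul_mem ?_ ih
      have := h1 i (u i).toNat
      rwa [Int.toNat_of_nonneg (hu i)] at this
  have := h2 Finset.univ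
  rwa [Finset.univ_sum_single] at this

/-- Restriction to the divisor `x_0 = 0`. -/
theorem ker_res_zero (T : TorusField 3 K) (T' : TorusField 2 K') (B : Subalgebra ℂ K)
    (res : B →ₐ[ℂ] K') (hB : ∀ u : Fin 3 → ℤ, 0 ≤ u 0 → T.χ u ∈ B)
    (hres1 : ∀ (u : Fin 3 → ℤ) (h : 0 ≤ u 0), 0 < u 0 → res ⟨T.χ u, hB u h⟩ = 0)
    (hres2 : ∀ (u : Fin 3 → ℤ) (h : 0 ≤ u 0), u 0 = 0 → res ⟨T.χ u, hB u h⟩ = T'.χ ![u 1, u 2])
    (h : T.std ≤ B) (hx : T.χ (Pi.single 0 1) ∈ T.std) :
    (∀ a : T.std, res (Subalgebra.inclusion h a) = 0 ↔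
      a ∈ Ideal.span {(⟨T.χ (Pi.single 0 1), hx⟩ : T.std)}) ∧
    (res.comp (Subalgebra.inclusion h)).range = T'.std := by
  classical
  -- the section
  obtain ⟨f, hf⟩ : ∃ f : K' →ₗ[ℂ] K, ∀ v : Fin 2 → ℤ, f (T'.χ v) = T.χ ![0, v 0, v 1] := by
    let b := Module.Basis.span T'.li
    let f0 : Submodule.span ℂ (Set.range T'.χ) →ₗ[ℂ] K := b.constr ℂ (fun v => T.χ ![0, v 0, v 1])
    obtain ⟨f, hf⟩ := LinearMap.exists_extend f0
    refine ⟨f, fun v => ?_⟩
    have h1 : f0 (b v) = T.χ ![0, v 0, v 1] := b.constr_basis ℂ _ v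
    have h2 : f (b v : K') = f0 (b v) := by rw [← hf]; rfl
    have h3 : (b v : K') = T'.χ v := congrArg Subtype.val (Module.Basis.span_apply T'.li v)
    rw [← h3, h2, h1]
  let g : T.std →ₐ[ℂ] K' := res.comp (Subalgebra.inclusion h)
  have hg : ∀ (u : Fin 3 → ℤ) (hu : ∀ i, 0 ≤ u i), g ⟨T.χ u, chi_mem_std T u hu⟩ =
      res ⟨T.χ u, hB u (hu 0)⟩ := fun u hu => rfl
  have hgX : g ⟨T.χ (Pi.single 0 1), hx⟩ = 0 :=
    hres1 (Pi.single 0 1) (by simp) (by simp)
  have key : ∀ x ∈ Submodule.span ℂ {x | ∃ u : Fin 3 → ℤ, (∀ i, 0 ≤ u i) ∧ T.χ u = x},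
      ∃ hx' : x ∈ T.std, ∃ a1 : T.std, x = T.χ (Pi.single 0 1) * (a1 : K) + f (g ⟨x, hx'⟩) := by
    intro x hxs
    induction hxs using Submodule.span_induction with
    | mem x hx0 =>
      obtain ⟨u, hu, rfl⟩ := hx0
      refine ⟨chi_mem_std T u hu, ?_⟩
      rcases (hu 0).lt_or_eq with h0 | h0
      · have hu' : ∀ i, 0 ≤ (u - Pi.single 0 1 : Fin 3 → ℤ) i := by
          intro i
          by_cases hi : i = 0
          · subst hi; simp; omega
          · rw [Pi.sub_apply, Pi.single_eq_of_ne hi, sub_zero]; exact hu i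
        refine ⟨⟨T.χ (u - Pi.single 0 1), chi_mem_std T _ hu'⟩, ?_⟩
        rw [hg u hu, hres1 u (hu 0) h0, map_zero, add_zero]
        change T.χ u = T.χ (Pi.single 0 1) * T.χ (u - Pi.single 0 1)
        rw [← T.χ_add]
        congr 1
        abel
      · refine ⟨0, ?_⟩
        rw [hg u hu, hres2 u (hu 0) h0.symm, hf]
        have : (![0, (![u 1, u 2] : Fin 2 → ℤ) 0, (![u 1, u 2] : Fin 2 → ℤ) 1] : Fin 3 → ℤ) = u := by
          funext i
          fin_cases i
          · exact h0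
          · rfl
          · rfl
        rw [this]
        simp
    | zero =>
      refine ⟨zero_mem _, 0, ?_⟩
      have : g ⟨(0:K), zero_mem _⟩ = 0 := map_zero g
      rw [this]; simp
    | add x y _ _ hx1 hy1 =>
      obtain ⟨m1, a1, e1⟩ := hx1
      obtain ⟨m2, a2, e2⟩ := hy1
      refine ⟨add_mem m1 m2, a1 + a2, ?_⟩
      have : g ⟨x + y, add_mem m1 m2⟩ = g ⟨x, m1⟩ + g ⟨y, m2⟩ := map_add g ⟨x, m1⟩ ⟨y, m2⟩
      rw [this, map_add]
      conv_lhs => rw [e1, e2]
      push_cast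
      ring
    | smul c x _ hx1 =>
      obtain ⟨m1, a1, e1⟩ := hx1
      refine ⟨Subalgebra.smul_mem _ m1 c, c • a1, ?_⟩
      have : g ⟨c • x, Subalgebra.smul_mem _ m1 c⟩ = c • g ⟨x, m1⟩ := map_smul g c ⟨x, m1⟩
      rw [this, map_smul]
      conv_lhs => rw [e1]
      rw [smul_add]
      congr 1
      change c • (T.χ (Pi.single 0 1) * (a1 : K)) = T.χ (Pi.single 0 1) * (c • (a1 : K))
      rw [mul_smul_comm]
  constructor
  · intro a
    change g a = 0 ↔ _
    rw [Ideal.mem_span_singleton']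
    constructor
    · intro ha
      obtain ⟨m1, a1, e1⟩ := key a.1 (std_le_span T a.2)
      have ha' : g ⟨a.1, m1⟩ = 0 := ha
      rw [ha', map_zero, add_zero] at e1
      refine ⟨a1, Subtype.ext ?_⟩
      change (a1 : K) * T.χ (Pi.single 0 1) = a.1
      rw [e1, mul_comm]
    · rintro ⟨b, rfl⟩
      rw [map_mul, hgX, mul_zero]
  · apply le_antisymm
    · rintro _ ⟨a, rfl⟩
      change g a ∈ T'.std
      obtain ⟨a, ha⟩ := a
      unfold TorusField.std at ha
      induction ha using Algebra.adjoin_induction with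
      | mem x hx0 =>
        obtain ⟨i, rfl⟩ := hx0
        have hi : ∀ j, 0 ≤ (Pi.single i 1 : Fin 3 → ℤ) j := by
          intro j
          by_cases hj : j = i
          · subst hj; simp
          · rw [Pi.single_eq_of_ne hj]
        have e1 : g ⟨T.χ (Pi.single i 1), chi_mem_std T _ hi⟩ = res ⟨T.χ (Pi.single i 1), hB _ (hi 0)⟩ :=
          hg _ hi
        change g ⟨T.χ (Pi.single i 1), chi_mem_std T _ hi⟩ ∈ T'.std
        rw [e1]
        by_cases h0 : i = 0
        · subst h0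
          rw [hres1 _ (hi 0) (by simp)]
          exact zero_mem _
        · have hz : (Pi.single i 1 : Fin 3 → ℤ) 0 = 0 := Pi.single_eq_of_ne (Ne.symm h0) _
          rw [hres2 _ (hi 0) hz]
          refine chi_mem_std T' _ ?_
          intro j
          fin_cases j
          · exact hi 1
          · exact hi 2
      | algebraMap r =>
        have : g ⟨algebraMap ℂ K r, Subalgebra.algebraMap_mem _ r⟩ = algebraMap ℂ K' r := g.commutes r
        rw [this]
        exact Subalgebra.algebraMap_mem _ r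
      | add x y hx1 hy1 h1 h2 =>
        have : g ⟨x + y, add_mem hx1 hy1⟩ = g ⟨x, hx1⟩ + g ⟨y, hy1⟩ := map_add g ⟨x, hx1⟩ ⟨y, hy1⟩
        rw [this]
        exact add_mem h1 h2
      | mul x y hx1 hy1 h1 h2 =>
        have : g ⟨x * y, mul_mem hx1 hy1⟩ = g ⟨x, hx1⟩ * g ⟨y, hy1⟩ := map_mul g ⟨x, hx1⟩ ⟨y, hy1⟩
        rw [this]
        exact mul_mem h1 h2
    · unfold TorusField.std
      refine Algebra.adjoin_le ?_
      rintro _ ⟨i, rfl⟩
      fin_cases i
      · have hi : ∀ j, 0 ≤ (![0, 1, 0] : Fin 3 → ℤ) j := by intro j; fin_cases j <;> simp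
        refine ⟨⟨T.χ ![0, 1, 0], chi_mem_std T _ hi⟩, ?_⟩
        refine (hg _ hi).trans ((hres2 _ (hi 0) (by simp)).trans ?_)
        simp only [Fin.isValue]
        congr 1
        funext j
        fin_cases j <;> simp
      · have hi : ∀ j, 0 ≤ (![0, 0, 1] : Fin 3 → ℤ) j := by intro j; fin_cases j <;> simp
        refine ⟨⟨T.χ ![0, 0, 1], chi_mem_std T _ hi⟩, ?_⟩
        refine (hg _ hi).trans ((hres2 _ (hi 0) (by simp)).trans ?_)
        simp only [Fin.isValue]
        congr 1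
        funext j
        fin_cases j <;> simp

end Pool.Agent.Helper774.KStab
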