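import Pool.Agent.Helper774.KStab.FibreF1
import Pool.Agent.Helper774.KStab.ResZero
import Pool.Agent.Helper774.KStab.ClosedPtZero

open scoped ENNReal

noncomputable section

namespace Pool.Agent.Helper774.KStab

/-- projection of exponents -/
def j9618_L : (Fin 3 → ℤ) →+ (Fin 2 → ℤ) where
  toFun u := ![u 1, u 2]
  map_zero' := by
    funext i
    fin_cases i <;> rfl
  map_add' u v := by
    funext i
    fin_cases i <;> rfl

/-- pairing with the first ray -/
def j9618_rho (a : Bool) : (Fin 3 → ℤ) →+ ℤ where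
  toFun u := u 0 * sg a - ind a * sg a * u 2
  map_zero' := by simp
  map_add' u v := by
    simp only [Pi.add_apply]
    ring

theorem j9618_rho_E (a b c : Bool) (u : Fin 3 → ℤ) :
    j9618_rho a (Matrix.vecMul u (dataX.E (a, b, c))) = u 0 := by
  show (Matrix.vecMul u (dataX.E (a, b, c))) 0 * sg a -
    ind a * sg a * (Matrix.vecMul u (dataX.E (a, b, c))) 2 = u 0
  cases a <;> cases b <;> cases c <;>
    simp [Matrix.vecMul, dotProduct, Fin.sum_univ_three, dataX, sg, ind]

theorem j9618_L_E (a b c : Bool) (u : Fin 3 → ℤ) :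
    j9618_L (Matrix.vecMul u (dataX.E (a, b, c))) = Matrix.vecMul ![u 1, u 2] (dataF1.E (b, c)) := by
  show ![(Matrix.vecMul u (dataX.E (a, b, c))) 1, (Matrix.vecMul u (dataX.E (a, b, c))) 2] = _
  funext i
  fin_cases i <;> cases a <;> cases b <;> cases c <;>
    simp [Matrix.vecMul, dotProduct, Fin.sum_univ_three, Fin.sum_univ_two, dataX, dataF1, sg, ind]

theorem j9618_single (a b c : Bool) :
    Matrix.vecMul (Pi.single 0 1 : Fin 3 → ℤ) (dataX.E (a, b, c)) = ![sg a, 0, 0] := by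
  cases a <;> cases b <;> cases c <;> decide

theorem j9618_single1 (a : Bool) :
    Matrix.vecMul (Pi.single 0 1 : Fin 1 → ℤ) (dataP1.E a) = ![sg a] := by
  cases a <;> decide

/-- The fibres of the projection over the closed points `0, ∞` are `F_1` as well. -/
theorem fibre_F1_zero {K₁ K₂ K₃ : Type} [Field K₁] [Algebra ℂ K₁] [Field K₂] [Algebra ℂ K₂]
    [Field K₃] [Algebra ℂ K₃] (T₁ : TorusField 1 K₁) (T₂ : TorusField 2 K₂) (T₃ : TorusField 3 K₃)
    (f : Morph (toricVariety T₃ dataX) (toricVariety T₁ dataP1))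
    (hφ : ∀ u : Fin 1 → ℤ, f.φ (T₁.χ u) = T₃.χ ![u 0, 0, 0]) (hj : ∀ s, f.j s = s.1)
    (y : ClosedPoint (toricVariety T₁ dataP1))
    (h : ¬ (y.Regular (T₁.χ ![1]) ∧ y.Regular (T₁.χ ![1])⁻¹)) :
    f.IsFibreAux y (toricVariety T₂ dataF1) := by
  obtain ⟨a, ha1, ha2⟩ := closedPoint_P1_zero T₁ y h
  obtain ⟨B, res, hB, hr1, hr2⟩ := exists_res_zero T₃ T₂ j9618_L (j9618_rho a)
  have hfst : ∀ i : Bool × Bool × Bool,
      (∀ s ∈ (T₁.at dataP1 (f.j i)).std, y.Regular s) ↔ i.1 = a := by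
    intro i
    have h1 := ha1 (f.j i)
    have h2 : f.j i = i.1 := hj i
    exact h1.trans (by rw [h2])
  have hgen1 : T₁.χ ![sg a] ∈ (T₁.at dataP1 a).std := by
    apply Algebra.subset_adjoin
    refine ⟨0, ?_⟩
    show T₁.χ (Matrix.vecMul (Pi.single 0 1 : Fin 1 → ℤ) (dataP1.E a)) = T₁.χ ![sg a]
    rw [j9618_single1]
  have main : ∀ i : Bool × Bool × Bool, i.1 = a → ∃ h : (T₃.at dataX i).std ≤ B,
      (∀ b : (T₃.at dataX i).std, res (Subalgebra.inclusion h b) = 0 ↔
        b ∈ Ideal.span {b : (toricVariety T₃ dataX).chart i |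
          ∃ s : (toricVariety T₁ dataP1).chart (f.j i), y.Vanishes s ∧ b = f.chartMap i s}) ∧
      (res.comp (Subalgebra.inclusion h)).range = (T₂.at dataF1 i.2).std := by
    rintro ⟨a', b, c⟩ hi
    have hi' : a' = a := hi
    subst hi'
    have hja : f.j (a', b, c) = a' := hj _
    have hBu : ∀ u : Fin 3 → ℤ, 0 ≤ u 0 → (T₃.at dataX (a', b, c)).χ u ∈ B := by
      intro u hu
      exact hB _ (by rw [j9618_rho_E]; exact hu)
    have hstd : (T₃.at dataX (a', b, c)).std ≤ B := by
      apply Algebra.adjoin_le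
      rintro _ ⟨i, rfl⟩
      apply hBu
      by_cases hi0 : i = 0
      · rw [hi0]; simp
      · rw [Pi.single_eq_of_ne (Ne.symm hi0)]
    have hx : (T₃.at dataX (a', b, c)).χ (Pi.single 0 1) ∈ (T₃.at dataX (a', b, c)).std :=
      Algebra.subset_adjoin ⟨0, rfl⟩
    have hk := ker_res_zero (T₃.at dataX (a', b, c)) (T₂.at dataF1 (b, c)) B res hBu
      (by
        intro u hu0 hu
        exact hr1 _ (by rw [j9618_rho_E]; exact hu0) (by rw [j9618_rho_E]; exact hu))
      (by
        intro u hu0 hu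
        have h1 := hr2 (Matrix.vecMul u (dataX.E (a', b, c))) (by rw [j9618_rho_E]; exact hu0)
          (by rw [j9618_rho_E]; exact hu)
        rw [j9618_L_E] at h1
        exact h1) hstd hx
    refine ⟨hstd, ?_, hk.2⟩
    intro g
    rw [hk.1 g]
    have hgen : (T₃.at dataX (a', b, c)).χ (Pi.single 0 1) = T₃.χ ![sg a', 0, 0] := by
      show T₃.χ (Matrix.vecMul (Pi.single 0 1 : Fin 3 → ℤ) (dataX.E (a', b, c))) = _
      rw [j9618_single]
    have hspan : Ideal.span {(⟨(T₃.at dataX (a', b, c)).χ (Pi.single 0 1), hx⟩ :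
        (T₃.at dataX (a', b, c)).std)} =
        Ideal.span {b_1 : (toricVariety T₃ dataX).chart (a', b, c) |
          ∃ s : (toricVariety T₁ dataP1).chart (f.j (a', b, c)), y.Vanishes s ∧
            b_1 = f.chartMap (a', b, c) s} := by
      apply le_antisymm
      · rw [Ideal.span_le, Set.singleton_subset_iff]
        apply Ideal.subset_span
        have hm : T₁.χ ![sg a'] ∈ (toricVariety T₁ dataP1).chart (f.j (a', b, c)) := by
          rw [hja]; exact hgen1
        refine ⟨⟨T₁.χ ![sg a'], hm⟩, ?_, ?_⟩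
        · exact (ha2 _ hgen1).2 ⟨1, Subalgebra.one_mem _, (one_mul _).symm⟩
        · apply Subtype.ext
          show (T₃.at dataX (a', b, c)).χ (Pi.single 0 1) = f.φ (T₁.χ ![sg a'])
          rw [hgen, hφ]
          rfl
      · rw [Ideal.span_le]
        rintro _ ⟨s, hs, rfl⟩
        have hsm : (s : K₁) ∈ (T₁.at dataP1 a').std := by
          have h0 : ∀ (t : Bool) (_ : t = a') (s : K₁), s ∈ (toricVariety T₁ dataP1).chart t →
              s ∈ (T₁.at dataP1 a').std := by
            rintro t rfl s hs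
            exact hs
          exact h0 _ hja _ s.2
        obtain ⟨r, hr, hsr⟩ := (ha2 _ hsm).1 hs
        have hrm : r ∈ (toricVariety T₁ dataP1).chart (f.j (a', b, c)) := by
          rw [hja]; exact hr
        have e : f.chartMap (a', b, c) s = f.chartMap (a', b, c) ⟨r, hrm⟩ *
            (⟨(T₃.at dataX (a', b, c)).χ (Pi.single 0 1), hx⟩ : (T₃.at dataX (a', b, c)).std) := by
          apply Subtype.ext
          show f.φ (s : K₁) = f.φ r * (T₃.at dataX (a', b, c)).χ (Pi.single 0 1)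
          rw [hsr, map_mul, hφ, hgen]
          rfl
        rw [e]
        exact Ideal.mul_mem_left _ _ (Ideal.subset_span rfl)
    rw [hspan]
  refine ⟨B, res, ?_, ?_⟩
  · intro i hi
    obtain ⟨h', h1, h2⟩ := main i ((hfst i).1 hi)
    exact ⟨h', h1, i.2, h2⟩
  · intro k
    refine ⟨(a, k), (hfst _).2 rfl, ?_⟩
    obtain ⟨h', h1, h2⟩ := main (a, k) rfl
    exact ⟨h', h2⟩

end Pool.Agent.Helper774.KStab
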