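import Pool.Agent.Helper774.KStab.Fano

open scoped ENNReal

noncomputable section

namespace Pool.Agent.Helper774.KStab

section targets

theorem KS14_fin {X : Variety} (E : X.DivVal) {x : X.K} (hx : x ≠ 0) :
    ∃ k : ℤ, E.v x = (k : WithTop ℤ) := by
  have h : E.v x ≠ ⊤ := by
    rw [Ne, AddValuation.top_iff]
    exact hx
  obtain ⟨k, hk⟩ := WithTop.ne_top_iff_exists.1 h
  exact ⟨k, hk.symm⟩

/-- A divisorial valuation as an integer valued function. -/
def Variety.DivVal.intVal {X : Variety} (E : X.DivVal) : IntVal X.K where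
  w x := (E.v x).untopD 0
  mul := by
    intro x y hx hy
    obtain ⟨k, hk⟩ := KS14_fin E hx
    obtain ⟨l, hl⟩ := KS14_fin E hy
    rw [AddValuation.map_mul, hk, hl, ← WithTop.coe_add, WithTop.untopD_coe, WithTop.untopD_coe,
      WithTop.untopD_coe]
  add := by
    intro x y hx hy hxy
    obtain ⟨k, hk⟩ := KS14_fin E hx
    obtain ⟨l, hl⟩ := KS14_fin E hy
    obtain ⟨r, hr⟩ := KS14_fin E hxy
    have h := E.v.map_add x y
    rw [hk, hl, hr] at h
    rw [hk, hl, hr, WithTop.untopD_coe, WithTop.untopD_coe, WithTop.untopD_coe]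
    rw [← WithTop.coe_min] at h
    exact WithTop.coe_le_coe.1 h
  triv := by
    intro c hc
    rw [E.triv c hc]
    rfl

theorem Variety.DivVal.coe_intVal {X : Variety} (E : X.DivVal) (x : X.K) (hx : x ≠ 0) :
    E.v x = ((E.intVal.w x : ℤ) : WithTop ℤ) := by
  obtain ⟨k, hk⟩ := KS14_fin E hx
  show E.v x = (((E.v x).untopD 0 : ℤ) : WithTop ℤ)
  rw [hk, WithTop.untopD_coe]

variable {n : ℕ} {K : Type} [Field K] [Algebra ℂ K]

theorem KS14_vec {n : ℕ} (M : Matrix (Fin n) (Fin n) ℤ) :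
    Matrix.vecMul (fun _ => 1) M = ∑ k, M k := by
  funext j
  calc Matrix.vecMul (fun _ => 1) M j = ∑ k, 1 * M k j := rfl
    _ = ∑ k, M k j := by simp
    _ = (∑ k, M k) j := (Finset.sum_apply j Finset.univ (fun k => (M k : Fin n → ℤ))).symm

theorem KS14_top_eq (T : TorusField n K) (D : ToricData n) (σ : D.ι) :
    (T.at D σ).χ (fun _ => 1) = T.top D σ := by
  show T.χ (Matrix.vecMul (fun _ => 1) (D.E σ)) = T.χ (∑ k, D.E σ k)
  congr 1
  exact KS14_vec (D.E σ)

theorem KS14_jac (T : TorusField n K) (D : ToricData n) (σ : D.ι) (g : Fin n → K) :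
    ∃ ε : K, (ε = 1 ∨ ε = -1) ∧
      (toricVariety T D).jac g = ε * Matrix.det (Matrix.of fun i j => (T.at D σ).θ i (g j)) ∧
      Matrix.det (Matrix.of fun i j => (T.at D σ).θ i (g j)) = ε * (toricVariety T D).jac g := by
  have h := T.det_reindex (D.E σ) (D.R σ) (D.inv σ) g
  have hj := toric_jac T D g
  have h' : Matrix.det (Matrix.of fun i j => (T.at D σ).θ i (g j)) =
      (((D.R σ).det : ℤ) : K) * (toricVariety T D).jac g := by
    rw [hj]; exact h
  rcases TorusField.det_unit (D.E σ) (D.R σ) (D.inv σ) with hu | hu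
  · refine ⟨1, Or.inl rfl, ?_, ?_⟩
    · rw [h', hu]; simp
    · rw [h', hu]; simp
  · refine ⟨-1, Or.inr rfl, ?_, ?_⟩
    · rw [h', hu]; simp
    · rw [h', hu]; simp

theorem KS14_forms_mem (T : TorusField n K) (D : ToricData n) (σ : D.ι) :
    ∃ ε : K, (ε = 1 ∨ ε = -1) ∧ ∃ g : Fin n → K, (∀ j, g j ∈ (T.at D σ).std) ∧
      (toricVariety T D).jac g = ε * T.top D σ := by
  obtain ⟨ε, hε, h1, _⟩ := KS14_jac T D σ (fun j => (T.at D σ).χ (Pi.single j 1))
  refine ⟨ε, hε, (fun j => (T.at D σ).χ (Pi.single j 1)), ?_, ?_⟩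
  · intro j
    exact Algebra.subset_adjoin ⟨j, rfl⟩
  · rw [h1, TorusField.det_coord, KS14_top_eq]

theorem KS14_chi_ne (T : TorusField n K) (u : Fin n → ℤ) : T.χ u ≠ 0 := by
  intro h
  have h1 := T.χ_add u (-u)
  rw [add_neg_cancel, T.χ_zero, h, zero_mul] at h1
  exact one_ne_zero h1

theorem KS14_one {K : Type} [Field K] [Algebra ℂ K] (w : IntVal K) : w.w 1 = 0 := by
  have := w.triv 1 one_ne_zero
  rwa [map_one] at this

theorem KS14_neg {K : Type} [Field K] [Algebra ℂ K] (w : IntVal K) {x : K} (hx : x ≠ 0) :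
    w.w (-x) = w.w x := by
  have h := w.triv (-1) (by norm_num)
  have hm1 : (-1 : K) ≠ 0 := by simp
  have h1 : algebraMap ℂ K (-1) = -1 := by simp
  rw [h1] at h
  have h2 := w.mul (-1) x hm1 hx
  rw [neg_one_mul, h, zero_add] at h2
  exact h2

theorem KS14_eps {K : Type} [Field K] [Algebra ℂ K] (w : IntVal K) {ε x : K}
    (hε : ε = 1 ∨ ε = -1) (hx : x ≠ 0) : w.w (ε * x) = w.w x := by
  rcases hε with rfl | rfl
  · rw [one_mul]
  · rw [neg_one_mul, KS14_neg w hx]

theorem KS14_sum (T : TorusField n K) (w : IntVal K) {ι : Type} (s : Finset ι)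
    (u : ι → Fin n → ℤ) : w.w (T.χ (∑ j ∈ s, u j)) = ∑ j ∈ s, w.w (T.χ (u j)) := by
  classical
  induction s using Finset.induction_on with
  | empty => rw [Finset.sum_empty, Finset.sum_empty, T.χ_zero, KS14_one]
  | insert a s ha ih =>
    rw [Finset.sum_insert ha, Finset.sum_insert ha, T.χ_add,
      w.mul _ _ (KS14_chi_ne T _) (KS14_chi_ne T _), ih]

theorem KS14_top_sum (T : TorusField n K) (D : ToricData n) (σ : D.ι) (w : IntVal K) :
    ∑ j, w.w ((T.at D σ).χ (Pi.single j 1)) = w.w (T.top D σ) := by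
  rw [← KS14_top_eq, ← KS14_sum (T.at D σ) w Finset.univ (fun j => Pi.single j 1)]
  congr 2
  exact Finset.univ_sum_single (fun _ : Fin n => (1 : ℤ))

/-- the valuation ring -/
def KS14_ring {X : Variety} (E : X.DivVal) : ValuationSubring X.K where
  carrier := {f | 0 ≤ E.v f}
  mul_mem' := by
    intro a b ha hb
    show 0 ≤ E.v (a * b)
    rw [AddValuation.map_mul]
    exact add_nonneg ha hb
  one_mem' := by
    show 0 ≤ E.v 1
    rw [AddValuation.map_one]
  add_mem' := by
    intro a b ha hb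
    show 0 ≤ E.v (a + b)
    exact (le_min ha hb).trans (E.v.map_add a b)
  zero_mem' := by
    show 0 ≤ E.v 0
    rw [AddValuation.map_zero]
    exact le_top
  neg_mem' := by
    intro a ha
    show 0 ≤ E.v (-a)
    rw [AddValuation.map_neg]
    exact ha
  mem_or_inv_mem' := by
    intro x
    by_cases hx : x = 0
    · left
      rw [hx]
      show 0 ≤ E.v 0
      rw [AddValuation.map_zero]
      exact le_top
    · have h1 := E.intVal.mul x x⁻¹ hx (inv_ne_zero hx)
      rw [mul_inv_cancel₀ hx, KS14_one] at h1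
      rcases le_total 0 (E.intVal.w x) with h | h
      · left
        show 0 ≤ E.v x
        rw [E.coe_intVal x hx]
        exact_mod_cast h
      · right
        show 0 ≤ E.v x⁻¹
        rw [E.coe_intVal _ (inv_ne_zero hx)]
        have : 0 ≤ E.intVal.w x⁻¹ := by omega
        exact_mod_cast this

/-- The Newton polytope bound for the filtration given by a divisorial valuation. -/
theorem toric_filt_bound (T : TorusField n K) (D : ToricData n) (E : (toricVariety T D).DivVal)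
    (hlog : E.logDisc ≠ ⊤) :
    ∃ (σ : D.ι) (a : Fin n → ℤ), (∀ j, 0 ≤ a j) ∧
      ENNReal.ofReal (∑ j, (a j : ℝ)) ≤ E.logDisc ∧
      ∀ (m : ℕ) (t : ℝ), (D.pts m).Finite →
        Module.finrank ℂ (E.filt m t) ≤
          {u ∈ D.pts m | (m : ℝ) * t ≤
            ∑ j, (a j : ℝ) * ((Matrix.vecMul u (D.R σ) j : ℤ) + (m : ℝ))}.ncard := by
  classical
  -- the chart
  obtain ⟨σ, hσ⟩ := (toricVariety T D).complete (KS14_ring E) (by
    intro c
    show 0 ≤ E.v (algebraMap ℂ K c)
    by_cases hc : c = 0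
    · rw [hc, map_zero, AddValuation.map_zero]
      exact le_top
    · rw [E.triv c hc])
  have hσ' : ∀ f ∈ (T.at D σ).std, f ∈ E.ring := fun f hf => hσ f hf
  have htop := toric_canOrd T D E σ hσ'
  set w : IntVal K := E.intVal with hw
  have hcoe : ∀ x : K, x ≠ 0 → E.v x = ((w.w x : ℤ) : WithTop ℤ) := fun x hx => E.coe_intVal x hx
  have htop0 : T.top D σ ≠ 0 := KS14_chi_ne T _
  have hkap : w.w (T.top D σ) = E.canOrd := by
    rw [hcoe _ htop0] at htop
    exact_mod_cast htop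
  -- the set of values of top forms
  obtain ⟨ε, hε, g₀, hg₀, hjac⟩ := KS14_forms_mem T D σ
  have hne : ∃ k : ℤ, ∃ a ∈ (toricVariety T D).forms E.ring, E.v a = k := by
    refine ⟨E.canOrd, (toricVariety T D).jac g₀, ⟨g₀, fun j => hσ' _ (hg₀ j), rfl⟩, ?_⟩
    have hne0 : ε * T.top D σ ≠ 0 := by
      rcases hε with rfl | rfl
      · simpa using htop0
      · simpa using htop0
    rw [hjac, hcoe _ hne0, KS14_eps w hε htop0, hkap]
  have hbdd : ∃ b : ℤ, ∀ k : ℤ, (∃ a ∈ (toricVariety T D).forms E.ring, E.v a = k) → b ≤ k := by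
    by_contra hcon
    push Not at hcon
    apply hlog
    apply ENNReal.eq_top_of_forall_nnreal_le
    intro r
    obtain ⟨k, hk, hkb⟩ := hcon (1 + E.canOrd - ⌈(r : ℝ)⌉)
    have h1 : ENNReal.ofReal (1 + E.canOrd - k) ≤ E.logDisc := by
      unfold Variety.DivVal.logDisc
      exact le_iSup₂ (f := fun (k : ℤ) (_ : k ∈ {k : ℤ | ∃ a ∈ (toricVariety T D).forms E.ring,
        E.v a = k}) => ENNReal.ofReal (1 + E.canOrd - k)) k hk
    refine le_trans ?_ h1
    have h2 : (r : ℝ) ≤ 1 + E.canOrd - k := by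
      have h3 : (r : ℝ) ≤ ⌈(r : ℝ)⌉ := Int.le_ceil _
      have h4 : (k : ℝ) < ((1 + E.canOrd - ⌈(r : ℝ)⌉ : ℤ) : ℝ) := by exact_mod_cast hkb
      push_cast at h4
      linarith
    calc (r : ENNReal) = ENNReal.ofReal (r : ℝ) := (ENNReal.ofReal_coe_nnreal).symm
      _ ≤ _ := ENNReal.ofReal_le_ofReal h2
  obtain ⟨k0, hk0, hk0min⟩ := Int.exists_least_of_bdd hbdd hne
  have hld : ENNReal.ofReal (1 + E.canOrd - k0) ≤ E.logDisc := by
    unfold Variety.DivVal.logDisc
    exact le_iSup₂ (f := fun (k : ℤ) (_ : k ∈ {k : ℤ | ∃ a ∈ (toricVariety T D).forms E.ring,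
      E.v a = k}) => ENNReal.ofReal (1 + E.canOrd - k)) k0 hk0
  -- the logarithmic bound
  have hnorm : ∃ z : K, z ≠ 0 ∧ w.w z = 1 := by
    obtain ⟨z, hz⟩ := E.normalised
    have hz0 : z ≠ 0 := by
      rintro rfl
      rw [AddValuation.map_zero] at hz
      exact absurd hz (by simp)
    refine ⟨z, hz0, ?_⟩
    have h1 := hcoe z hz0
    rw [hz] at h1
    have h2 : ((1 : ℤ) : WithTop ℤ) = ((w.w z : ℤ) : WithTop ℤ) := h1
    exact (WithTop.coe_injective h2).symm
  have hlb := log_bound (fun i => T.θ i) w hnorm k0 (by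
    intro g hg hdet
    apply hk0min
    refine ⟨Matrix.det (Matrix.of fun i j => T.θ i (g j)), ⟨g, ?_, ?_⟩, hcoe _ hdet⟩
    · intro j
      show 0 ≤ E.v (g j)
      by_cases h0 : g j = 0
      · rw [h0, AddValuation.map_zero]; exact le_top
      · rcases hg j with h | h
        · exact absurd h h0
        · rw [hcoe _ h0]
          exact_mod_cast h
    · exact (toric_jac T D g).symm)
  obtain ⟨μ, hμ0, hμs, hμ⟩ := exists_losses (T.at D σ) w (1 - k0) (by
    intro g hdet
    obtain ⟨ε', hε', h1, h2⟩ := KS14_jac T D σ g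
    rw [toric_jac] at h1 h2
    have hd : Matrix.det (Matrix.of fun i j => T.θ i (g j)) ≠ 0 := by
      intro h0
      rw [h0, mul_zero] at h2
      exact hdet h2
    rw [h2, KS14_eps w hε' hd]
    exact hlb g hd)
  have hcsum := KS14_top_sum T D σ w
  rw [hkap] at hcsum
  refine ⟨σ, fun j => w.w ((T.at D σ).χ (Pi.single j 1)) + μ j, ?_, ?_, ?_⟩
  · intro j
    have h1 : (T.at D σ).χ (Pi.single j 1) ∈ (T.at D σ).std := Algebra.subset_adjoin ⟨j, rfl⟩
    have h2 : 0 ≤ E.v ((T.at D σ).χ (Pi.single j 1)) := hσ' _ h1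
    rw [hcoe _ (KS14_chi_ne _ _)] at h2
    have h3 : 0 ≤ w.w ((T.at D σ).χ (Pi.single j 1)) := by exact_mod_cast h2
    exact add_nonneg h3 (hμ0 j)
  · refine le_trans (ENNReal.ofReal_le_ofReal ?_) hld
    have h1 : ∑ j, (w.w ((T.at D σ).χ (Pi.single j 1)) + μ j) ≤ 1 + E.canOrd - k0 := by
      rw [Finset.sum_add_distrib, hcsum]
      linarith
    exact_mod_cast h1
  · intro m t hfin
    set Us : Set (Fin n → ℤ) := {u ∈ D.pts m | (m : ℝ) * t ≤
            ∑ j, ((w.w ((T.at D σ).χ (Pi.single j 1)) + μ j : ℤ) : ℝ) *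
              ((Matrix.vecMul u (D.R σ) j : ℤ) + (m : ℝ))} with hUs
    have hUfin : Us.Finite := hfin.subset fun u hu => hu.1
    show Module.finrank ℂ (E.filt m t) ≤ Us.ncard
    rw [Set.ncard_eq_toFinset_card _ hUfin]
    apply finrank_le_card T.χ T.li
    intro f hf hf0
    obtain ⟨hfa, hft⟩ := hf
    rw [toric_antican, Finsupp.mem_span_image_iff_linearCombination] at hfa
    obtain ⟨c, hc, hcf⟩ := hfa
    rw [Finsupp.mem_supported] at hc
    refine ⟨c, hcf.symm, ?_⟩
    have hc0 : c ≠ 0 := by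
      rintro rfl
      rw [map_zero] at hcf
      exact hf0 hcf.symm
    -- change of coordinates
    have h1 : D.E σ * D.R σ = 1 := D.inv σ
    have h2 : D.R σ * D.E σ = 1 := mul_eq_one_comm.1 h1
    let ρ : (Fin n → ℤ) → (Fin n → ℤ) := fun u => Matrix.vecMul u (D.R σ)
    have hρ : Function.Injective ρ := by
      intro u v huv
      have h3 : Matrix.vecMul (ρ u) (D.E σ) = Matrix.vecMul (ρ v) (D.E σ) := by rw [huv]
      simp only [ρ, Matrix.vecMul_vecMul, h2, Matrix.vecMul_one] at h3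
      exact h3
    have hsupp : (c.mapDomain ρ).support = c.support.image ρ :=
      Finsupp.mapDomain_support_of_injective hρ c
    have hlc : Finsupp.linearCombination ℂ (T.at D σ).χ (c.mapDomain ρ) = f := by
      rw [Finsupp.linearCombination_mapDomain, ← hcf]
      congr 2
      funext u
      show T.χ (Matrix.vecMul (Matrix.vecMul u (D.R σ)) (D.E σ)) = T.χ u
      rw [Matrix.vecMul_vecMul, h2, Matrix.vecMul_one]
    have hc'0 : c.mapDomain ρ ≠ 0 := by
      intro h
      rw [h, map_zero] at hlc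
      exact hf0 hlc.symm
    obtain ⟨u', hu', hest⟩ := lead_estimate (T.at D σ) w μ hμ0 hμ (m : ℤ) (c.mapDomain ρ) hc'0 (by
      intro u' hu' i
      rw [hsupp, Finset.mem_image] at hu'
      obtain ⟨u, hu, rfl⟩ := hu'
      exact hc hu σ i)
    rw [hsupp, Finset.mem_image] at hu'
    obtain ⟨u, hu, rfl⟩ := hu'
    rw [hlc] at hest
    refine ⟨u, ?_, Finsupp.mem_support_iff.1 hu⟩
    rw [Set.Finite.mem_toFinset]
    refine ⟨hc hu, ?_⟩
    have h3 := hft (w.w f) (hcoe f hf0)
    have h4 : ∑ j, (w.w ((T.at D σ).χ (Pi.single j 1)) + μ j) * (ρ u j + (m : ℤ))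
        = ∑ i, (ρ u i * w.w ((T.at D σ).χ (Pi.single i 1)) + (ρ u i + m) * μ i)
          + m * E.canOrd := by
      rw [← hcsum, Finset.mul_sum, ← Finset.sum_add_distrib]
      refine Finset.sum_congr rfl fun j _ => ?_
      ring
    have h5 : w.w f + m * E.canOrd
        ≤ ∑ j, (w.w ((T.at D σ).χ (Pi.single j 1)) + μ j) * (ρ u j + (m : ℤ)) := by
      rw [h4]
      linarith
    have h6 : ((w.w f + m * E.canOrd : ℤ) : ℝ)
        ≤ ((∑ j, (w.w ((T.at D σ).χ (Pi.single j 1)) + μ j) * (ρ u j + (m : ℤ)) : ℤ) : ℝ) := by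
      exact_mod_cast h5
    push_cast at h6 ⊢
    exact h3.trans h6

end targets

end Pool.Agent.Helper774.KStab
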