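import Pool.Agent.Helper774.KStab.Torus

open scoped ENNReal

noncomputable section

namespace Pool.Agent.Helper774.KStab

variable {n : ℕ} {K : Type} [Field K] [Algebra ℂ K]


theorem lc_inj (T : TorusField n K) : Function.Injective (Finsupp.linearCombination ℂ T.χ) := T.li

theorem lc_ne (T : TorusField n K) {c : (Fin n → ℤ) →₀ ℂ} (hc : c ≠ 0) :
    Finsupp.linearCombination ℂ T.χ c ≠ 0 := fun h => hc (lc_inj T (by rw [h, map_zero]))

/-- the characters as a monoid homomorphism -/
def chiHom (T : TorusField n K) : Multiplicative (Fin n → ℤ) →* K where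
  toFun u := T.χ u.toAdd
  map_one' := T.χ_zero
  map_mul' _ _ := T.χ_add _ _

/-- the characters with their `i`-th order -/
def serHom (T : TorusField n K) (i : Fin n) :
    Multiplicative (Fin n → ℤ) →* HahnSeries ℤ K where
  toFun u := HahnSeries.single (u.toAdd i) (T.χ u.toAdd)
  map_one' := by
    show HahnSeries.single ((0 : Fin n → ℤ) i) (T.χ 0) = 1
    rw [T.χ_zero]; rfl
  map_mul' u v := by
    show HahnSeries.single ((u.toAdd + v.toAdd) i) (T.χ (u.toAdd + v.toAdd)) = _
    rw [T.χ_add, HahnSeries.single_mul_single]; rfl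

abbrev LP (n : ℕ) := AddMonoidAlgebra ℂ (Fin n → ℤ)

def phiA (T : TorusField n K) : LP n →ₐ[ℂ] K := AddMonoidAlgebra.lift ℂ K (Fin n → ℤ) (chiHom T)

attribute [-instance] HahnSeries.powerSeriesAlgebra in
def psiA (T : TorusField n K) (i : Fin n) : LP n →ₐ[ℂ] HahnSeries ℤ K :=
  AddMonoidAlgebra.lift ℂ (HahnSeries ℤ K) (Fin n → ℤ) (serHom T i)

theorem phiA_apply (T : TorusField n K) (x : LP n) :
    phiA T x = Finsupp.linearCombination ℂ T.χ x.coeff := by
  rw [phiA, AddMonoidAlgebra.lift_apply, Finsupp.linearCombination_apply]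
  rfl

attribute [-instance] HahnSeries.powerSeriesAlgebra in
theorem psiA_coeff (T : TorusField n K) (i : Fin n) (x : LP n) (k : ℤ) :
    (psiA T i x).coeff k =
      Finsupp.linearCombination ℂ T.χ (x.coeff.filter fun u => u i = k) := by
  classical
  rw [psiA, AddMonoidAlgebra.lift_apply, Finsupp.sum, HahnSeries.coeff_sum,
    Finsupp.linearCombination_apply, Finsupp.sum, Finsupp.support_filter, Finset.sum_filter]
  refine Finset.sum_congr rfl fun u _ => ?_
  show (x.coeff u • HahnSeries.single (u i) (T.χ u)).coeff k = _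
  rw [HahnSeries.coeff_smul, HahnSeries.coeff_single]
  by_cases h : u i = k
  · rw [if_pos h.symm, if_pos h, Finsupp.filter_apply_pos (fun v : Fin n → ℤ => v i = k) _ h]
  · rw [if_neg (fun h' => h h'.symm), if_neg h, smul_zero]

theorem phiA_inj (T : TorusField n K) : Function.Injective (phiA T) := by
  intro x y h
  rw [phiA_apply, phiA_apply] at h
  exact AddMonoidAlgebra.coeff_injective (lc_inj T h)

theorem exists_min_supp (c : (Fin n → ℤ) →₀ ℂ) (hc : c ≠ 0) (i : Fin n) :
    ∃ u ∈ c.support, ∀ u' ∈ c.support, u i ≤ u' i :=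
  Finset.exists_min_image c.support (fun u => u i) (Finsupp.support_nonempty_iff.2 hc)

attribute [-instance] HahnSeries.powerSeriesAlgebra in
theorem psiA_orderTop (T : TorusField n K) (i : Fin n) (x : LP n) {u : Fin n → ℤ}
    (hu : u ∈ x.coeff.support) (hmin : ∀ u' ∈ x.coeff.support, u i ≤ u' i) :
    (psiA T i x).orderTop = ((u i : ℤ) : WithTop ℤ) := by
  apply HahnSeries.orderTop_eq_of_le
  · rw [HahnSeries.mem_support, psiA_coeff]
    apply lc_ne
    intro h
    have := DFunLike.congr_fun h u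
    rw [Finsupp.filter_apply_pos (fun v : Fin n → ℤ => v i = u i) _ rfl, Finsupp.zero_apply] at this
    exact (Finsupp.mem_support_iff.1 hu) this
  · intro k hk
    rw [HahnSeries.mem_support, psiA_coeff] at hk
    by_contra hlt
    apply hk
    have : x.coeff.filter (fun v => v i = k) = 0 := by
      ext v
      by_cases h : v i = k
      · rw [Finsupp.filter_apply_pos (fun v : Fin n → ℤ => v i = k) _ h, Finsupp.zero_apply]
        by_contra hne
        exact hlt (h ▸ hmin v (Finsupp.mem_support_iff.2 hne))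
      · rw [Finsupp.filter_apply_neg (fun v : Fin n → ℤ => v i = k) _ h, Finsupp.zero_apply]
    rw [this, map_zero]

attribute [-instance] HahnSeries.powerSeriesAlgebra in
theorem psiA_inj (T : TorusField n K) (i : Fin n) : Function.Injective (psiA T i) := by
  rw [injective_iff_map_eq_zero]
  intro x hx
  by_contra hne
  have hc : x.coeff ≠ 0 := fun h => hne (AddMonoidAlgebra.coeff_injective (by rw [h]; rfl))
  obtain ⟨u, hu, hmin⟩ := exists_min_supp x.coeff hc i
  have := psiA_orderTop T i x hu hmin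
  rw [hx, HahnSeries.orderTop_zero] at this
  exact WithTop.top_ne_coe this

attribute [-instance] HahnSeries.powerSeriesAlgebra in
/-- The order of a Laurent polynomial in the variable `x_i`. -/
theorem exists_monomialVal (T : TorusField n K) (i : Fin n) :
    ∃ v : AddValuation K (WithTop ℤ), ∀ c : (Fin n → ℤ) →₀ ℂ, c ≠ 0 →
      ∃ u ∈ c.support, v (Finsupp.linearCombination ℂ T.χ c) = ((u i : ℤ) : WithTop ℤ) ∧
        ∀ u' ∈ c.support, u i ≤ u' i := by
  classical
  have hdom : IsDomain (LP n) := (phiA_inj T).isDomain (phiA T).toRingHom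
  let _ : Algebra (LP n) K := (phiA T).toRingHom.toAlgebra
  have hmap : ∀ x : LP n, algebraMap (LP n) K x = phiA T x := fun x => rfl
  have hfr : IsFractionRing (LP n) K := by
    refine (isLocalization_iff _ _).2 ⟨fun y => ?_, fun z => ?_, fun {x y} h => ?_⟩
    · rw [hmap]
      refine IsUnit.mk0 _ fun h => ?_
      have : (y : LP n) = 0 := phiA_inj T (by rw [h, map_zero])
      exact nonZeroDivisors.ne_zero y.2 this
    · obtain ⟨a, ha, b, hb, hb0, hab⟩ := T.frac z
      rw [Finsupp.mem_span_range_iff_exists_finsupp] at ha hb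
      obtain ⟨ca, rfl⟩ := ha
      obtain ⟨cb, rfl⟩ := hb
      have hb1 : phiA T (AddMonoidAlgebra.ofCoeff cb) = cb.sum fun i a => a • T.χ i := by
        rw [phiA_apply, Finsupp.linearCombination_apply]
      have ha1 : phiA T (AddMonoidAlgebra.ofCoeff ca) = ca.sum fun i a => a • T.χ i := by
        rw [phiA_apply, Finsupp.linearCombination_apply]
      refine ⟨⟨AddMonoidAlgebra.ofCoeff ca, ⟨AddMonoidAlgebra.ofCoeff cb, ?_⟩⟩, ?_⟩
      · refine mem_nonZeroDivisors_of_ne_zero fun h => hb0 ?_
        rw [← hb1, h, map_zero]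
      · rw [hmap, hmap]
        show z * phiA T (AddMonoidAlgebra.ofCoeff cb) = phiA T (AddMonoidAlgebra.ofCoeff ca)
        rw [ha1, hb1]
        exact hab
    · rw [hmap, hmap] at h
      exact ⟨1, by rw [phiA_inj T h]⟩
  have hinj : Function.Injective (psiA T i).toRingHom := psiA_inj T i
  let Φ : K →+* HahnSeries ℤ K := IsFractionRing.lift hinj
  refine ⟨(HahnSeries.addVal ℤ K).comap Φ, fun c hc => ?_⟩
  obtain ⟨u, hu, hmin⟩ := exists_min_supp c hc i
  refine ⟨u, hu, ?_, hmin⟩
  show HahnSeries.addVal ℤ K (Φ _) = _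
  have h1 : Finsupp.linearCombination ℂ T.χ c = algebraMap (LP n) K (AddMonoidAlgebra.ofCoeff c) := by
    rw [hmap, phiA_apply]
  rw [h1, show Φ (algebraMap (LP n) K (AddMonoidAlgebra.ofCoeff c)) =
    (psiA T i).toRingHom (AddMonoidAlgebra.ofCoeff c) from IsFractionRing.lift_algebraMap hinj _,
    HahnSeries.addVal_apply]
  exact psiA_orderTop T i (AddMonoidAlgebra.ofCoeff c) hu hmin


/-- The derivations `θ_j` do not decrease the order in `x_i`, and `θ_i` increases it for functions
of order `0`. -/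
theorem monomialVal_theta (T : TorusField n K) (i : Fin n) (v : AddValuation K (WithTop ℤ))
    (hv : ∀ c : (Fin n → ℤ) →₀ ℂ, c ≠ 0 →
      ∃ u ∈ c.support, v (Finsupp.linearCombination ℂ T.χ c) = ((u i : ℤ) : WithTop ℤ) ∧
        ∀ u' ∈ c.support, u i ≤ u' i) :
    (∀ j f, v f ≤ v (T.θ j f)) ∧ (∀ f, 0 ≤ v f → 1 ≤ v (T.θ i f)) := by
  have hspan : ∀ f : K, ∃ ca cb : (Fin n → ℤ) →₀ ℂ, cb ≠ 0 ∧
      f * Finsupp.linearCombination ℂ T.χ cb = Finsupp.linearCombination ℂ T.χ ca := by
    intro f
    obtain ⟨a, ha, b, hb, hb0, hab⟩ := T.frac f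
    rw [Finsupp.mem_span_range_iff_exists_finsupp] at ha hb
    obtain ⟨ca, rfl⟩ := ha
    obtain ⟨cb, rfl⟩ := hb
    refine ⟨ca, cb, ?_, ?_⟩
    · rintro rfl
      exact hb0 (by simp)
    · rw [Finsupp.linearCombination_apply, Finsupp.linearCombination_apply]
      exact hab
  -- the effect of `θ j - k` on a Laurent polynomial
  have hth : ∀ (j : Fin n) (k : ℤ) (c : (Fin n → ℤ) →₀ ℂ), ∃ c' : (Fin n → ℤ) →₀ ℂ,
      T.θ j (Finsupp.linearCombination ℂ T.χ c) - (k : K) * Finsupp.linearCombination ℂ T.χ c =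
        Finsupp.linearCombination ℂ T.χ c' ∧ ∀ u ∈ c'.support, u ∈ c.support ∧ u j ≠ k := by
    intro j k c
    classical
    refine ⟨c.mapRange id rfl |>.sum fun u a => Finsupp.single u (((u j - k : ℤ) : ℂ) * a), ?_, ?_⟩
    · rw [Finsupp.linearCombination_apply, Finsupp.sum, map_sum, Finset.mul_sum,
        ← Finset.sum_sub_distrib, Finsupp.sum, map_sum]
      refine Finset.sum_congr (by simp) fun u _ => ?_
      rw [Derivation.map_smul, T.θ_χ, Finsupp.linearCombination_single]
      simp only [Finsupp.mapRange_apply, id]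
      rw [mul_smul, Algebra.smul_def (((u j - k : ℤ) : ℂ)), Algebra.smul_def (c u),
        Algebra.smul_def (c u)]
      rw [map_intCast]
      push_cast
      ring
    · intro u hu
      rw [Finsupp.mem_support_iff, Finsupp.sum, Finsupp.finsetSum_apply] at hu
      have hmap : Finsupp.mapRange id rfl c = c := by ext; simp
      rw [hmap] at hu
      obtain ⟨w, hw, hw2⟩ := Finset.exists_ne_zero_of_sum_ne_zero hu
      rw [Finsupp.single_apply] at hw2
      split_ifs at hw2 with h
      · subst h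
        refine ⟨hw, fun h => hw2 ?_⟩
        rw [h]; simp
      · exact absurd rfl hw2
  have hval : ∀ (j : Fin n) (k : ℤ) (c : (Fin n → ℤ) →₀ ℂ),
      v (Finsupp.linearCombination ℂ T.χ c) ≤
        v (T.θ j (Finsupp.linearCombination ℂ T.χ c) -
          (k : K) * Finsupp.linearCombination ℂ T.χ c) := by
    intro j k c
    obtain ⟨c', h1, h2⟩ := hth j k c
    rw [h1]
    by_cases hc' : c' = 0
    · rw [hc', map_zero, AddValuation.map_zero]; exact le_top
    · by_cases hc : c = 0
      · obtain ⟨u, hu, _⟩ := hv c' hc'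
        have := (h2 u hu).1
        rw [hc] at this
        simp at this
      · obtain ⟨u, hu, e1, m1⟩ := hv c hc
        obtain ⟨u', hu', e2, m2⟩ := hv c' hc'
        rw [e1, e2]
        exact WithTop.coe_le_coe.2 (m1 u' (h2 u' hu').1)
  have hval2 : ∀ (k : ℤ) (c : (Fin n → ℤ) →₀ ℂ),
      (k : WithTop ℤ) ≤ v (Finsupp.linearCombination ℂ T.χ c) →
      ((k + 1 : ℤ) : WithTop ℤ) ≤
        v (T.θ i (Finsupp.linearCombination ℂ T.χ c) -
          (k : K) * Finsupp.linearCombination ℂ T.χ c) := by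
    intro k c hk
    obtain ⟨c', h1, h2⟩ := hth i k c
    rw [h1]
    by_cases hc' : c' = 0
    · rw [hc', map_zero, AddValuation.map_zero]; exact le_top
    · by_cases hc : c = 0
      · obtain ⟨u, hu, _⟩ := hv c' hc'
        have := (h2 u hu).1
        rw [hc] at this
        simp at this
      · obtain ⟨u, hu, e1, m1⟩ := hv c hc
        obtain ⟨u', hu', e2, m2⟩ := hv c' hc'
        rw [e1] at hk
        rw [e2]
        have h3 := WithTop.coe_le_coe.1 hk
        have h4 := m1 u' (h2 u' hu').1
        have h5 := (h2 u' hu').2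
        exact WithTop.coe_le_coe.2 (by omega)
  refine ⟨fun j f => ?_, fun f hf => ?_⟩
  · obtain ⟨ca, cb, hcb, hab⟩ := hspan f
    obtain ⟨u, _, hub, _⟩ := hv cb hcb
    have hleib : T.θ j f * Finsupp.linearCombination ℂ T.χ cb =
        T.θ j (Finsupp.linearCombination ℂ T.χ ca) -
          f * T.θ j (Finsupp.linearCombination ℂ T.χ cb) := by
      rw [← hab, Derivation.leibniz, smul_eq_mul, smul_eq_mul]; ring
    have h1 := hval j 0 ca
    have h2 := hval j 0 cb
    simp only [Int.cast_zero, zero_mul, sub_zero] at h1 h2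
    have h3 : v f + v (Finsupp.linearCombination ℂ T.χ cb) ≤
        v (T.θ j f) + v (Finsupp.linearCombination ℂ T.χ cb) := by
      rw [← AddValuation.map_mul, ← AddValuation.map_mul, hleib, sub_eq_add_neg]
      refine v.map_le_add ?_ ?_
      · rw [hab]; exact h1
      · rw [AddValuation.map_neg, AddValuation.map_mul, AddValuation.map_mul]
        exact add_le_add le_rfl h2
    rw [hub] at h3
    exact (WithTop.add_le_add_iff_right (WithTop.coe_ne_top)).1 h3
  · obtain ⟨ca, cb, hcb, hab⟩ := hspan f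
    obtain ⟨u, _, hub, _⟩ := hv cb hcb
    have hleib : T.θ i f * Finsupp.linearCombination ℂ T.χ cb =
        (T.θ i (Finsupp.linearCombination ℂ T.χ ca) -
          ((u i : ℤ) : K) * Finsupp.linearCombination ℂ T.χ ca) -
          f * (T.θ i (Finsupp.linearCombination ℂ T.χ cb) -
          ((u i : ℤ) : K) * Finsupp.linearCombination ℂ T.χ cb) := by
      rw [← hab, Derivation.leibniz, smul_eq_mul, smul_eq_mul]; ring
    have hka : ((u i : ℤ) : WithTop ℤ) ≤ v (Finsupp.linearCombination ℂ T.χ ca) := by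
      rw [← hab, AddValuation.map_mul, hub]
      calc ((u i : ℤ) : WithTop ℤ) = 0 + ((u i : ℤ) : WithTop ℤ) := (zero_add _).symm
        _ ≤ _ := add_le_add hf le_rfl
    have h1 := hval2 (u i) ca hka
    have h2 := hval2 (u i) cb hub.ge
    have h3 : (1 : WithTop ℤ) + v (Finsupp.linearCombination ℂ T.χ cb) ≤
        v (T.θ i f) + v (Finsupp.linearCombination ℂ T.χ cb) := by
      rw [← AddValuation.map_mul, hleib, sub_eq_add_neg]
      have e : (1 : WithTop ℤ) + v (Finsupp.linearCombination ℂ T.χ cb) =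
          ((u i + 1 : ℤ) : WithTop ℤ) := by
        rw [hub, add_comm]; rfl
      rw [e]
      refine v.map_le_add h1 ?_
      rw [AddValuation.map_neg, AddValuation.map_mul]
      calc ((u i + 1 : ℤ) : WithTop ℤ) = 0 + ((u i + 1 : ℤ) : WithTop ℤ) := (zero_add _).symm
        _ ≤ _ := add_le_add hf h2
    rw [hub] at h3
    exact (WithTop.add_le_add_iff_right (WithTop.coe_ne_top)).1 h3


/-- Hence top forms of functions of order `≥ 0` have order `≥ 1` with respect to the logarithmic
form. -/
theorem monomialVal_det (T : TorusField n K) (i : Fin n) (v : AddValuation K (WithTop ℤ))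
    (hv : ∀ c : (Fin n → ℤ) →₀ ℂ, c ≠ 0 →
      ∃ u ∈ c.support, v (Finsupp.linearCombination ℂ T.χ c) = ((u i : ℤ) : WithTop ℤ) ∧
        ∀ u' ∈ c.support, u i ≤ u' i)
    (g : Fin n → K) (hg : ∀ j, 0 ≤ v (g j)) :
    1 ≤ v (Matrix.det (Matrix.of fun i j => T.θ i (g j))) := by
  classical
  obtain ⟨h1, h2⟩ := monomialVal_theta T i v hv
  rw [Matrix.det_apply]
  refine v.map_le_sum fun σ _ => ?_
  have hsign : v (Equiv.Perm.sign σ • ∏ j, Matrix.of (fun i j => T.θ i (g j)) (σ j) j) =
      v (∏ j, Matrix.of (fun i j => T.θ i (g j)) (σ j) j) := by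
    rcases Int.units_eq_one_or (Equiv.Perm.sign σ) with h | h
    · rw [h, one_smul]
    · rw [h, Units.neg_smul, one_smul, AddValuation.map_neg]
  rw [hsign, ← Finset.mul_prod_erase Finset.univ _ (Finset.mem_univ (σ⁻¹ i)),
    AddValuation.map_mul]
  have h3 : (1 : WithTop ℤ) ≤ v (Matrix.of (fun i j => T.θ i (g j)) (σ (σ⁻¹ i)) (σ⁻¹ i)) := by
    rw [show σ (σ⁻¹ i) = i from σ.apply_symm_apply i]
    exact h2 _ (hg _)
  have h4 : (0 : WithTop ℤ) ≤ v (∏ j ∈ Finset.univ.erase (σ⁻¹ i),
      Matrix.of (fun i j => T.θ i (g j)) (σ j) j) := by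
    refine Finset.prod_induction _ (fun x => (0 : WithTop ℤ) ≤ v x) ?_ ?_ ?_
    · intro x y hx hy
      rw [AddValuation.map_mul]
      exact add_nonneg hx hy
    · rw [AddValuation.map_one]
    · intro j _
      exact (hg j).trans (h1 _ _)
  calc (1 : WithTop ℤ) = 1 + 0 := (add_zero _).symm
    _ ≤ _ := add_le_add h3 h4

end Pool.Agent.Helper774.KStab
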