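import Pool.Agent.Helper774.KStab.Filt
import Pool.Agent.Helper774.KStab.Polytope

open scoped ENNReal

noncomputable section

namespace Pool.Agent.Helper774.KStab

section targets

open MeasureTheory

variable {n : ℕ} {K : Type} [Field K] [Algebra ℂ K]

theorem toric_antican_finrank (T : TorusField n K) (D : ToricData n) (m : ℕ) :
    Module.finrank ℂ ((toricVariety T D).antican m) = (D.pts m).ncard := by
  have h : (toricVariety T D).antican m = Submodule.span ℂ (T.χ '' D.pts m) := by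
    ext f
    exact toric_antican T D m f
  rw [h, finrank_span_image _ T.li]

/-- The anticanonical volume of a toric variety. -/
theorem toric_vol (T : TorusField n K) (D : ToricData n) (hb : Bornology.IsBounded D.P) :
    (toricVariety T D).vol = (Nat.factorial n : ℝ≥0∞) * volume D.P := by
  have h1 := lattice_count n D.P hb D.P_convex D.P_closed
  have h2 : Filter.Tendsto (fun m : ℕ =>
      ((Nat.factorial n * Module.finrank ℂ ((toricVariety T D).antican m) : ℕ) : ℝ≥0∞) /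
        (m : ℝ≥0∞) ^ n) Filter.atTop (nhds ((Nat.factorial n : ℝ≥0∞) * volume D.P)) := by
    have h3 := ENNReal.Tendsto.const_mul (a := (Nat.factorial n : ℝ≥0∞)) h1
      (Or.inr (ENNReal.natCast_ne_top _))
    refine h3.congr' ?_
    filter_upwards [Filter.eventually_ge_atTop 1] with m hm
    rw [toric_antican_finrank]
    have h4 : {u : Fin n → ℤ | (fun i => (u i : ℝ) / (m : ℝ)) ∈ D.P} = D.pts m := by
      ext u
      exact (D.pts_iff m hm u).symm
    rw [h4]
    push_cast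
    rw [mul_div_assoc]
  exact h2.limsup_eq

theorem cut_closed (D : ToricData n) (b : Fin n → ℝ) (A t : ℝ) :
    IsClosed (D.P ∩ {p | t ≤ ∑ i, b i * p i + A}) :=
  D.P_closed.inter (isClosed_le continuous_const (by fun_prop))

theorem cut_convex (D : ToricData n) (b : Fin n → ℝ) (A t : ℝ) :
    Convex ℝ (D.P ∩ {p | t ≤ ∑ i, b i * p i + A}) := by
  refine D.P_convex.inter ?_
  intro x hx y hy a c ha hc hac
  simp only [Set.mem_ofPred_eq] at *
  have h : ∑ i, b i * (a • x + c • y) i = a * ∑ i, b i * x i + c * ∑ i, b i * y i := by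
    rw [Finset.mul_sum, Finset.mul_sum, ← Finset.sum_add_distrib]
    refine Finset.sum_congr rfl fun i _ => ?_
    simp only [Pi.add_apply, Pi.smul_apply, smul_eq_mul]
    ring
  rw [h]
  have h1 := mul_le_mul_of_nonneg_left hx ha
  have h2 := mul_le_mul_of_nonneg_left hy hc
  have h3 : a * A + c * A = A := by rw [← add_mul, hac, one_mul]
  have h4 : a * t + c * t = t := by rw [← add_mul, hac, one_mul]
  nlinarith

theorem cut_count (D : ToricData n) (b : Fin n → ℝ) (A t : ℝ) (m : ℕ) (hm : 1 ≤ m) :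
    {u : Fin n → ℤ | (fun i => (u i : ℝ) / (m : ℝ)) ∈ D.P ∩ {p | t ≤ ∑ i, b i * p i + A}} =
      {u ∈ D.pts m | (m : ℝ) * t ≤ ∑ i, b i * (u i : ℝ) + A * m} := by
  ext u
  simp only [Set.mem_inter_iff, Set.mem_ofPred_eq]
  rw [← D.pts_iff m hm u]
  refine and_congr_right fun _ => ?_
  have hm' : (0 : ℝ) < m := by exact_mod_cast hm
  have h : ∑ i, b i * ((u i : ℝ) / (m : ℝ)) = (∑ i, b i * (u i : ℝ)) / m := by
    rw [Finset.sum_div]
    refine Finset.sum_congr rfl fun i _ => ?_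
    ring
  rw [h]
  constructor
  · intro h1
    have h2 := mul_le_mul_of_nonneg_left h1 hm'.le
    have h3 : (m : ℝ) * ((∑ i, b i * (u i : ℝ)) / m + A) = ∑ i, b i * (u i : ℝ) + A * m := by
      field_simp
    rw [h3] at h2
    exact h2
  · intro h1
    have h3 : (m : ℝ) * ((∑ i, b i * (u i : ℝ)) / m + A) = ∑ i, b i * (u i : ℝ) + A * m := by
      field_simp
    rw [← h3] at h1
    exact le_of_mul_le_mul_left h1 hm'

theorem cut_lim (D : ToricData n) (hb : Bornology.IsBounded D.P) (b : Fin n → ℝ) (A t : ℝ) :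
    Filter.Tendsto (fun m : ℕ =>
      ((Nat.factorial n * {u ∈ D.pts m | (m : ℝ) * t ≤ ∑ i, b i * (u i : ℝ) + A * m}.ncard : ℕ) :
        ℝ≥0∞) / (m : ℝ≥0∞) ^ n) Filter.atTop
      (nhds ((Nat.factorial n : ℝ≥0∞) * volume (D.P ∩ {p | t ≤ ∑ i, b i * p i + A}))) := by
  have h1 := lattice_count n (D.P ∩ {p | t ≤ ∑ i, b i * p i + A})
    (hb.subset Set.inter_subset_left) (cut_convex D b A t) (cut_closed D b A t)
  have h3 := ENNReal.Tendsto.const_mul (a := (Nat.factorial n : ℝ≥0∞)) h1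
    (Or.inr (ENNReal.natCast_ne_top _))
  refine h3.congr' ?_
  filter_upwards [Filter.eventually_ge_atTop 1] with m hm
  rw [cut_count D b A t m hm]
  push_cast
  rw [mul_div_assoc]

/-- Transfer from counts of lattice points to `S`, upper bound. -/
theorem toric_S_le (T : TorusField n K) (D : ToricData n) (hb : Bornology.IsBounded D.P)
    (E : (toricVariety T D).DivVal) (b : Fin n → ℝ) (A : ℝ)
    (hpos : ∀ p ∈ D.P, 0 ≤ ∑ i, b i * p i + A)
    (hf : ∀ (m : ℕ) (t : ℝ), 1 ≤ m → 0 < t → Module.finrank ℂ (E.filt m t) ≤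
      {u ∈ D.pts m | (m : ℝ) * t ≤ ∑ i, b i * (u i : ℝ) + A * m}.ncard) :
    E.S ≤ ENNReal.ofReal (∑ i, b i * (∫ p in D.P, p i) + A * volume.real D.P) / volume D.P := by
  have hN0 : (Nat.factorial n : ℝ≥0∞) ≠ 0 := by
    exact_mod_cast Nat.factorial_ne_zero n
  have hNt : (Nat.factorial n : ℝ≥0∞) ≠ ⊤ := ENNReal.natCast_ne_top _
  have h1 : ∀ t : ℝ, 0 < t → E.vol t ≤
      (Nat.factorial n : ℝ≥0∞) * volume (D.P ∩ {p | t ≤ ∑ i, b i * p i + A}) := by
    intro t ht
    rw [← (cut_lim D hb b A t).limsup_eq]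
    refine Filter.limsup_le_limsup ?_
    filter_upwards [Filter.eventually_ge_atTop 1] with m hm
    refine ENNReal.div_le_div_right ?_ _
    exact_mod_cast Nat.mul_le_mul_left _ (hf m t hm ht)
  have h2 : ∫⁻ t in Set.Ioi (0 : ℝ), E.vol t ≤ (Nat.factorial n : ℝ≥0∞) *
      ENNReal.ofReal (∑ i, b i * (∫ p in D.P, p i) + A * volume.real D.P) := by
    rw [← layer_cake D.P hb D.P_closed b A hpos, ← lintegral_const_mul' _ _ hNt]
    exact setLIntegral_mono' measurableSet_Ioi fun t ht => h1 t ht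
  unfold Variety.DivVal.S
  rw [toric_vol T D hb, ← ENNReal.mul_div_mul_left
    (ENNReal.ofReal (∑ i, b i * (∫ p in D.P, p i) + A * volume.real D.P)) (volume D.P) hN0 hNt]
  exact ENNReal.div_le_div_right h2 _

/-- Transfer from counts of lattice points to `S`, lower bound. -/
theorem toric_le_S (T : TorusField n K) (D : ToricData n) (hb : Bornology.IsBounded D.P)
    (E : (toricVariety T D).DivVal) (b : Fin n → ℝ) (A : ℝ)
    (hpos : ∀ p ∈ D.P, 0 ≤ ∑ i, b i * p i + A)
    (hf : ∀ (m : ℕ) (t : ℝ), 1 ≤ m → 0 < t →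
      {u ∈ D.pts m | (m : ℝ) * t ≤ ∑ i, b i * (u i : ℝ) + A * m}.ncard ≤
        Module.finrank ℂ (E.filt m t)) :
    ENNReal.ofReal (∑ i, b i * (∫ p in D.P, p i) + A * volume.real D.P) / volume D.P ≤ E.S := by
  have hN0 : (Nat.factorial n : ℝ≥0∞) ≠ 0 := by
    exact_mod_cast Nat.factorial_ne_zero n
  have hNt : (Nat.factorial n : ℝ≥0∞) ≠ ⊤ := ENNReal.natCast_ne_top _
  have h1 : ∀ t : ℝ, 0 < t →
      (Nat.factorial n : ℝ≥0∞) * volume (D.P ∩ {p | t ≤ ∑ i, b i * p i + A}) ≤ E.vol t := by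
    intro t ht
    rw [← (cut_lim D hb b A t).limsup_eq]
    refine Filter.limsup_le_limsup ?_
    filter_upwards [Filter.eventually_ge_atTop 1] with m hm
    refine ENNReal.div_le_div_right ?_ _
    exact_mod_cast Nat.mul_le_mul_left _ (hf m t hm ht)
  have h2 : (Nat.factorial n : ℝ≥0∞) *
      ENNReal.ofReal (∑ i, b i * (∫ p in D.P, p i) + A * volume.real D.P) ≤
      ∫⁻ t in Set.Ioi (0 : ℝ), E.vol t := by
    rw [← layer_cake D.P hb D.P_closed b A hpos, ← lintegral_const_mul' _ _ hNt]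
    exact setLIntegral_mono' measurableSet_Ioi fun t ht => h1 t ht
  unfold Variety.DivVal.S
  rw [toric_vol T D hb, ← ENNReal.mul_div_mul_left
    (ENNReal.ofReal (∑ i, b i * (∫ p in D.P, p i) + A * volume.real D.P)) (volume D.P) hN0 hNt]
  exact ENNReal.div_le_div_right h2 _

end targets

section targets

open MeasureTheory

variable {n : ℕ} {K : Type} [Field K] [Algebra ℂ K]

/-- A toric Fano variety with barycentre `0` is K-semistable. -/
theorem toric_KSemistable (T : TorusField n K) (D : ToricData n) (hb : Bornology.IsBounded D.P)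
    (hbar : ∀ i, ∫ p in D.P, p i = 0) : (toricVariety T D).KSemistable := by
  intro E
  by_cases hlog : E.logDisc = ⊤
  · rw [hlog]; exact le_top
  obtain ⟨σ, a, ha0, haA, hfilt⟩ := toric_filt_bound T D E hlog
  have hV0 : volume D.P ≠ 0 := D.P_volume_pos.ne'
  have hVt : volume D.P ≠ ⊤ := hb.measure_lt_top.ne
  have hpos : ∀ p ∈ D.P, 0 ≤ ∑ i, (∑ j, ((D.R σ i j : ℤ) : ℝ) * (a j : ℝ)) * p i + ∑ j, (a j : ℝ) := by
    intro p hp
    have h1 : ∑ i, (∑ j, ((D.R σ i j : ℤ) : ℝ) * (a j : ℝ)) * p i + ∑ j, (a j : ℝ) =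
        ∑ j, (a j : ℝ) * (∑ i, p i * ((D.R σ i j : ℤ) : ℝ) + 1) := by
      have h2 : ∀ j, (a j : ℝ) * (∑ i, p i * ((D.R σ i j : ℤ) : ℝ) + 1) =
          ∑ i, ((D.R σ i j : ℤ) : ℝ) * (a j : ℝ) * p i + (a j : ℝ) := by
        intro j
        rw [mul_add, mul_one, Finset.mul_sum]
        congr 1
        exact Finset.sum_congr rfl (fun i _ => by ring)
      simp_rw [h2]
      rw [Finset.sum_add_distrib]
      congr 1
      simp_rw [Finset.sum_mul]
      exact Finset.sum_comm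
    rw [h1]
    refine Finset.sum_nonneg (fun j _ => mul_nonneg ?_ ?_)
    · exact_mod_cast ha0 j
    · have := hp σ j
      linarith
  have hf : ∀ (m : ℕ) (t : ℝ), 1 ≤ m → 0 < t → Module.finrank ℂ (E.filt m t) ≤
      {u ∈ D.pts m | (m : ℝ) * t ≤ ∑ i, (∑ j, ((D.R σ i j : ℤ) : ℝ) * (a j : ℝ)) * (u i : ℝ) +
        (∑ j, (a j : ℝ)) * m}.ncard := by
    intro m t hm ht
    refine (hfilt m t (D.pts_finite hb m hm)).trans (le_of_eq ?_)
    congr 1
    ext u
    have h1 : ∑ j, (a j : ℝ) * ((Matrix.vecMul u (D.R σ) j : ℤ) + (m : ℝ)) =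
        ∑ i, (∑ j, ((D.R σ i j : ℤ) : ℝ) * (a j : ℝ)) * (u i : ℝ) + (∑ j, (a j : ℝ)) * m := by
      have h2 : ∀ j, (a j : ℝ) * ((Matrix.vecMul u (D.R σ) j : ℤ) + (m : ℝ)) =
          ∑ i, ((D.R σ i j : ℤ) : ℝ) * (a j : ℝ) * (u i : ℝ) + (a j : ℝ) * m := by
        intro j
        have h3 : ((Matrix.vecMul u (D.R σ) j : ℤ) : ℝ) = ∑ i, (u i : ℝ) * ((D.R σ i j : ℤ) : ℝ) := by
          simp only [Matrix.vecMul, dotProduct]
          push_cast
          rfl
        rw [h3, mul_add, Finset.mul_sum]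
        congr 1
        exact Finset.sum_congr rfl (fun i _ => by ring)
      simp_rw [h2]
      rw [Finset.sum_add_distrib, Finset.sum_mul]
      congr 1
      simp_rw [Finset.sum_mul]
      exact Finset.sum_comm
    constructor
    · rintro ⟨hu1, hu2⟩
      exact ⟨hu1, by rw [← h1]; exact hu2⟩
    · rintro ⟨hu1, hu2⟩
      exact ⟨hu1, by rw [h1]; exact hu2⟩
  have hS := toric_S_le T D hb E (fun i => ∑ j, ((D.R σ i j : ℤ) : ℝ) * (a j : ℝ))
    (∑ j, (a j : ℝ)) hpos hf
  refine hS.trans (le_trans (le_of_eq ?_) haA)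
  have h0 : ∑ i, (∑ j, ((D.R σ i j : ℤ) : ℝ) * (a j : ℝ)) * (∫ p in D.P, p i) = 0 :=
    Finset.sum_eq_zero (fun i _ => by rw [hbar i, mul_zero])
  have hA0 : 0 ≤ ∑ j, (a j : ℝ) := Finset.sum_nonneg (fun j _ => by exact_mod_cast ha0 j)
  show ENNReal.ofReal (∑ i, (∑ j, ((D.R σ i j : ℤ) : ℝ) * (a j : ℝ)) * (∫ p in D.P, p i) +
    (∑ j, (a j : ℝ)) * volume.real D.P) / volume D.P = _
  rw [h0, zero_add, ENNReal.ofReal_mul hA0]
  have hreal : ENNReal.ofReal (volume.real D.P) = volume D.P := ENNReal.ofReal_toReal hVt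
  rw [hreal]
  exact ENNReal.mul_div_cancel_right hV0 hVt

end targets

end Pool.Agent.Helper774.KStab
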