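import Pool.Agent.Helper774.KStab.Mono
import Pool.Agent.Helper774.KStab.Bary
import Pool.Agent.Helper774.KStab.Semistable

open scoped ENNReal

noncomputable section

namespace Pool.Agent.Helper774.KStab

section aux9316

variable {K : Type} [Field K] [Algebra ℂ K]

theorem v9316_chi {n : ℕ} (T : TorusField n K) (i : Fin n) (v : AddValuation K (WithTop ℤ))
    (hv : ∀ c : (Fin n → ℤ) →₀ ℂ, c ≠ 0 →
      ∃ u ∈ c.support, v (Finsupp.linearCombination ℂ T.χ c) = ((u i : ℤ) : WithTop ℤ) ∧
        ∀ u' ∈ c.support, u i ≤ u' i) (a : ℂ) (ha : a ≠ 0) (u : Fin n → ℤ) :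
    v (a • T.χ u) = ((u i : ℤ) : WithTop ℤ) := by
  obtain ⟨u', hu', h1, -⟩ := hv (Finsupp.single u a) (by simpa using ha)
  rw [Finsupp.linearCombination_single] at h1
  have h2 : u' = u := by
    have := Finsupp.support_single_subset hu'
    simpa using this
  rw [h1, h2]

theorem v9316_chi' {n : ℕ} (T : TorusField n K) (i : Fin n) (v : AddValuation K (WithTop ℤ))
    (hv : ∀ c : (Fin n → ℤ) →₀ ℂ, c ≠ 0 →
      ∃ u ∈ c.support, v (Finsupp.linearCombination ℂ T.χ c) = ((u i : ℤ) : WithTop ℤ) ∧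
        ∀ u' ∈ c.support, u i ≤ u' i) (u : Fin n → ℤ) :
    v (T.χ u) = ((u i : ℤ) : WithTop ℤ) := by
  have := v9316_chi T i v hv 1 one_ne_zero u
  rwa [one_smul] at this

theorem v9316_std {n : ℕ} (T : TorusField n K) (i : Fin n) (v : AddValuation K (WithTop ℤ))
    (hv : ∀ c : (Fin n → ℤ) →₀ ℂ, c ≠ 0 →
      ∃ u ∈ c.support, v (Finsupp.linearCombination ℂ T.χ c) = ((u i : ℤ) : WithTop ℤ) ∧
        ∀ u' ∈ c.support, u i ≤ u' i) (f : K) (hf : f ∈ T.std) : 0 ≤ v f := by
  rw [T.mem_std, Finsupp.mem_span_image_iff_linearCombination] at hf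
  obtain ⟨c, hc, rfl⟩ := hf
  by_cases h0 : c = 0
  · rw [h0, map_zero, AddValuation.map_zero]
    exact le_top
  · obtain ⟨u, hu, h1, -⟩ := hv c h0
    rw [h1]
    have h2 : ∀ j, 0 ≤ u j := (Finsupp.mem_supported ℂ c).1 hc hu
    exact_mod_cast h2 i

theorem v9316_residue (T : TorusField 2 K) (v : AddValuation K (WithTop ℤ))
    (hv : ∀ c : (Fin 2 → ℤ) →₀ ℂ, c ≠ 0 →
      ∃ u ∈ c.support, v (Finsupp.linearCombination ℂ T.χ c) = ((u 1 : ℤ) : WithTop ℤ) ∧
        ∀ u' ∈ c.support, u 1 ≤ u' 1) (P : MvPolynomial (Fin 1) ℂ) (hP : P ≠ 0) :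
    v (MvPolynomial.aeval (fun _ : Fin 1 => T.χ ![1, 0]) P) = 0 := by
  obtain ⟨φ, hφ⟩ : ∃ φ : (Fin 1 →₀ ℕ) → (Fin 2 → ℤ), φ = fun m => ![(m 0 : ℤ), 0] := ⟨_, rfl⟩
  have hinj : Function.Injective φ := by
    intro m m' h
    rw [hφ] at h
    have h1 := congrFun h 0
    have h2 : (m 0 : ℤ) = (m' 0 : ℤ) := h1
    apply Finsupp.ext
    intro j
    rw [Subsingleton.elim j 0]
    exact_mod_cast h2
  have hpow : ∀ k : ℕ, T.χ ![1, 0] ^ k = T.χ ![(k : ℤ), 0] := by
    intro k
    induction k with
    | zero =>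
      rw [pow_zero, ← T.χ_zero]
      congr 1
      ext j
      fin_cases j <;> rfl
    | succ k ih =>
      rw [pow_succ, ih, ← T.χ_add]
      congr 1
      ext j
      fin_cases j
      · simp
      · simp
  obtain ⟨g, hg⟩ : ∃ g : (Fin 1 →₀ ℕ) →₀ ℂ, g = Finsupp.onFinset P.support
    (fun m => P.coeff m) (fun m hm => MvPolynomial.mem_support_iff.2 hm) := ⟨_, rfl⟩
  have hgP : ∀ m, g m = P.coeff m := fun m => by rw [hg]; rfl
  obtain ⟨c, hc⟩ : ∃ c : (Fin 2 → ℤ) →₀ ℂ, c = Finsupp.mapDomain φ g := ⟨_, rfl⟩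
  have hc0 : c ≠ 0 := by
    intro h
    apply hP
    rw [hc] at h
    have h1 : g = 0 := Finsupp.mapDomain_injective hinj (h.trans Finsupp.mapDomain_zero.symm)
    ext m
    rw [← hgP, h1]
    simp
  have hlin : Finsupp.linearCombination ℂ T.χ c =
      MvPolynomial.aeval (fun _ : Fin 1 => T.χ ![1, 0]) P := by
    rw [hc, Finsupp.linearCombination_mapDomain, MvPolynomial.aeval_def, MvPolynomial.eval₂_eq',
      Finsupp.linearCombination_apply, hg]
    refine (Finsupp.onFinset_sum (g := fun i a => a • (T.χ ∘ φ) i) _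
      (fun m => zero_smul ℂ _)).trans ?_
    apply Finset.sum_congr rfl
    intro m _
    rw [Algebra.smul_def]
    congr 1
    show T.χ (φ m) = _
    rw [hφ]
    show T.χ ![(m 0 : ℤ), 0] = _
    rw [← hpow]
    simp
  obtain ⟨u, hu, h1, -⟩ := hv c hc0
  rw [hlin] at h1
  rw [h1]
  have h2 : u ∈ Finset.image φ g.support := by
    rw [hc] at hu
    exact Finsupp.mapDomain_support hu
  rw [Finset.mem_image] at h2
  obtain ⟨m, -, rfl⟩ := h2
  rw [hφ]
  rfl

theorem v9316_T' (T : TorusField 2 K) (w : Fin 2 → ℤ) :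
    (T.at dataF1 (false, true)).χ ![w 0, -w 1] = T.χ w := by
  show T.χ (Matrix.vecMul ![w 0, -w 1] (dataF1.E (false, true))) = _
  congr 1
  ext j
  fin_cases j
  · simp [Matrix.vecMul, dotProduct, dataF1, sg, ind, Fin.sum_univ_two]
  · simp [Matrix.vecMul, dotProduct, dataF1, sg, ind, Fin.sum_univ_two]

end aux9316

/- ################ TARGETS (everything above is GIVEN, its sorries stay). ################ -/

/-- The del Pezzo surface `F_1` is not K-semistable: it is destabilised by the exceptional curve. -/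
theorem dataF1_not_KSemistable {K : Type} [Field K] [Algebra ℂ K] (T : TorusField 2 K) :
    ¬ (toricVariety T dataF1).KSemistable := by
  intro hK
  obtain ⟨v, hv⟩ := exists_monomialVal (T.at dataF1 (false, true)) 1
  have hval : ∀ w : Fin 2 → ℤ, v (T.χ w) = ((-w 1 : ℤ) : WithTop ℤ) := by
    intro w
    rw [← v9316_T' T w]
    exact v9316_chi' _ 1 v hv ![w 0, -w 1]
  obtain ⟨E, hE⟩ : ∃ E : (toricVariety T dataF1).DivVal, E.v = v := by
    refine ⟨{ v := v, triv := ?_, normalised := ?_, residue := ?_ }, rfl⟩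
    · intro c hc
      have h1 := v9316_chi _ 1 v hv c hc 0
      rw [(T.at dataF1 (false, true)).χ_zero, ← Algebra.algebraMap_eq_smul_one] at h1
      rw [h1]
      rfl
    · exact ⟨_, v9316_chi' _ 1 v hv ![0, 1]⟩
    · exact ⟨_, v9316_residue _ v hv⟩
  have hring : ∀ f ∈ (T.at dataF1 (false, true)).std, f ∈ E.ring := by
    intro f hf
    show 0 ≤ E.v f
    rw [hE]
    exact v9316_std _ 1 v hv f hf
  have hcan : E.canOrd = 1 := by
    have h1 := toric_canOrd T dataF1 E (false, true) hring
    rw [hE] at h1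
    have h2 : T.top dataF1 (false, true) = T.χ ![1, -1] := by
      show T.χ (∑ k, dataF1.E (false, true) k) = _
      have h5 : ∑ k, dataF1.E (false, true) k = ![1, -1] := by decide
      rw [h5]
    rw [h2, hval] at h1
    have h3 : ((-(![1, -1] : Fin 2 → ℤ) 1 : ℤ) : WithTop ℤ) = ((1 : ℤ) : WithTop ℤ) := rfl
    rw [h3] at h1
    exact (WithTop.coe_injective h1).symm
  have hlog : E.logDisc ≤ 1 := by
    unfold Variety.DivVal.logDisc
    apply iSup₂_le
    rintro k ⟨a, ⟨g, hg, rfl⟩, hk⟩
    have h1 := monomialVal_det (T.at dataF1 (false, true)) 1 v hv g (by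
      intro j
      have := hg j
      have h2 : 0 ≤ E.v (g j) := this
      rwa [hE] at h2)
    have h2 : Matrix.det (Matrix.of fun i j => (T.at dataF1 (false, true)).θ i (g j)) =
      (((dataF1.R (false, true)).det : ℤ) : K) *
        Matrix.det (Matrix.of fun i j => T.θ i (g j)) := T.det_reindex _ _ _ g
    rw [h2, AddValuation.map_mul, ← toric_jac T dataF1 g, ← hE, hk] at h1
    have h3 : E.v (((dataF1.R (false, true)).det : ℤ) : K) = 0 := by
      rcases TorusField.det_unit _ _ (dataF1.inv (false, true)) with h | h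
      · rw [h, Int.cast_one, AddValuation.map_one]
      · rw [h, Int.cast_neg, Int.cast_one, AddValuation.map_neg, AddValuation.map_one]
    rw [h3, zero_add] at h1
    have h4 : (1 : ℤ) ≤ k := by exact_mod_cast h1
    rw [hcan]
    have h5 : (1 : ℝ) ≤ k := by exact_mod_cast h4
    rw [← ENNReal.ofReal_one]
    apply ENNReal.ofReal_le_ofReal
    push_cast
    linarith
  have hfin : MeasureTheory.volume dataF1.P < ⊤ := dataF1_bounded.measure_lt_top
  have hpos : 0 < MeasureTheory.volume dataF1.P := dataF1.P_volume_pos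
  have hS : 1 < E.S := by
    have h1 := toric_le_S T dataF1 dataF1_bounded E ![0, -1] 1 ?_ ?_
    · refine lt_of_lt_of_le ?_ h1
      rw [ENNReal.lt_div_iff_mul_lt (Or.inl hpos.ne') (Or.inl hfin.ne), one_mul]
      have h2 : MeasureTheory.volume dataF1.P =
          ENNReal.ofReal (MeasureTheory.volume.real dataF1.P) := by
        rw [MeasureTheory.measureReal_def, ENNReal.ofReal_toReal hfin.ne]
      nth_rewrite 1 [h2]
      have hr : 0 < MeasureTheory.volume.real dataF1.P := ENNReal.toReal_pos hpos.ne' hfin.ne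
      rw [ENNReal.ofReal_lt_ofReal_iff_of_nonneg hr.le, Fin.sum_univ_two]
      have h3 := dataF1_bary
      simp only [Matrix.cons_val_zero, Matrix.cons_val_one]
      linarith
    · intro p hp
      have h2 := hp (false, true) 1
      rw [Fin.sum_univ_two] at h2 ⊢
      simp [dataF1, sg, ind] at h2 ⊢
      linarith
    · intro m t hm ht
      have hle : Submodule.span ℂ (T.χ '' {u ∈ dataF1.pts m |
          (m : ℝ) * t ≤ ∑ i, (![0, -1] : Fin 2 → ℝ) i * (u i : ℝ) + 1 * m}) ≤ E.filt m t := by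
        rw [Submodule.span_le]
        rintro _ ⟨u, ⟨hu1, hu2⟩, rfl⟩
        refine ⟨?_, ?_⟩
        · rw [toric_antican T dataF1 m]
          exact Submodule.subset_span ⟨u, hu1, rfl⟩
        · intro k hk
          rw [hE, hval] at hk
          have h3 : -u 1 = k := WithTop.coe_injective hk
          rw [hcan, ← h3]
          rw [Fin.sum_univ_two] at hu2
          simp only [Matrix.cons_val_zero, Matrix.cons_val_one] at hu2
          push_cast
          linarith
      have hfd : FiniteDimensional ℂ (E.filt m t) := by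
        have h4 : E.filt m t ≤ Submodule.span ℂ (T.χ '' dataF1.pts m) := by
          intro f hf
          rw [← toric_antican T dataF1 m]
          exact hf.1
        have h5 : FiniteDimensional ℂ (Submodule.span ℂ (T.χ '' dataF1.pts m)) :=
          FiniteDimensional.span_of_finite ℂ
            ((dataF1.pts_finite dataF1_bounded m hm).image T.χ)
        exact Submodule.finiteDimensional_of_le h4
      rw [← finrank_span_image T.χ T.li]
      exact Submodule.finrank_mono hle
  exact absurd (hS.trans_le ((hK E).trans hlog)) (lt_irrefl _)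

end Pool.Agent.Helper774.KStab
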