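import Pool.Agent.Helper774.KStab.Torus

open scoped ENNReal

noncomputable section

namespace Pool.Agent.Helper774.KStab

/-- Combinatorial data of a smooth toric Fano variety: for every maximal cone `σ` the exponents
`E σ i` of the coordinates of the chart, and the inverse matrix `R σ`, whose columns are the rays. -/
structure ToricData (n : ℕ) where
  ι : Type
  [fin : Finite ι]
  E : ι → Matrix (Fin n) (Fin n) ℤ
  R : ι → Matrix (Fin n) (Fin n) ℤ
  inv : ∀ σ, E σ * R σ = 1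
  vert : ∀ σ τ j, -1 ≤ Matrix.vecMul (-∑ k, E σ k) (R τ) j
  nbr : ∀ σ τ i j, -1 ≤ Matrix.vecMul (E σ i - ∑ k, E σ k) (R τ) j
  complete : ∀ S : Set (Fin n → ℤ), (∀ u v, u ∈ S → v ∈ S → u + v ∈ S) →
    (∀ u, u ∈ S ∨ -u ∈ S) → ∃ σ, ∀ i, E σ i ∈ S

attribute [instance] ToricData.fin

/-- Lattice points of `m P`. -/
def ToricData.pts {n : ℕ} (D : ToricData n) (m : ℕ) : Set (Fin n → ℤ) :=
  {u | ∀ σ j, -(m : ℤ) ≤ Matrix.vecMul u (D.R σ) j}

/-- The polytope `P`. -/
def ToricData.P {n : ℕ} (D : ToricData n) : Set (Fin n → ℝ) :=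
  {p | ∀ σ j, -1 ≤ ∑ i, p i * ((D.R σ i j : ℤ) : ℝ)}

section toric

variable {n : ℕ} {K : Type} [Field K] [Algebra ℂ K]

/-- The torus field with the coordinates of the chart `σ`. -/
def TorusField.at (T : TorusField n K) (D : ToricData n) (σ : D.ι) : TorusField n K :=
  T.reindex (D.E σ) (D.R σ) (D.inv σ)

end toric

section targets

variable {n : ℕ} {K : Type} [Field K] [Algebra ℂ K]

theorem aux_chi_at (T : TorusField n K) (D : ToricData n) (σ : D.ι) (u : Fin n → ℤ) :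
    (T.at D σ).χ u = T.χ (Matrix.vecMul u (D.E σ)) := rfl

theorem aux_RE (D : ToricData n) (σ : D.ι) : D.R σ * D.E σ = 1 :=
  mul_eq_one_comm.1 (D.inv σ)

theorem aux_mem_std (T : TorusField n K) (D : ToricData n) (τ : D.ι) (w : Fin n → ℤ)
    (hw : ∀ j, 0 ≤ Matrix.vecMul w (D.R τ) j) : T.χ w ∈ (T.at D τ).std := by
  rw [TorusField.mem_std]
  refine Submodule.subset_span ⟨Matrix.vecMul w (D.R τ), hw, ?_⟩
  rw [aux_chi_at, Matrix.vecMul_vecMul, aux_RE, Matrix.vecMul_one]

theorem aux_self (D : ToricData n) (τ : D.ι) (j : Fin n) :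
    Matrix.vecMul (-∑ k, D.E τ k) (D.R τ) j = -1 := by
  have h1 : (∑ k, D.E τ k) = Matrix.vecMul (fun _ => (1 : ℤ)) (D.E τ) := by
    rw [Matrix.vecMul_eq_sum]
    exact Finset.sum_congr rfl fun k _ => (one_smul ℤ _).symm
  rw [h1, Matrix.neg_vecMul, Matrix.vecMul_vecMul, D.inv, Matrix.vecMul_one]
  rfl

theorem aux_p_mem (T : TorusField n K) (D : ToricData n) (σ τ : D.ι) :
    T.χ ((-∑ k, D.E σ k) - (-∑ k, D.E τ k)) ∈ (T.at D τ).std := by
  refine aux_mem_std T D τ _ fun j => ?_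
  rw [Matrix.sub_vecMul, Pi.sub_apply, aux_self]
  have := D.vert σ τ j
  linarith

theorem aux_chi_neg (T : TorusField n K) (u : Fin n → ℤ) : T.χ u * T.χ (-u) = 1 := by
  rw [← T.χ_add, add_neg_cancel, T.χ_zero]

theorem aux_exists_pow (T : TorusField n K) (D : ToricData n) (σ τ : D.ι) (a : K)
    (ha : a ∈ (T.at D σ).std) :
    ∃ N : ℕ, a * T.χ ((-∑ k, D.E σ k) - (-∑ k, D.E τ k)) ^ N ∈ (T.at D τ).std := by
  have hp := aux_p_mem T D σ τ
  set p := T.χ ((-∑ k, D.E σ k) - (-∑ k, D.E τ k)) with hpdef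
  unfold TorusField.std at ha
  induction ha using Algebra.adjoin_induction with
  | mem x hx =>
    obtain ⟨i, rfl⟩ := hx
    refine ⟨1, ?_⟩
    beta_reduce
    rw [pow_one, aux_chi_at, Matrix.single_one_vecMul, hpdef, ← T.χ_add]
    refine aux_mem_std T D τ _ fun j => ?_
    have h1 := D.nbr σ τ i j
    have h2 := aux_self D τ j
    have h3 : (D.E σ).row i + (-∑ k, D.E σ k - -∑ k, D.E τ k) =
        (D.E σ i - ∑ k, D.E σ k) - (-∑ k, D.E τ k) := by
      ext j
      simp only [Pi.add_apply, Pi.sub_apply, Pi.neg_apply, Matrix.row_apply]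
      ring
    rw [h3, Matrix.sub_vecMul, Pi.sub_apply, h2]
    linarith
  | algebraMap r =>
    refine ⟨0, ?_⟩
    rw [pow_zero, mul_one]
    exact Subalgebra.algebraMap_mem _ r
  | add x y _ _ hx hy =>
    obtain ⟨N1, h1⟩ := hx
    obtain ⟨N2, h2⟩ := hy
    refine ⟨N1 + N2, ?_⟩
    have : (x + y) * p ^ (N1 + N2) = (x * p ^ N1) * p ^ N2 + (y * p ^ N2) * p ^ N1 := by
      rw [pow_add]; ring
    rw [this]
    exact Subalgebra.add_mem _ (Subalgebra.mul_mem _ h1 (Subalgebra.pow_mem _ hp _))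
      (Subalgebra.mul_mem _ h2 (Subalgebra.pow_mem _ hp _))
  | mul x y _ _ hx hy =>
    obtain ⟨N1, h1⟩ := hx
    obtain ⟨N2, h2⟩ := hy
    refine ⟨N1 + N2, ?_⟩
    have : (x * y) * p ^ (N1 + N2) = (x * p ^ N1) * (y * p ^ N2) := by
      rw [pow_add]; ring
    rw [this]
    exact Subalgebra.mul_mem _ h1 h2

theorem aux_sub (T : TorusField n K) (D : ToricData n) (σ τ : D.ι) (V : ValuationSubring K)
    (h1 : ∀ f ∈ (T.at D σ).std, f ∈ V) (h2 : ∀ f ∈ (T.at D τ).std, f ∈ V) :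
    locAtCentre (T.at D σ).std V ⊆ locAtCentre (T.at D τ).std V := by
  have hp := aux_p_mem T D σ τ
  have hpow := aux_exists_pow T D σ τ
  have hinv : (T.χ ((-∑ k, D.E σ k) - (-∑ k, D.E τ k)))⁻¹ ∈ V := by
    have h3 : (T.χ ((-∑ k, D.E σ k) - (-∑ k, D.E τ k)))⁻¹ =
        T.χ ((-∑ k, D.E τ k) - (-∑ k, D.E σ k)) := by
      rw [← neg_sub (-∑ k, D.E σ k) (-∑ k, D.E τ k)]
      exact inv_eq_of_mul_eq_one_right (aux_chi_neg T _)
    rw [h3]
    exact h1 _ (aux_p_mem T D τ σ)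
  have hne : T.χ ((-∑ k, D.E σ k) - (-∑ k, D.E τ k)) ≠ 0 :=
    left_ne_zero_of_mul_eq_one (aux_chi_neg T _)
  set p := T.χ ((-∑ k, D.E σ k) - (-∑ k, D.E τ k)) with hpdef
  rintro z ⟨a, ha, s, hs, hs0, hsV, hz⟩
  obtain ⟨N1, hN1⟩ := hpow a ha
  obtain ⟨N2, hN2⟩ := hpow s hs
  refine ⟨a * p ^ (N1 + N2), ?_, s * p ^ (N1 + N2), ?_, ?_, ?_, ?_⟩
  · rw [pow_add, ← mul_assoc]
    exact Subalgebra.mul_mem _ hN1 (Subalgebra.pow_mem _ hp _)
  · rw [add_comm, pow_add, ← mul_assoc]
    exact Subalgebra.mul_mem _ hN2 (Subalgebra.pow_mem _ hp _)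
  · exact mul_ne_zero hs0 (pow_ne_zero _ hne)
  · rw [mul_inv, ← inv_pow]
    exact V.mul_mem _ _ hsV (pow_mem hinv _)
  · rw [← mul_assoc, hz]

theorem toric_separated (T : TorusField n K) (D : ToricData n) (σ τ : D.ι) (V : ValuationSubring K)
    (h1 : ∀ f ∈ (T.at D σ).std, f ∈ V) (h2 : ∀ f ∈ (T.at D τ).std, f ∈ V) :
    locAtCentre (T.at D σ).std V = locAtCentre (T.at D τ).std V :=
  Set.Subset.antisymm (aux_sub T D σ τ V h1 h2) (aux_sub T D τ σ V h2 h1)

theorem toric_complete (T : TorusField n K) (D : ToricData n) (V : ValuationSubring K)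
    (h : ∀ c : ℂ, algebraMap ℂ K c ∈ V) : ∃ σ, ∀ f ∈ (T.at D σ).std, f ∈ V := by
  obtain ⟨σ, hσ⟩ := D.complete {u | T.χ u ∈ V}
    (fun u v (hu : T.χ u ∈ V) (hv : T.χ v ∈ V) => by
      change T.χ (u + v) ∈ V
      rw [T.χ_add]
      exact V.mul_mem _ _ hu hv)
    (fun u => by
      rcases V.mem_or_inv_mem (T.χ u) with h1 | h1
      · exact Or.inl h1
      · right
        change T.χ (-u) ∈ V
        have : (T.χ u)⁻¹ = T.χ (-u) :=
          inv_eq_of_mul_eq_one_right (aux_chi_neg T _)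
        rwa [this] at h1)
  refine ⟨σ, fun f hf => ?_⟩
  unfold TorusField.std at hf
  induction hf using Algebra.adjoin_induction with
  | mem x hx =>
    obtain ⟨i, rfl⟩ := hx
    beta_reduce
    rw [aux_chi_at, Matrix.single_one_vecMul]
    exact hσ i
  | algebraMap r => exact h r
  | add x y _ _ hx hy => exact V.add_mem _ _ hx hy
  | mul x y _ _ hx hy => exact V.mul_mem _ _ hx hy

end targets

section toric

variable {n : ℕ} {K : Type} [Field K] [Algebra ℂ K]

/-- The toric variety as a smooth complete variety. -/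
@[reducible] def toricVariety (T : TorusField n K) (D : ToricData n) : Variety where
  dim := n
  K := K
  ι := D.ι
  chart σ := (T.at D σ).std
  frac σ := (T.at D σ).std_frac
  smooth σ := (T.at D σ).std_smooth
  separated := toric_separated T D
  complete := toric_complete T D
  der := Classical.choose T.exists_basis

theorem toric_jac (T : TorusField n K) (D : ToricData n) (g : Fin n → K) :
    (toricVariety T D).jac g = Matrix.det (Matrix.of fun i j => T.θ i (g j)) := by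
  have h := Classical.choose_spec T.exists_basis
  show Matrix.det (Matrix.of fun i j => (Classical.choose T.exists_basis) i (g j)) = _
  congr 1
  ext i j
  simp only [Matrix.of_apply]
  rw [h i]

/-- `χ` of the sum of the coordinate exponents of the chart `σ`: the product of the coordinates. -/
def TorusField.top (T : TorusField n K) (D : ToricData n) (σ : D.ι) : K := T.χ (∑ k, D.E σ k)

end toric

end Pool.Agent.Helper774.KStab
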