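import Pool.Agent.Helper774.KStab.Defs

open scoped ENNReal

noncomputable section

namespace Pool.Agent.Helper774.KStab

/-- A field `K` containing `ℂ` with characters `χ u` (`u ∈ ℤ^n`) which are linearly independent and
whose span has fraction field `K` (so `K = ℂ(x_1, ..., x_n)`, `χ u = x^u`), and the derivations
`θ i = x_i ∂/∂x_i`. -/
structure TorusField (n : ℕ) (K : Type) [Field K] [Algebra ℂ K] where
  χ : (Fin n → ℤ) → K
  χ_zero : χ 0 = 1
  χ_add : ∀ u v, χ (u + v) = χ u * χ v
  li : LinearIndependent ℂ χ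
  frac : ∀ f : K, ∃ a ∈ Submodule.span ℂ (Set.range χ), ∃ b ∈ Submodule.span ℂ (Set.range χ),
    b ≠ 0 ∧ f * b = a
  θ : Fin n → Derivation ℂ K K
  θ_χ : ∀ i u, θ i (χ u) = ((u i : ℤ) : K) * χ u

/-- A `ℂ`-trivial integer valued valuation, as a function on nonzero elements. -/
structure IntVal (K : Type) [Field K] [Algebra ℂ K] where
  w : K → ℤ
  mul : ∀ x y, x ≠ 0 → y ≠ 0 → w (x * y) = w x + w y
  add : ∀ x y, x ≠ 0 → y ≠ 0 → x + y ≠ 0 → min (w x) (w y) ≤ w (x + y)
  triv : ∀ c : ℂ, c ≠ 0 → w (algebraMap ℂ K c) = 0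

section s8661

section aux8661

variable (n : ℕ)

private abbrev AA : Type := AddMonoidAlgebra ℂ (Fin n → ℤ)

private abbrev KK : Type := FractionRing (AA n)

private instance instDomAA : IsDomain (AA n) := inferInstance

private def chiA (u : Fin n → ℤ) : AA n := AddMonoidAlgebra.single u 1

private def chiK (u : Fin n → ℤ) : KK n := algebraMap (AA n) (KK n) (chiA n u)

private lemma chiA_add (u v : Fin n → ℤ) : chiA n (u + v) = chiA n u * chiA n v := by
  simp [chiA, AddMonoidAlgebra.single_mul_single]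

private lemma chiA_zero : chiA n 0 = 1 := rfl

private lemma chiK_add (u v : Fin n → ℤ) : chiK n (u + v) = chiK n u * chiK n v := by
  simp [chiK, chiA_add]

private lemma chiK_zero : chiK n 0 = 1 := by
  simp [chiK, chiA_zero]

private def homM (i : Fin n) : Multiplicative (Fin n → ℤ) →* TrivSqZeroExt (KK n) (KK n) where
  toFun u := TrivSqZeroExt.inl (chiK n u.toAdd) +
    TrivSqZeroExt.inr (((u.toAdd i : ℤ) : KK n) * chiK n u.toAdd)
  map_one' := by
    ext
    · simp [chiK_zero]
    · simp [chiK_zero]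
  map_mul' u v := by
    ext
    · simp [chiK_add]
    · simp only [toAdd_mul, Pi.add_apply, Int.cast_add, chiK_add, TrivSqZeroExt.snd_add,
        TrivSqZeroExt.snd_inl, TrivSqZeroExt.snd_inr, TrivSqZeroExt.snd_mul,
        TrivSqZeroExt.fst_add, TrivSqZeroExt.fst_inl, TrivSqZeroExt.fst_inr, smul_eq_mul,
        MulOpposite.smul_eq_mul_unop, MulOpposite.unop_op]
      ring

private def homA (i : Fin n) : AA n →ₐ[ℂ] TrivSqZeroExt (KK n) (KK n) :=
  AddMonoidAlgebra.lift ℂ (TrivSqZeroExt (KK n) (KK n)) (Fin n → ℤ) (homM n i)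

private lemma homA_chi (i : Fin n) (u : Fin n → ℤ) :
    homA n i (chiA n u) = TrivSqZeroExt.inl (chiK n u) +
      TrivSqZeroExt.inr (((u i : ℤ) : KK n) * chiK n u) := by
  simp [homA, chiA, homM]

private lemma algebraMap_smul_aux (r : ℂ) (x : AA n) :
    algebraMap (AA n) (KK n) (r • x) = r • algebraMap (AA n) (KK n) x :=
  map_smul (IsScalarTower.toAlgHom ℂ (AA n) (KK n)) r x

private lemma homA_fst (i : Fin n) (a : AA n) :
    (homA n i a).fst = algebraMap (AA n) (KK n) a := by
  induction a using AddMonoidAlgebra.induction_on with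
  | of u =>
    have := homA_chi n i u
    simp only [chiA] at this
    simp only [AddMonoidAlgebra.of_apply, toAdd_ofAdd]
    rw [this]
    simp [chiK, chiA]
  | add x y hx hy => simp [hx, hy]
  | smul r x hx =>
    rw [map_smul, TrivSqZeroExt.fst_smul, hx, algebraMap_smul_aux]

private lemma homA_unit (i : Fin n) (y : nonZeroDivisors (AA n)) : IsUnit (homA n i y) := by
  rw [TrivSqZeroExt.isUnit_iff_isUnit_fst, homA_fst]
  exact IsLocalization.map_units (KK n) y

private def homK (i : Fin n) : KK n →ₐ[ℂ] TrivSqZeroExt (KK n) (KK n) :=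
  IsLocalization.liftAlgHom (M := nonZeroDivisors (AA n)) (f := homA n i) (homA_unit n i)

private lemma homK_algebraMap (i : Fin n) (a : AA n) :
    homK n i (algebraMap (AA n) (KK n) a) = homA n i a := by
  simp [homK]

private lemma homK_fst (i : Fin n) (x : KK n) : (homK n i x).fst = x := by
  obtain ⟨a, b, hb, rfl⟩ := IsFractionRing.div_surjective (A := AA n) x
  have hb0 : algebraMap (AA n) (KK n) b ≠ 0 := by
    have := nonZeroDivisors.ne_zero hb
    simpa using this
  have h1 : (homK n i (algebraMap (AA n) (KK n) a / algebraMap (AA n) (KK n) b)).fst *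
      algebraMap (AA n) (KK n) b = algebraMap (AA n) (KK n) a := by
    have h2 : algebraMap (AA n) (KK n) b = (homK n i (algebraMap (AA n) (KK n) b)).fst := by
      rw [homK_algebraMap, homA_fst]
    conv_lhs => rw [h2]
    rw [← h2]
    have h3 : (homK n i (algebraMap (AA n) (KK n) a / algebraMap (AA n) (KK n) b)).fst *
      (homK n i (algebraMap (AA n) (KK n) b)).fst = algebraMap (AA n) (KK n) a := by
      rw [← TrivSqZeroExt.fst_mul, ← map_mul, div_mul_cancel₀ _ hb0, homK_algebraMap, homA_fst]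
    rwa [← h2] at h3
  rw [eq_div_iff hb0]
  exact h1

private def derK (i : Fin n) : Derivation ℂ (KK n) (KK n) :=
  Derivation.mk' ((TrivSqZeroExt.sndHom (KK n) (KK n)).restrictScalars ℂ ∘ₗ (homK n i).toLinearMap)
    (by
      intro a b
      simp [homK_fst, mul_comm])

private lemma derK_apply (i : Fin n) (x : KK n) : derK n i x = (homK n i x).snd := rfl

private lemma derK_chi (i : Fin n) (u : Fin n → ℤ) :
    derK n i (chiK n u) = ((u i : ℤ) : KK n) * chiK n u := by
  rw [derK_apply, chiK, homK_algebraMap, homA_chi]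
  simp [chiK]

private lemma chiK_li : LinearIndependent ℂ (chiK n) := by
  have h1 : LinearIndependent ℂ (chiA n) := by
    have h := (Finsupp.basisSingleOne (R := ℂ) (ι := Fin n → ℤ)).linearIndependent
    have h' : LinearIndependent ℂ ((AddMonoidAlgebra.coeffLinearEquiv ℂ : AA n ≃ₗ[ℂ] _).toLinearMap ∘ chiA n) := by
      convert h using 1
      funext u
      simp [chiA]
    exact h'.of_comp _
  have h2 := h1.map' (IsScalarTower.toAlgHom ℂ (AA n) (KK n)).toLinearMap (by
    rw [LinearMap.ker_eq_bot]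
    exact IsFractionRing.injective (AA n) (KK n))
  exact h2

private lemma mem_span (a : AA n) :
    algebraMap (AA n) (KK n) a ∈ Submodule.span ℂ (Set.range (chiK n)) := by
  induction a using AddMonoidAlgebra.induction_on with
  | of u => exact Submodule.subset_span ⟨u, rfl⟩
  | add x y hx hy => rw [map_add]; exact Submodule.add_mem _ hx hy
  | smul r x hx =>
    rw [algebraMap_smul_aux]
    exact Submodule.smul_mem _ _ hx

end aux8661

/-- Existence of the function field of the `n`-dimensional torus. -/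
theorem exists_torusField (n : ℕ) :
    ∃ (K : Type) (_ : Field K) (_ : Algebra ℂ K), Nonempty (TorusField n K) := by
  refine ⟨KK n, inferInstance, inferInstance, ⟨{
    χ := chiK n
    χ_zero := chiK_zero n
    χ_add := chiK_add n
    li := chiK_li n
    frac := ?_
    θ := derK n
    θ_χ := derK_chi n }⟩⟩
  intro f
  obtain ⟨a, b, hb, rfl⟩ := IsFractionRing.div_surjective (A := AA n) f
  have hb0 : algebraMap (AA n) (KK n) b ≠ 0 := by
    have := nonZeroDivisors.ne_zero hb
    simpa using this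
  exact ⟨_, mem_span n a, _, mem_span n b, hb0, div_mul_cancel₀ _ hb0⟩

end s8661

section s8662

variable {n : ℕ} {K : Type} [Field K] [Algebra ℂ K]

theorem q8662_ne (T : TorusField n K) (u : Fin n → ℤ) : T.χ u ≠ 0 := by
  intro h
  have h1 := T.χ_add u (-u)
  rw [add_neg_cancel, T.χ_zero, h, zero_mul] at h1
  exact one_ne_zero h1

theorem q8662_zero (T : TorusField n K) (E : Derivation ℂ K K) (h : ∀ u, E (T.χ u) = 0) :
    E = 0 := by
  have hs : ∀ a ∈ Submodule.span ℂ (Set.range T.χ), E a = 0 := by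
    intro a ha
    induction ha using Submodule.span_induction with
    | mem x hx =>
      obtain ⟨u, rfl⟩ := hx
      exact h u
    | zero => exact map_zero E
    | add x y _ _ hx hy => rw [map_add, hx, hy, add_zero]
    | smul c x _ hx => rw [Derivation.map_smul, hx, smul_zero]
  ext f
  obtain ⟨a, ha, b, hb, hb0, hab⟩ := T.frac f
  have h1 := hs a ha
  rw [← hab, Derivation.leibniz, hs b hb, smul_zero, zero_add, smul_eq_mul] at h1
  rcases mul_eq_zero.1 h1 with h2 | h2
  · exact absurd h2 hb0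
  · exact h2

theorem q8662_log (T : TorusField n K) (D : Derivation ℂ K K) (u : Fin n → ℤ) :
    D (T.χ u) = (∑ i, ((u i : ℤ) : K) * (D (T.χ (Pi.single i 1)) / T.χ (Pi.single i 1))) *
      T.χ u := by
  let L : (Fin n → ℤ) →+ K :=
    { toFun := fun u => D (T.χ u) / T.χ u
      map_zero' := by
        rw [T.χ_zero, Derivation.map_one_eq_zero, zero_div]
      map_add' := by
        intro u v
        have h1 := q8662_ne T u
        have h2 := q8662_ne T v
        rw [T.χ_add, Derivation.leibniz, smul_eq_mul, smul_eq_mul]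
        field_simp
        ring }
  have hL : L u = ∑ i, ((u i : ℤ) : K) * L (Pi.single i 1) := by
    have h1 : u = ∑ i, u i • (Pi.single i (1 : ℤ) : Fin n → ℤ) := by
      ext j
      simp [Finset.sum_apply, Pi.single_apply]
    conv_lhs => rw [h1]
    rw [map_sum]
    apply Finset.sum_congr rfl
    intro i _
    rw [map_zsmul, zsmul_eq_mul]
  have h2 : L u = D (T.χ u) / T.χ u := rfl
  have h3 : ∀ i, L (Pi.single i 1) = D (T.χ (Pi.single i 1)) / T.χ (Pi.single i 1) := fun i => rfl
  have h4 := q8662_ne T u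
  rw [h2, div_eq_iff h4] at hL
  rw [hL]
  simp only [h3]

theorem q8662_sum_apply (T : TorusField n K) (g : Fin n → K) (f : K) :
    (∑ i, g i • T.θ i) f = ∑ i, g i * T.θ i f := by
  rw [← Derivation.coeFnAddMonoidHom_apply, map_sum, Finset.sum_apply]
  apply Finset.sum_congr rfl
  intro i _
  rw [Derivation.coeFnAddMonoidHom_apply, Derivation.smul_apply, smul_eq_mul]

/-- The derivations `θ i` form a `K`-basis of all `ℂ`-derivations of `K`. -/
theorem TorusField.exists_basis (T : TorusField n K) :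
    ∃ b : Module.Basis (Fin n) K (Derivation ℂ K K), ∀ i, b i = T.θ i := by
  have hli : LinearIndependent K T.θ := by
    rw [Fintype.linearIndependent_iff]
    intro g hg j
    have h1 : (∑ i, g i • T.θ i) (T.χ (Pi.single j 1)) = 0 := by rw [hg]; rfl
    rw [q8662_sum_apply] at h1
    simp only [T.θ_χ] at h1
    rw [Finset.sum_eq_single j] at h1
    · rw [Pi.single_eq_same] at h1
      have h2 := q8662_ne T (Pi.single j 1)
      simpa [h2] using h1
    · intro b _ hb
      rw [Pi.single_eq_of_ne hb]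
      simp
    · intro h
      exact absurd (Finset.mem_univ j) h
  have hsp : ⊤ ≤ Submodule.span K (Set.range T.θ) := by
    intro D _
    obtain ⟨g, hg⟩ : ∃ g : Fin n → K, g = fun i =>
      D (T.χ (Pi.single i 1)) / T.χ (Pi.single i 1) := ⟨_, rfl⟩
    have h1 : D - ∑ i, g i • T.θ i = 0 := by
      apply q8662_zero T
      intro u
      rw [Derivation.sub_apply, q8662_sum_apply, q8662_log T D u, Finset.sum_mul, sub_eq_zero]
      apply Finset.sum_congr rfl
      intro i _
      rw [T.θ_χ, hg]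
      ring
    rw [sub_eq_zero] at h1
    rw [h1]
    apply Submodule.sum_mem
    intro i _
    exact Submodule.smul_mem _ _ (Submodule.subset_span ⟨i, rfl⟩)
  exact ⟨Module.Basis.mk hli hsp, fun i => Module.Basis.mk_apply hli hsp i⟩

end s8662

section s8663

variable {n : ℕ} {K : Type} [Field K] [Algebra ℂ K]

theorem deriv_sum_apply {ι : Type} (s : Finset ι) (D : ι → Derivation ℂ K K) (x : K) :
    (∑ j ∈ s, D j) x = ∑ j ∈ s, D j x := by
  have h := map_sum (Derivation.coeFnAddMonoidHom (R := ℂ) (A := K) (M := K)) D s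
  have h2 := congrFun h x
  rw [Finset.sum_apply] at h2
  exact h2

/-- Change of coordinates by a unimodular matrix. -/
def TorusField.reindex (T : TorusField n K) (E R : Matrix (Fin n) (Fin n) ℤ) (h : E * R = 1) :
    TorusField n K where
  χ u := T.χ (Matrix.vecMul u E)
  χ_zero := by rw [Matrix.zero_vecMul]; exact T.χ_zero
  χ_add := by intro u v; rw [Matrix.add_vecMul]; exact T.χ_add _ _
  li := by
    refine T.li.comp (fun u => Matrix.vecMul u E) ?_
    intro u v huv
    have h1 : Matrix.vecMul (Matrix.vecMul u E) R = Matrix.vecMul (Matrix.vecMul v E) R :=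
      congrArg (fun z => Matrix.vecMul z R) huv
    rwa [Matrix.vecMul_vecMul, Matrix.vecMul_vecMul, h, Matrix.vecMul_one, Matrix.vecMul_one] at h1
  frac := by
    have h' : R * E = 1 := mul_eq_one_comm.mp h
    have hr : Set.range (fun u => T.χ (Matrix.vecMul u E)) = Set.range T.χ := by
      ext z
      constructor
      · rintro ⟨u, rfl⟩
        exact ⟨_, rfl⟩
      · rintro ⟨u, rfl⟩
        refine ⟨Matrix.vecMul u R, ?_⟩
        show T.χ (Matrix.vecMul (Matrix.vecMul u R) E) = T.χ u
        rw [Matrix.vecMul_vecMul, h', Matrix.vecMul_one]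
    rw [hr]
    exact T.frac
  θ i := ∑ j, ((R j i : ℤ) : K) • T.θ j
  θ_χ := by
    intro i u
    have h1 : Matrix.vecMul (Matrix.vecMul u E) R = u := by
      rw [Matrix.vecMul_vecMul, h, Matrix.vecMul_one]
    have h2 : u i = ∑ j, Matrix.vecMul u E j * R j i := by
      conv_lhs => rw [← h1]
      rfl
    rw [deriv_sum_apply]
    have h3 : ∀ j, (((R j i : ℤ) : K) • T.θ j) (T.χ (Matrix.vecMul u E)) =
        (((Matrix.vecMul u E j * R j i : ℤ)) : K) * T.χ (Matrix.vecMul u E) := by
      intro j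
      rw [Derivation.smul_apply, T.θ_χ, smul_eq_mul]
      push_cast
      ring
    rw [Finset.sum_congr rfl (fun j _ => h3 j), ← Finset.sum_mul, h2]
    push_cast
    rfl

theorem TorusField.det_reindex (T : TorusField n K) (E R : Matrix (Fin n) (Fin n) ℤ) (h : E * R = 1)
    (g : Fin n → K) :
    Matrix.det (Matrix.of fun i j => (T.reindex E R h).θ i (g j)) =
      ((R.det : ℤ) : K) * Matrix.det (Matrix.of fun i j => T.θ i (g j)) := by
  have h1 : (Matrix.of fun i j => (T.reindex E R h).θ i (g j)) =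
      ((Int.castRingHom K).mapMatrix R).transpose * (Matrix.of fun i j => T.θ i (g j)) := by
    ext i j
    rw [Matrix.mul_apply]
    show (∑ k, ((R k i : ℤ) : K) • T.θ k) (g j) = _
    rw [deriv_sum_apply]
    rfl
  rw [h1, Matrix.det_mul, Matrix.det_transpose, ← RingHom.map_det]
  rfl

theorem TorusField.det_unit (E R : Matrix (Fin n) (Fin n) ℤ) (h : E * R = 1) :
    R.det = 1 ∨ R.det = -1 := by
  have h1 : E.det * R.det = 1 := by
    rw [← Matrix.det_mul, h, Matrix.det_one]
  exact Int.isUnit_iff.mp (IsUnit.of_mul_eq_one E.det (by rw [mul_comm]; exact h1))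

end s8663

section s8664

variable {n : ℕ} {K : Type} [Field K] [Algebra ℂ K]

/-- The coordinate ring `ℂ[x_1, ..., x_n]` of the standard chart. -/
def TorusField.std (T : TorusField n K) : Subalgebra ℂ K :=
  Algebra.adjoin ℂ (Set.range fun i : Fin n => T.χ (Pi.single i 1))

theorem TorusField.χ_nsmul (T : TorusField n K) (u : Fin n → ℤ) (k : ℕ) :
    T.χ (k • u) = T.χ u ^ k := by
  induction k with
  | zero => simp [T.χ_zero]
  | succ k ih => rw [succ_nsmul, T.χ_add, ih, pow_succ]

theorem TorusField.χ_sum (T : TorusField n K) {ι : Type*} (s : Finset ι)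
    (u : ι → Fin n → ℤ) : T.χ (∑ i ∈ s, u i) = ∏ i ∈ s, T.χ (u i) := by
  classical
  induction s using Finset.induction_on with
  | empty => simp [T.χ_zero]
  | insert a s ha ih => rw [Finset.sum_insert ha, Finset.prod_insert ha, T.χ_add, ih]

theorem TorusField.χ_ne (T : TorusField n K) (u : Fin n → ℤ) : T.χ u ≠ 0 := by
  intro h
  have h1 := T.χ_add u (-u)
  rw [h, zero_mul, add_neg_cancel, T.χ_zero] at h1
  exact one_ne_zero h1

/-- the presentation of the standard chart -/
def TorusField.pres (T : TorusField n K) : MvPolynomial (Fin n) ℂ →ₐ[ℂ] K :=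
  MvPolynomial.aeval (fun i => T.χ (Pi.single i 1))

theorem TorusField.pres_monomial (T : TorusField n K) (d : Fin n →₀ ℕ) (a : ℂ) :
    T.pres (MvPolynomial.monomial d a) = a • T.χ (fun i => (d i : ℤ)) := by
  rw [TorusField.pres, MvPolynomial.aeval_monomial, Algebra.smul_def,
    Finsupp.prod_fintype _ _ (fun i => pow_zero _)]
  congr 1
  have h : (fun i => (d i : ℤ)) = ∑ i, d i • (Pi.single i 1 : Fin n → ℤ) := by
    ext j
    rw [Finset.sum_apply]
    simp [Pi.single_apply]
  rw [h, T.χ_sum]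
  exact Finset.prod_congr rfl fun i _ => (T.χ_nsmul _ _).symm

theorem TorusField.std_eq (T : TorusField n K) : T.std = T.pres.range := by
  rw [TorusField.std, TorusField.pres]
  exact Algebra.adjoin_range_eq_range_aeval ℂ _

theorem TorusField.pres_inj (T : TorusField n K) : Function.Injective T.pres := by
  rw [injective_iff_map_eq_zero]
  intro p hp
  have hinj : Function.Injective (fun (d : Fin n →₀ ℕ) (i : Fin n) => (d i : ℤ)) := by
    intro d e hde
    ext i
    have h : (d i : ℤ) = (e i : ℤ) := congrFun hde i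
    exact_mod_cast h
  have hli := T.li.comp _ hinj
  have hsum : ∑ d ∈ p.support, MvPolynomial.coeff d p • T.χ (fun i => (d i : ℤ)) = 0 := by
    rw [← hp]
    conv_rhs => rw [p.as_sum, map_sum]
    exact Finset.sum_congr rfl fun d _ => (T.pres_monomial d _).symm
  have h0 := linearIndependent_iff'.1 hli p.support (fun d => MvPolynomial.coeff d p) hsum
  ext d
  by_cases hd : d ∈ p.support
  · rw [h0 d hd, MvPolynomial.coeff_zero]
  · rw [MvPolynomial.notMem_support_iff.1 hd, MvPolynomial.coeff_zero]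

theorem TorusField.χ_mem_std (T : TorusField n K) {u : Fin n → ℤ} (hu : ∀ j, 0 ≤ u j) :
    T.χ u ∈ T.std := by
  rw [T.std_eq]
  refine ⟨MvPolynomial.monomial (Finsupp.equivFunOnFinite.symm fun j => (u j).toNat) 1, ?_⟩
  show T.pres _ = _
  rw [T.pres_monomial, one_smul]
  congr 1
  ext j
  simp [Int.toNat_of_nonneg (hu j)]

theorem TorusField.mem_std (T : TorusField n K) (f : K) :
    f ∈ T.std ↔ f ∈ Submodule.span ℂ (T.χ '' {u | ∀ j, 0 ≤ u j}) := by
  constructor
  · intro h
    rw [T.std_eq] at h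
    obtain ⟨p, rfl⟩ := h
    show T.pres p ∈ _
    rw [p.as_sum, map_sum]
    refine Submodule.sum_mem _ fun d _ => ?_
    rw [T.pres_monomial]
    exact Submodule.smul_mem _ _ (Submodule.subset_span ⟨_, fun j => Int.natCast_nonneg _, rfl⟩)
  · intro h
    have : Submodule.span ℂ (T.χ '' {u | ∀ j, 0 ≤ u j}) ≤ Subalgebra.toSubmodule T.std := by
      rw [Submodule.span_le]
      rintro _ ⟨u, hu, rfl⟩
      exact T.χ_mem_std hu
    exact this h

/-- the standard chart is a polynomial ring -/
def TorusField.stdEquiv (T : TorusField n K) : MvPolynomial (Fin n) ℂ ≃ₐ[ℂ] T.std :=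
  (AlgEquiv.ofInjective T.pres T.pres_inj).trans (Subalgebra.equivOfEq _ _ T.std_eq.symm)

theorem TorusField.std_smooth (T : TorusField n K) : Algebra.Smooth ℂ T.std := by
  have : Algebra.Smooth ℂ (MvPolynomial (Fin n) ℂ) := ⟨inferInstance, inferInstance⟩
  exact Algebra.Smooth.of_equiv T.stdEquiv

theorem TorusField.std_fg (T : TorusField n K) : T.std.FG := by
  classical
  refine ⟨Finset.univ.image fun i : Fin n => T.χ (Pi.single i 1), ?_⟩
  rw [TorusField.std]
  congr 1
  simp

theorem TorusField.shift (T : TorusField n K) {a : K}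
    (ha : a ∈ Submodule.span ℂ (Set.range T.χ)) :
    ∃ N : Fin n → ℤ, ∀ M, N ≤ M → T.χ M * a ∈ T.std := by
  induction ha using Submodule.span_induction with
  | mem x hx =>
    obtain ⟨u, rfl⟩ := hx
    refine ⟨-u, fun M hM => ?_⟩
    rw [← T.χ_add]
    refine T.χ_mem_std fun j => ?_
    have := hM j
    simp only [Pi.neg_apply, Pi.add_apply] at this ⊢
    linarith
  | zero => exact ⟨0, fun M _ => by rw [mul_zero]; exact T.std.zero_mem⟩
  | add x y _ _ hx hy =>
    obtain ⟨N, hN⟩ := hx
    obtain ⟨N', hN'⟩ := hy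
    refine ⟨N ⊔ N', fun M hM => ?_⟩
    rw [mul_add]
    exact T.std.add_mem (hN M (le_sup_left.trans hM)) (hN' M (le_sup_right.trans hM))
  | smul c x _ hx =>
    obtain ⟨N, hN⟩ := hx
    refine ⟨N, fun M hM => ?_⟩
    rw [mul_smul_comm]
    exact T.std.smul_mem (hN M hM) c

theorem TorusField.std_frac (T : TorusField n K) : IsFractionRing T.std K := by
  refine IsFractionRing.of_field T.std K fun z => ?_
  obtain ⟨a, ha, b, hb, hb0, hab⟩ := T.frac z
  obtain ⟨N, hN⟩ := T.shift ha
  obtain ⟨N', hN'⟩ := T.shift hb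
  refine ⟨⟨T.χ (N ⊔ N') * a, hN _ le_sup_left⟩, ⟨T.χ (N ⊔ N') * b, hN' _ le_sup_right⟩, ?_⟩
  show z = (T.χ (N ⊔ N') * a) / (T.χ (N ⊔ N') * b)
  rw [mul_div_mul_left _ _ (T.χ_ne _), eq_div_iff hb0]
  exact hab

end s8664

section s8665

variable {n : ℕ} {K : Type} [Field K] [Algebra ℂ K]

theorem TorusField.theta_std (T : TorusField n K) (i : Fin n) {f : K} (hf : f ∈ T.std) :
    ∃ h ∈ T.std, T.θ i f = T.χ (Pi.single i 1) * h := by
  unfold TorusField.std at hf
  induction hf using Algebra.adjoin_induction with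
  | mem x hx =>
    obtain ⟨j, rfl⟩ := hx
    by_cases hij : i = j
    · subst hij
      refine ⟨1, T.std.one_mem, ?_⟩
      simp [T.θ_χ]
    · refine ⟨0, T.std.zero_mem, ?_⟩
      simp [T.θ_χ, Pi.single_eq_of_ne hij]
  | algebraMap r =>
    refine ⟨0, T.std.zero_mem, ?_⟩
    simp
  | add x y _ _ hx hy =>
    obtain ⟨a, ha, ha'⟩ := hx
    obtain ⟨b, hb, hb'⟩ := hy
    exact ⟨a + b, T.std.add_mem ha hb, by rw [map_add, ha', hb', mul_add]⟩
  | mul x y hx' hy' hx hy =>
    obtain ⟨a, ha, ha'⟩ := hx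
    obtain ⟨b, hb, hb'⟩ := hy
    refine ⟨x * b + y * a, T.std.add_mem (T.std.mul_mem hx' hb) (T.std.mul_mem hy' ha), ?_⟩
    rw [Derivation.leibniz, ha', hb']
    simp only [smul_eq_mul]
    ring

theorem TorusField.prod_chi (T : TorusField n K) :
    ∏ i : Fin n, T.χ (Pi.single i 1) = T.χ (fun _ => 1) := by
  have h : ∀ s : Finset (Fin n), ∏ i ∈ s, T.χ (Pi.single i 1) = T.χ (∑ i ∈ s, Pi.single i 1) := by
    intro s
    classical
    induction s using Finset.induction_on with
    | empty => simp [T.χ_zero]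
    | insert a s ha ih => rw [Finset.prod_insert ha, Finset.sum_insert ha, T.χ_add, ih]
  rw [h]
  congr 1
  exact Finset.univ_sum_single (fun _ : Fin n => (1 : ℤ))

/-- the local ring as a subring -/
def locSub (R : Subalgebra ℂ K) (p : Ideal R) (hp : p.IsPrime) : Subring K where
  carrier := locRing R p
  mul_mem' := by
    rintro x y ⟨a, s, hs, h⟩ ⟨b, t, ht, h'⟩
    refine ⟨a * b, s * t, fun hh => (hp.mem_or_mem hh).elim hs ht, ?_⟩
    push_cast
    rw [← h, ← h']; ring
  one_mem' := ⟨1, 1, fun h => hp.ne_top ((Ideal.eq_top_iff_one p).2 h), by simp⟩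
  add_mem' := by
    rintro x y ⟨a, s, hs, h⟩ ⟨b, t, ht, h'⟩
    refine ⟨a * t + b * s, s * t, fun hh => (hp.mem_or_mem hh).elim hs ht, ?_⟩
    push_cast
    rw [← h, ← h']; ring
  zero_mem' := ⟨0, 1, fun h => hp.ne_top ((Ideal.eq_top_iff_one p).2 h), by simp⟩
  neg_mem' := by
    rintro x ⟨a, s, hs, h⟩
    refine ⟨-a, s, hs, ?_⟩
    push_cast
    rw [← h]; ring

theorem TorusField.theta_loc (T : TorusField n K) (p : Ideal T.std) (hp : p.IsPrime) (i : Fin n)
    {z : K} (hz : z ∈ locRing T.std p) :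
    ∃ h ∈ locRing T.std p, T.θ i z = T.χ (Pi.single i 1) * h := by
  obtain ⟨a, s, hs, h⟩ := hz
  obtain ⟨ha, hha, hha'⟩ := T.theta_std i a.2
  obtain ⟨hs', hhs, hhs'⟩ := T.theta_std i s.2
  have hs0 : (s : K) ≠ 0 := by
    intro h0
    apply hs
    have : s = 0 := Subtype.ext h0
    rw [this]; exact p.zero_mem
  have h1 : T.θ i z * s = T.θ i a - z * T.θ i s := by
    rw [← h, Derivation.leibniz]
    simp only [smul_eq_mul]
    ring
  refine ⟨(ha * s - a * hs') / (s * s), ⟨⟨ha * s - a * hs', ?_⟩, s * s, ?_, ?_⟩, ?_⟩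
  · exact T.std.sub_mem (T.std.mul_mem hha s.2) (T.std.mul_mem a.2 hhs)
  · exact fun hh => (hp.mem_or_mem hh).elim hs hs
  · push_cast
    field_simp
  · rw [mul_div_assoc', eq_div_iff (mul_ne_zero hs0 hs0)]
    calc T.θ i z * (s * s) = (T.θ i z * s) * s := by ring
      _ = T.θ i a * s - (z * s) * T.θ i s := by rw [h1]; ring
      _ = T.χ (Pi.single i 1) * (ha * s - a * hs') := by rw [h, hha', hhs']; ring

theorem TorusField.det_aux (T : TorusField n K) (S : Subring K) (g : Fin n → K)
    (hg : ∀ i j, ∃ h ∈ S, T.θ i (g j) = T.χ (Pi.single i 1) * h) :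
    ∃ h ∈ S, Matrix.det (Matrix.of fun i j => T.θ i (g j)) = T.χ (fun _ => 1) * h := by
  choose H hH hH' using hg
  have h1 : Matrix.det (Matrix.of fun i j => T.θ i (g j)) =
      (∏ i : Fin n, T.χ (Pi.single i 1)) * Matrix.det (Matrix.of H) := by
    rw [← Matrix.det_mul_column]
    congr 1
    ext i j
    exact hH' i j
  refine ⟨Matrix.det (Matrix.of H), ?_, by rw [h1, T.prod_chi]⟩
  let H' : Matrix (Fin n) (Fin n) S := Matrix.of fun i j => ⟨H i j, hH i j⟩
  have h2 : Matrix.of H = S.subtype.mapMatrix H' := by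
    ext i j
    rfl
  rw [h2, ← RingHom.map_det]
  exact (Matrix.det H').2

/-- `df_1 ∧ ... ∧ df_n` for `f_j ∈ ℂ[x_1, ..., x_n]` is a polynomial multiple of
`dx_1 ∧ ... ∧ dx_n`. -/
theorem TorusField.det_std (T : TorusField n K) (g : Fin n → K) (hg : ∀ j, g j ∈ T.std) :
    ∃ h ∈ T.std, Matrix.det (Matrix.of fun i j => T.θ i (g j)) = T.χ (fun _ => 1) * h := by
  exact T.det_aux T.std.toSubring g fun i j => T.theta_std i (hg j)

theorem TorusField.det_locRing (T : TorusField n K) (p : Ideal T.std) (hp : p.IsPrime)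
    (g : Fin n → K) (hg : ∀ j, g j ∈ locRing T.std p) :
    ∃ h ∈ locRing T.std p,
      Matrix.det (Matrix.of fun i j => T.θ i (g j)) = T.χ (fun _ => 1) * h := by
  exact T.det_aux (locSub T.std p hp) g fun i j => T.theta_loc p hp i (hg j)

theorem TorusField.det_coord (T : TorusField n K) :
    Matrix.det (Matrix.of fun i j => T.θ i (T.χ (Pi.single j 1))) = T.χ (fun _ => 1) := by
  have h : (Matrix.of fun i j => T.θ i (T.χ (Pi.single j 1))) =
      Matrix.diagonal (fun i : Fin n => T.χ (Pi.single i 1)) := by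
    ext i j
    rw [Matrix.of_apply, T.θ_χ, Matrix.diagonal_apply]
    split_ifs with hij
    · subst hij; simp
    · simp [Pi.single_eq_of_ne hij]
  rw [h, Matrix.det_diagonal, T.prod_chi]

end s8665

section s8666

variable {n : ℕ} {K : Type} [Field K] [Algebra ℂ K]

private theorem w_prod {ι : Type} [DecidableEq ι] (w : IntVal K) (f : ι → K) (s : Finset ι)
    (hf : ∀ i ∈ s, f i ≠ 0) : w.w (∏ i ∈ s, f i) = ∑ i ∈ s, w.w (f i) := by
  induction s using Finset.induction_on with
  | empty =>
    have := w.triv 1 one_ne_zero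
    simpa using this
  | insert a s ha ih =>
    rw [Finset.prod_insert ha, Finset.sum_insert ha, w.mul, ih]
    · intro i hi
      exact hf i (Finset.mem_insert_of_mem hi)
    · exact hf a (Finset.mem_insert_self a s)
    · exact Finset.prod_ne_zero_iff.mpr (fun i hi => hf i (Finset.mem_insert_of_mem hi))

/-- Losses of the derivations `θ i` on the subfields `{g : θ_j g = 0 for all j < i}`. -/
theorem exists_losses (T : TorusField n K) (w : IntVal K) (A : ℤ)
    (hA : ∀ g : Fin n → K, Matrix.det (Matrix.of fun i j => T.θ i (g j)) ≠ 0 →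
      ∑ j, w.w (g j) ≤ w.w (Matrix.det (Matrix.of fun i j => T.θ i (g j))) + A) :
    ∃ μ : Fin n → ℤ, (∀ i, 0 ≤ μ i) ∧ ∑ i, μ i ≤ A ∧
      ∀ (i : Fin n) (g : K), (∀ j < i, T.θ j g = 0) → T.θ i g ≠ 0 → w.w g ≤ w.w (T.θ i g) + μ i := by
  classical
  -- the triangular choice
  have key : ∀ g : Fin n → K, (∀ i, (∀ j < i, T.θ j (g i) = 0) ∧ T.θ i (g i) ≠ 0) →
      ∑ i, (w.w (g i) - w.w (T.θ i (g i))) ≤ A := by
    intro g hg
    have hdet : Matrix.det (Matrix.of fun i j => T.θ i (g j)) = ∏ i, T.θ i (g i) := by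
      rw [Matrix.det_of_lowerTriangular]
      · rfl
      · intro i j hij
        have hij' : i < j := by simpa using hij
        exact (hg j).1 i hij'
    have hne : Matrix.det (Matrix.of fun i j => T.θ i (g j)) ≠ 0 := by
      rw [hdet]
      exact Finset.prod_ne_zero_iff.mpr (fun i _ => (hg i).2)
    have h := hA g hne
    rw [hdet, w_prod w _ _ (fun i _ => (hg i).2)] at h
    rw [Finset.sum_sub_distrib]
    linarith
  let e : Fin n → K := fun i => T.χ (Pi.single i 1)
  have he0 : ∀ i, e i ≠ 0 := fun i => T.li.ne_zero _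
  have heo : ∀ i j, j ≠ i → T.θ j (e i) = 0 := by
    intro i j hij
    show T.θ j (T.χ (Pi.single i 1)) = 0
    rw [T.θ_χ, Pi.single_eq_of_ne hij]
    simp
  have hes : ∀ i, T.θ i (e i) = e i := by
    intro i
    show T.θ i (T.χ (Pi.single i 1)) = T.χ (Pi.single i 1)
    rw [T.θ_χ, Pi.single_eq_same]
    simp
  have hegood : ∀ i, (∀ j < i, T.θ j (e i) = 0) ∧ T.θ i (e i) ≠ 0 := by
    intro i
    refine ⟨fun j hj => heo i j hj.ne, ?_⟩
    rw [hes]
    exact he0 i
  have hbdd : ∀ (i : Fin n) (g : K), (∀ j < i, T.θ j g = 0) → T.θ i g ≠ 0 →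
      w.w g - w.w (T.θ i g) ≤ A := by
    intro i g h1 h2
    have h := key (Function.update e i g) (by
      intro k
      by_cases hk : k = i
      · subst hk
        rw [Function.update_self]
        exact ⟨h1, h2⟩
      · rw [Function.update_of_ne hk]
        exact hegood k)
    rw [Finset.sum_eq_single i] at h
    · rw [Function.update_self] at h
      exact h
    · intro k _ hk
      rw [Function.update_of_ne hk, hes]
      ring
    · intro hh
      exact absurd (Finset.mem_univ i) hh
  have hmax : ∀ i : Fin n, ∃ μ : ℤ, (∃ g : K, (∀ j < i, T.θ j g = 0) ∧ T.θ i g ≠ 0 ∧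
      w.w g - w.w (T.θ i g) = μ) ∧ ∀ z : ℤ, (∃ g : K, (∀ j < i, T.θ j g = 0) ∧ T.θ i g ≠ 0 ∧
      w.w g - w.w (T.θ i g) = z) → z ≤ μ := by
    intro i
    apply Int.exists_greatest_of_bdd
    · refine ⟨A, ?_⟩
      rintro z ⟨g, h1, h2, rfl⟩
      exact hbdd i g h1 h2
    · exact ⟨_, e i, (hegood i).1, (hegood i).2, rfl⟩
  choose μ hμ1 hμ2 using hmax
  choose g hg1 hg2 hg3 using hμ1
  refine ⟨μ, ?_, ?_, ?_⟩
  · intro i
    apply hμ2 i 0
    refine ⟨e i, (hegood i).1, (hegood i).2, ?_⟩
    rw [hes]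
    ring
  · have := key g (fun i => ⟨hg1 i, hg2 i⟩)
    calc ∑ i, μ i = ∑ i, (w.w (g i) - w.w (T.θ i (g i))) :=
          Finset.sum_congr rfl (fun i _ => (hg3 i).symm)
      _ ≤ A := this
  · intro i g' h1 h2
    have := hμ2 i _ ⟨g', h1, h2, rfl⟩
    linarith

end s8666

section s8667

variable {n : ℕ} {K : Type} [Field K] [Algebra ℂ K]

theorem IntVal.smul (w : IntVal K) (c : ℂ) (hc : c ≠ 0) (x : K) (hx : x ≠ 0) :
    w.w (c • x) = w.w x := by
  rw [Algebra.smul_def, w.mul _ _ (by simpa using hc) hx, w.triv c hc, zero_add]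

theorem TorusField.F_ne (T : TorusField n K) (S : Finset (Fin n → ℤ)) (b : (Fin n → ℤ) → ℂ)
    (u : Fin n → ℤ) (hu : u ∈ S) (hb : b u ≠ 0) : ∑ v ∈ S, b v • T.χ v ≠ 0 := by
  intro h
  exact hb (linearIndependent_iff'.mp T.li S b h u hu)

theorem TorusField.θ_F (T : TorusField n K) (S : Finset (Fin n → ℤ)) (b : (Fin n → ℤ) → ℂ)
    (i : Fin n) : T.θ i (∑ v ∈ S, b v • T.χ v) = ∑ v ∈ S, (((v i : ℤ) : ℂ) * b v) • T.χ v := by
  rw [map_sum]
  refine Finset.sum_congr rfl fun v _ => ?_
  rw [Derivation.map_smul, T.θ_χ, mul_smul, smul_comm]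
  congr 1
  rw [Algebra.smul_def]
  simp

theorem step_lemma (T : TorusField n K) (w : IntVal K) (μ : Fin n → ℤ) (hμ0 : ∀ i, 0 ≤ μ i)
    (hμ : ∀ (i : Fin n) (g : K), (∀ j < i, T.θ j g = 0) → T.θ i g ≠ 0 →
      w.w g ≤ w.w (T.θ i g) + μ i) (i : Fin n) (S : Finset (Fin n → ℤ))
    (a0 : Fin n → ℤ) (hS : ∀ u ∈ S, ∀ j < i, u j = a0 j) (b : (Fin n → ℤ) → ℂ) (k : ℤ)
    (hne : ∑ v ∈ S, ((((v i : ℤ) : ℂ) - k) * b v) • T.χ v ≠ 0) :
    w.w (∑ v ∈ S, b v • T.χ v) ≤ w.w (∑ v ∈ S, ((((v i : ℤ) : ℂ) - k) * b v) • T.χ v) + μ i := by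
  set g := ∑ v ∈ S, b v • T.χ v with hg
  have hg' : ∑ v ∈ S, ((((v i : ℤ) : ℂ) - k) * b v) • T.χ v = T.θ i g - (k : ℂ) • g := by
    rw [hg, T.θ_F, Finset.smul_sum, ← Finset.sum_sub_distrib]
    refine Finset.sum_congr rfl fun v _ => ?_
    rw [smul_smul, ← sub_smul]
    congr 1
    ring
  rw [hg'] at hne ⊢
  have hg0 : g ≠ 0 := by
    intro h
    rw [h] at hne
    simp at hne
  let a : Fin n → ℤ := fun j => if j < i then a0 j else 0
  have hai : a i = 0 := by simp [a]
  have hχa : T.χ a ≠ 0 := T.χ_ne a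
  set h := T.χ (-a) * g with hh
  have hgh : g = T.χ a * h := by
    rw [hh, ← mul_assoc, ← T.χ_add, add_neg_cancel, T.χ_zero, one_mul]
  have hh0 : h ≠ 0 := by
    intro h0
    rw [h0, mul_zero] at hgh
    exact hg0 hgh
  have hθj : ∀ j < i, T.θ j h = 0 := by
    intro j hj
    have h1 : T.θ j g = ((a0 j : ℤ) : K) * g := by
      rw [hg, T.θ_F, Finset.mul_sum]
      refine Finset.sum_congr rfl fun v hv => ?_
      rw [hS v hv j hj, mul_smul, Algebra.smul_def]
      simp
    have h2 : T.θ j (T.χ (-a)) = -((a0 j : ℤ) : K) * T.χ (-a) := by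
      rw [T.θ_χ]
      simp [a, hj]
    rw [hh, Derivation.leibniz, h1, h2, smul_eq_mul, smul_eq_mul]
    ring
  have hθi : T.θ i g = T.χ a * T.θ i h := by
    rw [hgh, Derivation.leibniz, T.θ_χ, hai]
    simp
  by_cases hcase : T.θ i h = 0
  · rw [hθi, hcase, mul_zero, zero_sub] at hne ⊢
    have hk : (k : ℂ) ≠ 0 := by
      intro hk
      rw [hk] at hne
      simp at hne
    rw [← neg_smul, w.smul _ (neg_ne_zero.mpr hk) _ hg0]
    have := hμ0 i
    omega
  · have h3 := hμ i h hθj hcase
    have h4 : w.w g ≤ w.w (T.θ i g) + μ i := by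
      rw [hθi, w.mul _ _ hχa hcase]
      have : w.w g = w.w (T.χ a) + w.w h := by
        rw [hgh, w.mul _ _ hχa hh0]
      omega
    by_cases hk : (k : ℂ) = 0
    · rw [hk, zero_smul, sub_zero]
      exact h4
    · have h5 : w.w (-((k : ℂ) • g)) = w.w g := by
        rw [← neg_smul, w.smul _ (neg_ne_zero.mpr hk) _ hg0]
      have h6 : T.θ i g ≠ 0 := by
        rw [hθi]
        exact mul_ne_zero hχa hcase
      have h7 : -((k : ℂ) • g) ≠ 0 := by
        rw [neg_ne_zero]
        exact smul_ne_zero hk hg0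
      have h8 := w.add (T.θ i g) (-((k : ℂ) • g)) h6 h7 (by rwa [← sub_eq_add_neg])
      rw [← sub_eq_add_neg, h5] at h8
      have := hμ0 i
      rcases min_le_iff.mp h8 with h9 | h9 <;> omega

theorem one_step (T : TorusField n K) (w : IntVal K) (μ : Fin n → ℤ) (hμ0 : ∀ i, 0 ≤ μ i)
    (hμ : ∀ (i : Fin n) (g : K), (∀ j < i, T.θ j g = 0) → T.θ i g ≠ 0 →
      w.w g ≤ w.w (T.θ i g) + μ i) (i : Fin n) (S : Finset (Fin n → ℤ))
    (a0 : Fin n → ℤ) (hS : ∀ u ∈ S, ∀ j < i, u j = a0 j) (c : (Fin n → ℤ) → ℂ)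
    (hc : ∀ u ∈ S, c u ≠ 0) (m U : ℤ) (hm : ∀ u ∈ S, -m ≤ u i) (hU : ∀ u ∈ S, u i ≤ U)
    (u1 : Fin n → ℤ) (hu1 : u1 ∈ S) (hu1U : u1 i = U) :
    w.w (∑ v ∈ S, c v • T.χ v) ≤
      w.w (∑ v ∈ S.filter (fun v => v i = U), c v • T.χ v) + (U + m) * μ i := by
  obtain ⟨N, hN⟩ : ∃ N : ℕ, (N : ℤ) = U + m := ⟨(U + m).toNat, by
    have := hm u1 hu1
    rw [hu1U] at this
    omega⟩
  -- factors
  let φ : ℕ → (Fin n → ℤ) → ℂ := fun t u => ∏ s ∈ Finset.range t, (((u i : ℤ) : ℂ) - ((-m + s : ℤ) : ℂ))
  have hφ1 : ∀ t ≤ N, φ t u1 ≠ 0 := by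
    intro t ht
    refine Finset.prod_ne_zero_iff.mpr fun s hs => ?_
    rw [Finset.mem_range] at hs
    rw [← Int.cast_sub, Int.cast_ne_zero]
    rw [hu1U]
    omega
  have key : ∀ t ≤ N, w.w (∑ v ∈ S, c v • T.χ v) ≤
      w.w (∑ v ∈ S, (φ t v * c v) • T.χ v) + t * μ i := by
    intro t
    induction t with
    | zero =>
      intro _
      simp [φ]
    | succ t ih =>
      intro ht
      have h1 := ih (by omega)
      have h2 : ∀ v, φ (t + 1) v * c v = (((v i : ℤ) : ℂ) - ((-m + t : ℤ) : ℂ)) * (φ t v * c v) := by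
        intro v
        simp only [φ, Finset.prod_range_succ]
        ring
      have h3 := step_lemma T w μ hμ0 hμ i S a0 hS (fun v => φ t v * c v) (-m + t) (by
        refine T.F_ne S _ u1 hu1 ?_
        rw [← h2]
        exact mul_ne_zero (hφ1 _ ht) (hc u1 hu1))
      simp only [h2]
      push_cast at h3 ⊢
      linarith
  have hfin := key N le_rfl
  have hφN : ∀ v ∈ S, φ N v = if v i = U then (N.factorial : ℂ) else 0 := by
    intro v hv
    split_ifs with h
    · simp only [φ]
      rw [h]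
      have : ∀ s ∈ Finset.range N, (((U : ℤ) : ℂ) - ((-m + s : ℤ) : ℂ)) = ((N - s : ℕ) : ℂ) := by
        intro s hs
        rw [Finset.mem_range] at hs
        rw [Nat.cast_sub hs.le, ← Int.cast_sub]
        have : U - (-m + (s:ℤ)) = (N : ℤ) - s := by omega
        rw [this]
        push_cast
        ring
      rw [Finset.prod_congr rfl this, ← Nat.cast_prod]
      congr 1
      rw [← Finset.prod_range_reflect, ← Finset.prod_range_add_one_eq_factorial]
      refine Finset.prod_congr rfl fun s hs => ?_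
      rw [Finset.mem_range] at hs
      omega
    · refine Finset.prod_eq_zero (i := (v i + m).toNat) ?_ ?_
      · rw [Finset.mem_range]
        have h1 := hU v hv
        have h2 := hm v hv
        omega
      · rw [← Int.cast_sub, Int.cast_eq_zero]
        have h2 := hm v hv
        omega
  have hsum : ∑ v ∈ S, (φ N v * c v) • T.χ v =
      (N.factorial : ℂ) • ∑ v ∈ S.filter (fun v => v i = U), c v • T.χ v := by
    rw [Finset.sum_filter, Finset.smul_sum]
    refine Finset.sum_congr rfl fun v hv => ?_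
    rw [hφN v hv]
    split_ifs with h
    · rw [mul_smul]
    · simp
  rw [hsum, w.smul _ (by exact_mod_cast N.factorial_ne_zero) _
    (T.F_ne _ c u1 (by simp [hu1, hu1U]) (hc u1 hu1)), hN] at hfin
  exact hfin

/-- Estimate of the value of a Laurent polynomial by its lexicographically leading exponent. -/
theorem lead_estimate (T : TorusField n K) (w : IntVal K) (μ : Fin n → ℤ) (hμ0 : ∀ i, 0 ≤ μ i)
    (hμ : ∀ (i : Fin n) (g : K), (∀ j < i, T.θ j g = 0) → T.θ i g ≠ 0 →
      w.w g ≤ w.w (T.θ i g) + μ i)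
    (m : ℤ) (c : (Fin n → ℤ) →₀ ℂ) (hc : c ≠ 0) (hm : ∀ u ∈ c.support, ∀ i, -m ≤ u i) :
    ∃ u ∈ c.support, w.w (Finsupp.linearCombination ℂ T.χ c) ≤
      ∑ i, (u i * w.w (T.χ (Pi.single i 1)) + (u i + m) * μ i) := by
  classical
  have hF : Finsupp.linearCombination ℂ T.χ c = ∑ v ∈ c.support, c v • T.χ v := by
    rw [Finsupp.linearCombination_apply, Finsupp.sum]
  have hcS : ∀ u ∈ c.support, c u ≠ 0 := fun u hu => Finsupp.mem_support_iff.mp hu
  have key : ∀ i : ℕ, i ≤ n → ∃ u0 ∈ c.support, w.w (∑ v ∈ c.support, c v • T.χ v) ≤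
      w.w (∑ v ∈ c.support.filter (fun v => ∀ j : Fin n, (j : ℕ) < i → v j = u0 j), c v • T.χ v) +
      ∑ j ∈ Finset.univ.filter (fun j : Fin n => (j : ℕ) < i), (u0 j + m) * μ j := by
    intro i
    induction i with
    | zero =>
      intro _
      obtain ⟨u0, hu0⟩ := Finsupp.support_nonempty_iff.mpr hc
      refine ⟨u0, hu0, ?_⟩
      simp
    | succ i ih =>
      intro hi
      obtain ⟨u0, hu0, hle⟩ := ih (by omega)
      set Si := c.support.filter (fun v => ∀ j : Fin n, (j : ℕ) < i → v j = u0 j) with hSi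
      have hne : Si.Nonempty := ⟨u0, by simp [hSi, Finsupp.mem_support_iff.mp hu0]⟩
      let I : Fin n := ⟨i, by omega⟩
      obtain ⟨u1, hu1, hmax⟩ := Si.exists_max_image (fun v => v I) hne
      have hu1' := Finset.mem_filter.mp hu1
      refine ⟨u1, hu1'.1, ?_⟩
      have hstep := one_step T w μ hμ0 hμ I Si u0 (fun u hu j hj => (Finset.mem_filter.mp hu).2 j hj)
        c (fun u hu => hcS u (Finset.mem_filter.mp hu).1) m (u1 I)
        (fun u hu => hm u (Finset.mem_filter.mp hu).1 I) (fun u hu => hmax u hu) u1 hu1 rfl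
      have hfil : Si.filter (fun v => v I = u1 I) =
          c.support.filter (fun v => ∀ j : Fin n, (j : ℕ) < i + 1 → v j = u1 j) := by
        ext v
        simp only [hSi, Finset.mem_filter, and_assoc]
        refine and_congr_right fun _ => ?_
        constructor
        · rintro ⟨h1, h2⟩ j hj
          rcases Nat.lt_succ_iff_lt_or_eq.mp hj with h | h
          · rw [h1 j h, hu1'.2 j h]
          · have : j = I := Fin.ext h
            rw [this, h2]
        · intro h
          refine ⟨fun j hj => ?_, h I (Nat.lt_succ_self i)⟩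
          rw [h j (by omega), hu1'.2 j hj]
      have hsum : ∑ j ∈ Finset.univ.filter (fun j : Fin n => (j : ℕ) < i + 1), (u1 j + m) * μ j =
          (∑ j ∈ Finset.univ.filter (fun j : Fin n => (j : ℕ) < i), (u0 j + m) * μ j) +
            (u1 I + m) * μ I := by
        have : Finset.univ.filter (fun j : Fin n => (j : ℕ) < i + 1) =
            insert I (Finset.univ.filter (fun j : Fin n => (j : ℕ) < i)) := by
          ext j
          simp only [Finset.mem_filter, Finset.mem_univ, true_and, Finset.mem_insert]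
          constructor
          · intro h
            rcases Nat.lt_succ_iff_lt_or_eq.mp h with h | h
            · exact Or.inr h
            · exact Or.inl (Fin.ext h)
          · rintro (rfl | h)
            · exact Nat.lt_succ_self i
            · omega
        rw [this, Finset.sum_insert (by simp [I]), add_comm]
        congr 1
        refine Finset.sum_congr rfl fun j hj => ?_
        rw [hu1'.2 j (by simpa using hj)]
      rw [hfil] at hstep
      rw [hsum]
      linarith
  obtain ⟨u0, hu0, hle⟩ := key n le_rfl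
  refine ⟨u0, hu0, ?_⟩
  rw [hF]
  have h1 : c.support.filter (fun v => ∀ j : Fin n, (j : ℕ) < n → v j = u0 j) = {u0} := by
    ext v
    simp only [Finset.mem_filter, Finset.mem_singleton]
    constructor
    · rintro ⟨_, h⟩
      funext j
      exact h j j.2
    · rintro rfl
      exact ⟨hu0, fun _ _ => rfl⟩
  have h2 : Finset.univ.filter (fun j : Fin n => (j : ℕ) < n) = Finset.univ := by
    ext j
    simp
  rw [h1, h2, Finset.sum_singleton, w.smul _ (hcS u0 hu0) _ (T.χ_ne u0)] at hle
  let W : (Fin n → ℤ) →+ ℤ :=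
    { toFun := fun u => w.w (T.χ u)
      map_zero' := by
        rw [T.χ_zero, ← map_one (algebraMap ℂ K)]
        exact w.triv 1 one_ne_zero
      map_add' := fun u v => by
        rw [T.χ_add, w.mul _ _ (T.χ_ne u) (T.χ_ne v)] }
  have h3 : w.w (T.χ u0) = ∑ i, u0 i * w.w (T.χ (Pi.single i 1)) := by
    have h4 : u0 = ∑ i, u0 i • (Pi.single i (1:ℤ) : Fin n → ℤ) := by
      funext j
      simp [Finset.sum_apply, Pi.single_apply]
    have h5 : W u0 = ∑ i, u0 i * W (Pi.single i 1) := by
      conv_lhs => rw [h4]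
      rw [map_sum]
      refine Finset.sum_congr rfl fun i _ => ?_
      rw [map_zsmul, smul_eq_mul]
    exact h5
  rw [Finset.sum_add_distrib, ← h3]
  exact hle

end s8667

section s8668

variable {n : ℕ} {K : Type} [Field K] [Algebra ℂ K]

theorem log_bound_w_one (w : IntVal K) : w.w 1 = 0 := by
  have := w.triv 1 one_ne_zero
  rwa [map_one] at this

theorem log_bound_w_inv (w : IntVal K) {x : K} (hx : x ≠ 0) : w.w x⁻¹ = -w.w x := by
  have h := w.mul x x⁻¹ hx (inv_ne_zero hx)
  rw [mul_inv_cancel₀ hx, log_bound_w_one w] at h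
  linarith

theorem log_bound_w_pow (w : IntVal K) {x : K} (hx : x ≠ 0) (m : ℕ) :
    w.w (x ^ m) = m * w.w x := by
  induction m with
  | zero => simp [log_bound_w_one w]
  | succ m ih =>
    rw [pow_succ, w.mul _ _ (pow_ne_zero _ hx) hx, ih]
    push_cast
    ring

theorem log_bound_w_zpow (w : IntVal K) {x : K} (hx : x ≠ 0) (m : ℤ) :
    w.w (x ^ m) = m * w.w x := by
  obtain ⟨a, rfl | rfl⟩ := m.eq_nat_or_neg
  · rw [zpow_natCast, log_bound_w_pow w hx]
  · rw [zpow_neg, zpow_natCast, log_bound_w_inv w (pow_ne_zero _ hx), log_bound_w_pow w hx]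
    ring

theorem log_bound_w_prod (w : IntVal K) {ι : Type} (s : Finset ι) (f : ι → K)
    (hf : ∀ i ∈ s, f i ≠ 0) : w.w (∏ i ∈ s, f i) = ∑ i ∈ s, w.w (f i) := by
  classical
  induction s using Finset.induction_on with
  | empty => simp [log_bound_w_one w]
  | insert a s ha ih =>
    rw [Finset.prod_insert ha, Finset.sum_insert ha,
      w.mul _ _ (hf a (Finset.mem_insert_self _ _))
        (Finset.prod_ne_zero_iff.2 fun i hi => hf i (Finset.mem_insert_of_mem hi)),
      ih fun i hi => hf i (Finset.mem_insert_of_mem hi)]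

theorem log_bound_w_sum (w : IntVal K) {ι : Type} (s : Finset ι) (f : ι → K) (m : ℤ)
    (hf : ∀ i ∈ s, f i = 0 ∨ m ≤ w.w (f i)) :
    ∑ i ∈ s, f i = 0 ∨ m ≤ w.w (∑ i ∈ s, f i) := by
  classical
  induction s using Finset.induction_on with
  | empty => simp
  | insert a s ha ih =>
    rw [Finset.sum_insert ha]
    have h1 := hf a (Finset.mem_insert_self _ _)
    have h2 := ih fun i hi => hf i (Finset.mem_insert_of_mem hi)
    by_cases h0 : f a + ∑ i ∈ s, f i = 0
    · exact Or.inl h0
    · right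
      by_cases ha0 : f a = 0
      · rw [ha0, zero_add] at h0 ⊢
        exact h2.resolve_left h0
      · by_cases hs0 : ∑ i ∈ s, f i = 0
        · rw [hs0, add_zero]
          exact h1.resolve_left ha0
        · have h3 := w.add _ _ ha0 hs0 h0
          have h4 := h1.resolve_left ha0
          have h5 := h2.resolve_left hs0
          exact (le_min h4 h5).trans h3

theorem log_bound_expand (D : Fin n → Derivation ℂ K K) (u c : Fin n → K) (z : K) :
    Matrix.det (Matrix.of fun i j => D i (u j) + c j * D i z) =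
      ∑ s : Finset (Fin n), (∏ j, if j ∈ s then 1 else c j) *
        Matrix.det (Matrix.of fun i j => D i (if j ∈ s then u j else z)) := by
  have h1 : Matrix.det (Matrix.of fun i j => D i (u j) + c j * D i z) =
      (Matrix.detRowAlternating (R := K) (n := Fin n))
        ((fun j i => D i (u j)) + (fun j i => c j * D i z)) := by
    rw [← Matrix.det_transpose]
    rfl
  rw [h1, AlternatingMap.map_add_univ]
  apply Finset.sum_congr rfl
  intro s _
  have h2 : (s.piecewise (fun j i => D i (u j)) (fun j i => c j * D i z) : Fin n → Fin n → K) =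
      fun j => (if j ∈ s then (1 : K) else c j) • (fun i => D i (if j ∈ s then u j else z)) := by
    funext j
    by_cases hj : j ∈ s
    · simp [hj]
    · simp only [Finset.piecewise_eq_of_notMem _ _ _ hj, if_neg hj]
      funext i
      simp
  rw [h2, AlternatingMap.map_smul_univ, smul_eq_mul]
  congr 1
  rw [← Matrix.det_transpose]
  rfl

/-- Logarithmic forms `dg_1/g_1 ∧ ... ∧ dg_n/g_n` have a pole of order at most one more than the
regular forms. -/
theorem log_bound (D : Fin n → Derivation ℂ K K) (w : IntVal K) (hw : ∃ z, z ≠ 0 ∧ w.w z = 1) (k : ℤ)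
    (hk : ∀ g : Fin n → K, (∀ j, g j = 0 ∨ 0 ≤ w.w (g j)) →
      Matrix.det (Matrix.of fun i j => D i (g j)) ≠ 0 →
      k ≤ w.w (Matrix.det (Matrix.of fun i j => D i (g j)))) :
    ∀ g : Fin n → K, Matrix.det (Matrix.of fun i j => D i (g j)) ≠ 0 →
      ∑ j, w.w (g j) ≤ w.w (Matrix.det (Matrix.of fun i j => D i (g j))) + (1 - k) := by
  classical
  intro g hdet
  obtain ⟨z, hz0, hz1⟩ := hw
  have hg : ∀ j, g j ≠ 0 := by
    intro j hj
    apply hdet
    apply Matrix.det_eq_zero_of_column_eq_zero j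
    intro i
    simp [hj]
  set a : Fin n → ℤ := fun j => w.w (g j) with ha
  set u : Fin n → K := fun j => g j * z ^ (-(a j)) with hu
  have hu0 : ∀ j, u j ≠ 0 := fun j => mul_ne_zero (hg j) (zpow_ne_zero _ hz0)
  have huw : ∀ j, w.w (u j) = 0 := by
    intro j
    simp only [hu]
    rw [w.mul _ _ (hg j) (zpow_ne_zero _ hz0), log_bound_w_zpow w hz0, hz1]
    simp [ha]
  set c : Fin n → K := fun j => ((a j : ℤ) : K) * (u j / z) with hc
  have hgu : ∀ j, g j = z ^ (a j) * u j := by
    intro j
    simp only [hu]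
    rw [mul_comm (g j), ← mul_assoc, ← zpow_add₀ hz0]
    simp
  have hD : ∀ i j, D i (g j) = z ^ (a j) * (D i (u j) + c j * D i z) := by
    intro i j
    rw [hgu j, Derivation.leibniz, Derivation.leibniz_zpow, hc]
    simp only [smul_eq_mul, zsmul_eq_mul]
    rw [zpow_sub_one₀ hz0]
    field_simp
  have hmat : (Matrix.of fun i j => D i (g j)) =
      Matrix.of fun i j => (fun j => z ^ (a j)) j *
        (Matrix.of fun i j => D i (u j) + c j * D i z) i j := by
    ext i j
    simp only [Matrix.of_apply]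
    exact hD i j
  rw [hmat, Matrix.det_mul_row] at hdet ⊢
  have hP0 : ∏ j, z ^ (a j) ≠ 0 := Finset.prod_ne_zero_iff.2 fun j _ => zpow_ne_zero _ hz0
  have hd0 : Matrix.det (Matrix.of fun i j => D i (u j) + c j * D i z) ≠ 0 :=
    right_ne_zero_of_mul hdet
  rw [w.mul _ _ hP0 hd0, log_bound_w_prod w _ _ fun j _ => zpow_ne_zero _ hz0]
  have hsum : ∑ j, w.w (z ^ (a j)) = ∑ j, a j := by
    apply Finset.sum_congr rfl
    intro j _
    rw [log_bound_w_zpow w hz0, hz1, mul_one]
  rw [hsum]
  have hkey : k - 1 ≤ w.w (Matrix.det (Matrix.of fun i j => D i (u j) + c j * D i z)) := by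
    rw [log_bound_expand] at hd0 ⊢
    refine (log_bound_w_sum w _ _ (k - 1) ?_).resolve_left hd0
    intro s _
    by_cases hp : (∏ j, if j ∈ s then 1 else c j) = 0
    · left; rw [hp, zero_mul]
    by_cases hdt : Matrix.det (Matrix.of fun i j => D i (if j ∈ s then u j else z)) = 0
    · left; rw [hdt, mul_zero]
    right
    rw [w.mul _ _ hp hdt]
    have h1 : k ≤ w.w (Matrix.det (Matrix.of fun i j => D i (if j ∈ s then u j else z))) := by
      apply hk (fun j => if j ∈ s then u j else z) _ hdt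
      intro j
      right
      by_cases hj : j ∈ s
      · simp only [if_pos hj]; rw [huw j]
      · simp only [if_neg hj]; rw [hz1]; norm_num
    have h2 : -1 ≤ w.w (∏ j, if j ∈ s then 1 else c j) := by
      have hne : ∀ j ∈ (Finset.univ : Finset (Fin n)), (if j ∈ s then 1 else c j) ≠ 0 :=
        Finset.prod_ne_zero_iff.1 hp
      rw [log_bound_w_prod w _ _ hne]
      have hterm : ∀ j, w.w (if j ∈ s then 1 else c j) = if j ∈ s then 0 else -1 := by
        intro j
        by_cases hj : j ∈ s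
        · rw [if_pos hj, if_pos hj, log_bound_w_one w]
        · have h3 := hne j (Finset.mem_univ j)
          rw [if_neg hj] at h3 ⊢
          rw [if_neg hj]
          have h4 : ((a j : ℤ) : K) ≠ 0 := left_ne_zero_of_mul h3
          have h5 : w.w ((a j : ℤ) : K) = 0 := by
            have h6 : ((a j : ℤ) : K) = algebraMap ℂ K ((a j : ℤ) : ℂ) := by simp
            rw [h6]
            apply w.triv
            intro h7
            apply h4
            rw [h6, h7, map_zero]
          show w.w (((a j : ℤ) : K) * (u j / z)) = -1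
          rw [div_eq_mul_inv, w.mul _ _ h4 (mul_ne_zero (hu0 j) (inv_ne_zero hz0)),
            w.mul _ _ (hu0 j) (inv_ne_zero hz0), log_bound_w_inv w hz0, h5, huw j, hz1]
          norm_num
      rw [Finset.sum_congr rfl fun j _ => hterm j]
      have hcard : (Finset.univ.filter fun j => j ∉ s).card ≤ 1 := by
        rw [Finset.card_le_one]
        intro j1 h1' j2 h2'
        by_contra hne12
        apply hdt
        apply Matrix.det_zero_of_column_eq hne12
        intro i
        simp only [Matrix.of_apply]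
        rw [if_neg (Finset.mem_filter.1 h1').2, if_neg (Finset.mem_filter.1 h2').2]
      have h8 : ∑ j, (if j ∈ s then (0 : ℤ) else -1) =
          -((Finset.univ.filter fun j => j ∉ s).card : ℤ) := by
        have h9 : ∀ j, (if j ∈ s then (0 : ℤ) else -1) = -(if j ∉ s then (1 : ℤ) else 0) := by
          intro j
          by_cases hj : j ∈ s <;> simp [hj]
        rw [Finset.sum_congr rfl fun j _ => h9 j, Finset.sum_neg_distrib, Finset.sum_boole]
      rw [h8]
      have : ((Finset.univ.filter fun j => j ∉ s).card : ℤ) ≤ 1 := by exact_mod_cast hcard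
      linarith
    linarith
  have : ∑ j, w.w (g j) = ∑ j, a j := rfl
  linarith

end s8668

section s8669

variable {n : ℕ} {K : Type} [Field K] [Algebra ℂ K]

/-- Dimension bound by leading exponents. -/
theorem finrank_le_card {M : Type} (χ : M → K) (hχ : LinearIndependent ℂ χ) (V : Submodule ℂ K)
    (U : Finset M)
    (hV : ∀ f ∈ V, f ≠ 0 → ∃ c : M →₀ ℂ, f = Finsupp.linearCombination ℂ χ c ∧ ∃ u ∈ U, c u ≠ 0) :
    Module.finrank ℂ V ≤ U.card := by
  have hle : V ≤ Submodule.span ℂ (Set.range χ) := by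
    intro f hf
    by_cases h0 : f = 0
    · rw [h0]; exact Submodule.zero_mem _
    · obtain ⟨c, hc, -⟩ := hV f hf h0
      rw [hc]
      exact (Finsupp.mem_span_range_iff_exists_finsupp).2 ⟨c, rfl⟩
  let L : V →ₗ[ℂ] (U → ℂ) :=
    (LinearMap.pi fun u : U => (Finsupp.lapply (u : M) : (M →₀ ℂ) →ₗ[ℂ] ℂ)) ∘ₗ
      hχ.repr ∘ₗ (Submodule.inclusion hle)
  have hinj : Function.Injective L := by
    rw [← LinearMap.ker_eq_bot, LinearMap.ker_eq_bot']
    intro f hf
    by_contra h0
    have h0' : (f : K) ≠ 0 := fun h => h0 (Subtype.ext h)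
    obtain ⟨c, hc, u, hu, hcu⟩ := hV f f.2 h0'
    have : hχ.repr (Submodule.inclusion hle f) = c := hχ.repr_eq (by rw [← hc]; rfl)
    have h1 := congrFun hf ⟨u, hu⟩
    simp only [L, LinearMap.comp_apply, LinearMap.pi_apply] at h1
    apply hcu
    rw [← this]
    exact h1
  have := LinearMap.finrank_le_finrank_of_injective hinj
  simpa using this

theorem finrank_span_image {M : Type} (χ : M → K) (hχ : LinearIndependent ℂ χ) (U : Set M) :
    Module.finrank ℂ (Submodule.span ℂ (χ '' U)) = U.ncard := by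
  have h1 : LinearIndepOn ℂ id (χ '' U) := (hχ.linearIndepOn (s := U)).id_image
  have h2 := rank_span_set h1
  rw [Module.finrank, h2, ← Set.ncard_image_of_injective U hχ.injective]
  rfl

open scoped Pointwise in
/-- Lattice points in a bounded convex set. -/
theorem lattice_count (n : ℕ) (s : Set (Fin n → ℝ)) (hb : Bornology.IsBounded s) (hc : Convex ℝ s)
    (hcl : IsClosed s) :
    Filter.Tendsto (fun m : ℕ =>
      (({u : Fin n → ℤ | (fun i => (u i : ℝ) / (m : ℝ)) ∈ s}.ncard : ℕ) : ℝ≥0∞) / (m : ℝ≥0∞) ^ n)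
      Filter.atTop (nhds (MeasureTheory.volume s)) := by
  have hfin : MeasureTheory.volume s ≠ ⊤ := hb.measure_lt_top.ne
  have key := tendsto_card_div_pow_atTop_volume s hb hcl.measurableSet
    (hc.addHaar_frontier MeasureTheory.volume)
  have key2 := ENNReal.tendsto_ofReal key
  have e : ENNReal.ofReal (MeasureTheory.volume.real s) = MeasureTheory.volume s := by
    rw [MeasureTheory.Measure.real, ENNReal.ofReal_toReal hfin]
  rw [e] at key2
  refine key2.congr' ?_
  filter_upwards [Filter.eventually_gt_atTop 0] with m hm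
  have hm' : (0 : ℝ) < m := by exact_mod_cast hm
  have : NeZero m := ⟨hm.ne'⟩
  have hcard : Nat.card ↑(s ∩ (((m : ℝ)⁻¹ • Submodule.span ℤ (Set.range (Pi.basisFun ℝ (Fin n))) :
      Submodule ℤ (Fin n → ℝ)) : Set (Fin n → ℝ))) =
      {u : Fin n → ℤ | (fun i => (u i : ℝ) / (m : ℝ)) ∈ s}.ncard := by
    have him : s ∩ (((m : ℝ)⁻¹ • Submodule.span ℤ (Set.range (Pi.basisFun ℝ (Fin n))) :
      Submodule ℤ (Fin n → ℝ)) : Set (Fin n → ℝ)) =
      (fun u : Fin n → ℤ => fun i => (u i : ℝ) / (m : ℝ)) ''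
        {u : Fin n → ℤ | (fun i => (u i : ℝ) / (m : ℝ)) ∈ s} := by
      ext v
      simp only [Set.mem_inter_iff, SetLike.mem_coe, Set.mem_image, Set.mem_setOf_eq]
      rw [BoxIntegral.unitPartition.mem_smul_span_iff]
      constructor
      · rintro ⟨hv, hz⟩
        choose u hu using hz
        have hvu : (fun i => (u i : ℝ) / (m : ℝ)) = v := by
          funext i
          have := hu i
          rw [eq_intCast] at this
          rw [this, mul_div_cancel_left₀ _ hm'.ne']
        exact ⟨u, by rw [hvu]; exact hv, hvu⟩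
      · rintro ⟨u, hu, rfl⟩
        refine ⟨hu, fun i => ⟨u i, ?_⟩⟩
        rw [eq_intCast, mul_div_cancel₀ _ hm'.ne']
    rw [Nat.card_coe_set_eq, him, Set.ncard_image_of_injective]
    intro u v huv
    funext i
    have := congrFun huv i
    simp only at this
    rw [div_left_inj' hm'.ne'] at this
    exact_mod_cast this
  rw [Fintype.card_fin]
  rw [ENNReal.ofReal_div_of_pos (pow_pos hm' n)]
  rw [ENNReal.ofReal_natCast, ENNReal.ofReal_pow hm'.le, ENNReal.ofReal_natCast]
  rw [← hcard]
  rfl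

end s8669

end Pool.Agent.Helper774.KStab
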